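import Pool.Agent.N273.LT.Defs
import Pool.Agent.R220.LV.Dec

/-!
# The eigenspaces are finite dimensional
-/

set_option autoImplicit false

open MeasureTheory Real Function

namespace Pool.Agent.N273.LT

open Pool.Agent.R220.LV (W SP par_cont par_deriv swap int_add int_sub ip ip_self_zero W_cont)

theorem var_int {u : ℝ → ℝ} (hu : Continuous u) (a b c : ℝ) :
    ∫ t in a..b, (u t - c) * (u t - c) =
      (∫ t in a..b, u t * u t) - 2 * c * (∫ t in a..b, u t) + c ^ 2 * (b - a) := by
  have e : ∀ t, (u t - c) * (u t - c) = (u t * u t - 2 * c * u t) + c ^ 2 := fun t => by ring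
  have c1 : Continuous fun t => u t * u t := hu.mul hu
  have c2 : Continuous fun t => 2 * c * u t := continuous_const.mul hu
  have c3 : Continuous fun t => u t * u t - 2 * c * u t := c1.sub c2
  have c4 : Continuous fun _ : ℝ => c ^ 2 := continuous_const
  simp only [e]
  rw [int_add c3 c4, int_sub c1 c2, intervalIntegral.integral_const_mul,
    intervalIntegral.integral_const, smul_eq_mul]
  ring

/-- The inequality of Cauchy and Schwarz. -/
theorem cs_int {u : ℝ → ℝ} (hu : Continuous u) {a b : ℝ} (hab : a ≤ b) :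
    (∫ t in a..b, u t) ^ 2 ≤ (b - a) * ∫ t in a..b, u t * u t := by
  rcases hab.eq_or_lt with rfl | hab
  · simp
  have h0 : 0 < b - a := sub_pos.2 hab
  set c := (∫ t in a..b, u t) / (b - a) with hc
  have hc1 : c * (b - a) = ∫ t in a..b, u t := by
    rw [hc]
    field_simp
  have h1 : 0 ≤ ∫ t in a..b, (u t - c) * (u t - c) :=
    intervalIntegral.integral_nonneg hab.le fun t _ => mul_self_nonneg _
  have h2 := var_int hu a b c
  rw [h2, ← hc1] at h1
  rw [← hc1]
  nlinarith

/-- The inequality of Poincare in one variable. -/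
theorem poinc {u u' : ℝ → ℝ} (hu : ∀ t, HasDerivAt u (u' t) t) (cu' : Continuous u') {a b : ℝ}
    (hab : a < b) : ∫ t in a..b, u t * u t ≤
      (b - a) ^ 2 * (∫ t in a..b, u' t * u' t) + (∫ t in a..b, u t) ^ 2 / (b - a) := by
  have cu : Continuous u := continuous_iff_continuousAt.2 fun t => (hu t).continuousAt
  have h0 : 0 < b - a := sub_pos.2 hab
  set J := ∫ t in a..b, u' t * u' t with hJ
  have hsub : ∀ x y, a ≤ x → x ≤ y → y ≤ b → (u y - u x) ^ 2 ≤ (b - a) * J := by
    intro x y hax hxy hyb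
    have h1 : u y - u x = ∫ t in x..y, u' t := by
      rw [intervalIntegral.integral_eq_sub_of_hasDerivAt (fun t _ => hu t)
        (cu'.intervalIntegrable _ _)]
    have h2 := cs_int cu' hxy
    have h3 : ∫ t in x..y, u' t * u' t ≤ J :=
      intervalIntegral.integral_mono_interval hax hxy hyb
        (Filter.Eventually.of_forall fun t => mul_self_nonneg _)
        ((cu'.mul cu').intervalIntegrable _ _)
    have h4 : 0 ≤ ∫ t in x..y, u' t * u' t :=
      intervalIntegral.integral_nonneg hxy fun t _ => mul_self_nonneg _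
    rw [h1]
    refine h2.trans (mul_le_mul (by linarith) h3 h4 h0.le)
  set c := (∫ t in a..b, u t) / (b - a) with hc
  have hc1 : c * (b - a) = ∫ t in a..b, u t := by
    rw [hc]
    field_simp
  obtain ⟨x0, hx0, hx1⟩ : ∃ x0 ∈ Set.Ioo a b, u x0 = c := by
    have h1 : ∀ x ∈ Set.Ioo a b, HasDerivAt (fun x => ∫ t in a..x, u t) (u x) x := fun x _ =>
      intervalIntegral.integral_hasDerivAt_right (cu.intervalIntegrable _ _)
        (cu.stronglyMeasurableAtFilter _ _) cu.continuousAt
    have h2 : ContinuousOn (fun x => ∫ t in a..x, u t) (Set.Icc a b) :=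
      (intervalIntegral.continuous_primitive (fun _ _ => cu.intervalIntegrable _ _) a).continuousOn
    obtain ⟨x0, hx0, hx1⟩ := exists_hasDerivAt_eq_slope (fun x => ∫ t in a..x, u t) u hab h2 h1
    refine ⟨x0, hx0, ?_⟩
    rw [hx1, intervalIntegral.integral_same, sub_zero]
  have hpt : ∀ x ∈ Set.Icc a b, (u x - c) * (u x - c) ≤ (b - a) * J := by
    intro x hx
    rw [← hx1]
    rcases le_total x0 x with h | h
    · have := hsub x0 x hx0.1.le h hx.2
      nlinarith
    · have := hsub x x0 hx.1 h hx0.2.le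
      nlinarith
  have h1 : ∫ t in a..b, (u t - c) * (u t - c) ≤ ∫ t in a..b, (b - a) * J :=
    intervalIntegral.integral_mono_on hab.le
      (((cu.sub continuous_const).mul (cu.sub continuous_const)).intervalIntegrable _ _)
      (continuous_const.intervalIntegrable _ _) hpt
  have h2 := var_int cu a b c
  rw [h2, intervalIntegral.integral_const, smul_eq_mul] at h1
  have h3 : (∫ t in a..b, u t) ^ 2 / (b - a) = c ^ 2 * (b - a) := by
    rw [← hc1]
    field_simp
  rw [h3]
  rw [← hc1] at h1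
  nlinarith

/-- The inequality of Poincare summed over the cells. -/
theorem poinc_sum {u u' : ℝ → ℝ} (hu : ∀ t, HasDerivAt u (u' t) t) (cu' : Continuous u') {h : ℝ}
    (hh : 0 < h) (N : ℕ) : ∫ t in (0 : ℝ)..(N * h), u t * u t ≤
      h ^ 2 * (∫ t in (0 : ℝ)..(N * h), u' t * u' t) +
        ∑ j ∈ Finset.range N, (∫ t in (j * h)..((j + 1 : ℕ) * h), u t) ^ 2 / h := by
  have cu : Continuous u := continuous_iff_continuousAt.2 fun t => (hu t).continuousAt
  have e1 := intervalIntegral.sum_integral_adjacent_intervals (μ := volume)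
    (f := fun t => u t * u t) (a := fun k : ℕ => (k : ℝ) * h) (n := N)
    (fun k _ => (cu.mul cu).intervalIntegrable _ _)
  have e2 := intervalIntegral.sum_integral_adjacent_intervals (μ := volume)
    (f := fun t => u' t * u' t) (a := fun k : ℕ => (k : ℝ) * h) (n := N)
    (fun k _ => (cu'.mul cu').intervalIntegrable _ _)
  simp only [Nat.cast_zero, zero_mul] at e1 e2
  rw [← e1, ← e2, Finset.mul_sum, ← Finset.sum_add_distrib]
  refine Finset.sum_le_sum fun j _ => ?_
  have hlt : (j : ℝ) * h < ((j + 1 : ℕ) : ℝ) * h := by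
    push_cast
    nlinarith
  have h1 := poinc hu cu' hlt
  have h2 : ((j + 1 : ℕ) : ℝ) * h - (j : ℝ) * h = h := by
    push_cast
    ring
  rw [h2] at h1
  exact h1

/-- The cell averages. -/
noncomputable def cell (h k : ℝ) (u : ℝ × ℝ → ℝ) (i j : ℕ) : ℝ :=
  ∫ y in (j * k)..((j + 1 : ℕ) * k), ∫ x in (i * h)..((i + 1 : ℕ) * h), u (x, y)

/-- The Dirichlet integral. -/
theorem dirich {u u' u'' : ℝ → ℝ} (hu : ∀ t, HasDerivAt u (u' t) t)
    (hu' : ∀ t, HasDerivAt u' (u'' t) t) (cu : Continuous u'') {P : ℝ}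
    (pu : u P = u 0) (pu' : u' P = u' 0) :
    ∫ t in (0 : ℝ)..P, u' t * u' t = -∫ t in (0 : ℝ)..P, u'' t * u t := by
  have c1 : Continuous u := continuous_iff_continuousAt.2 fun t => (hu t).continuousAt
  have c2 : Continuous u' := continuous_iff_continuousAt.2 fun t => (hu' t).continuousAt
  have h1 : ∀ t ∈ Set.uIcc (0 : ℝ) P, HasDerivAt (fun t => u' t * u t)
      (u'' t * u t + u' t * u' t) t := fun t _ => (hu' t).mul (hu t)
  have h3 := intervalIntegral.integral_eq_sub_of_hasDerivAt h1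
    (((cu.mul c1).add (c2.mul c2)).intervalIntegrable _ _)
  have h4 := int_add (u := fun t => u'' t * u t) (v := fun t => u' t * u' t) (cu.mul c1)
    (c2.mul c2) 0 P
  rw [pu, pu', sub_self, h4] at h3
  linarith

/-- The Poincare inequality in two variables. -/
theorem poinc2 {φ φx φy : ℝ → ℝ → ℝ} (c : Continuous (uncurry φ)) (cx : Continuous (uncurry φx))
    (cy : Continuous (uncurry φy)) (dx : ∀ x y, HasDerivAt (fun t => φ t y) (φx x y) x)
    (dy : ∀ x y, HasDerivAt (fun t => φ x t) (φy x y) y) {h k : ℝ} (hh : 0 < h) (hk : 0 < k)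
    (N : ℕ) (h0 : ∀ i < N, ∀ j < N, cell h k (uncurry φ) i j = 0) :
    (∫ y in (0 : ℝ)..(N * k), ∫ x in (0 : ℝ)..(N * h), φ x y * φ x y) ≤
      h ^ 2 * (∫ y in (0 : ℝ)..(N * k), ∫ x in (0 : ℝ)..(N * h), φx x y * φx x y) +
      k ^ 2 * ∫ y in (0 : ℝ)..(N * k), ∫ x in (0 : ℝ)..(N * h), φy x y * φy x y := by
  have hNh : 0 ≤ (N : ℝ) * h := by positivity
  have hNk : 0 ≤ (N : ℝ) * k := by positivity
  -- parametric continuity
  have hpar : ∀ (ψ : ℝ → ℝ → ℝ) (a b : ℝ), Continuous (uncurry ψ) →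
      Continuous fun y => ∫ x in a..b, ψ x y := fun ψ a b hψ =>
    par_cont (F := fun y x => ψ x y) (hψ.comp continuous_swap) a b
  have hsq : ∀ ψ : ℝ → ℝ → ℝ, Continuous (uncurry ψ) →
      Continuous (uncurry fun x y => ψ x y * ψ x y) := fun ψ hψ => hψ.mul hψ
  set m : ℕ → ℝ → ℝ := fun i y => ∫ x in (i * h)..((i + 1 : ℕ) * h), φ x y with hm
  set m' : ℕ → ℝ → ℝ := fun i y => ∫ x in (i * h)..((i + 1 : ℕ) * h), φy x y with hm'
  have cm : ∀ i, Continuous (m i) := fun i => hpar φ _ _ c
  have cm' : ∀ i, Continuous (m' i) := fun i => hpar φy _ _ cy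
  have dm : ∀ i t, HasDerivAt (m i) (m' i t) t := fun i t =>
    par_deriv (F := fun t s => φ s t) (F' := fun t s => φy s t) (c.comp continuous_swap)
      (cy.comp continuous_swap) (fun t s => dy s t) _ _ t
  -- first step
  have h1 : (∫ y in (0 : ℝ)..(N * k), ∫ x in (0 : ℝ)..(N * h), φ x y * φ x y) ≤
      ∫ y in (0 : ℝ)..(N * k), (h ^ 2 * (∫ x in (0 : ℝ)..(N * h), φx x y * φx x y) +
        ∑ i ∈ Finset.range N, (m i y) ^ 2 / h) := by
    refine intervalIntegral.integral_mono_on hNk
      ((hpar _ _ _ (hsq φ c)).intervalIntegrable _ _) (Continuous.intervalIntegrable ?_ _ _) ?_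
    · exact (continuous_const.mul (hpar _ _ _ (hsq φx cx))).add
        (continuous_finsetSum _ fun i _ => ((cm i).pow 2).div_const h)
    · intro y _
      exact poinc_sum (u := fun t => φ t y) (u' := fun t => φx t y) (fun t => dx t y)
        (cx.comp (Continuous.prodMk_left y)) hh N
  have ck1 : Continuous fun y => h ^ 2 * ∫ x in (0 : ℝ)..(N * h), φx x y * φx x y :=
    continuous_const.mul (hpar _ _ _ (hsq φx cx))
  have ck2 : Continuous fun y => ∑ i ∈ Finset.range N, (m i y) ^ 2 / h :=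
    continuous_finsetSum _ fun i _ => ((cm i).pow 2).div_const h
  have ck3 : ∀ i, Continuous fun y => (m i y) ^ 2 / h := fun i => ((cm i).pow 2).div_const h
  rw [int_add ck1 ck2,
    intervalIntegral.integral_const_mul, intervalIntegral.integral_finsetSum
    (f := fun i y => (m i y) ^ 2 / h)
    (fun i _ => (ck3 i).intervalIntegrable _ _)] at h1
  -- second step
  have h2 : ∀ i ∈ Finset.range N, ∫ y in (0 : ℝ)..(N * k), (m i y) ^ 2 / h ≤
      k ^ 2 * ∫ y in (0 : ℝ)..(N * k), ∫ x in (i * h)..((i + 1 : ℕ) * h), φy x y * φy x y := by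
    intro i hi
    have hi' := Finset.mem_range.1 hi
    have h3 := poinc_sum (dm i) (cm' i) hk N
    have h4 : ∑ j ∈ Finset.range N, (∫ t in (j * k)..((j + 1 : ℕ) * k), m i t) ^ 2 / k = 0 := by
      refine Finset.sum_eq_zero fun j hj => ?_
      have h5 : ∫ t in (j * k)..((j + 1 : ℕ) * k), m i t = 0 :=
        h0 i hi' j (Finset.mem_range.1 hj)
      rw [h5]
      simp
    rw [h4, add_zero] at h3
    have h6 : ∫ y in (0 : ℝ)..(N * k), m' i y * m' i y ≤ ∫ y in (0 : ℝ)..(N * k),
        h * ∫ x in (i * h)..((i + 1 : ℕ) * h), φy x y * φy x y := by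
      refine intervalIntegral.integral_mono_on hNk (((cm' i).mul (cm' i)).intervalIntegrable _ _)
        ((continuous_const.mul (hpar _ _ _ (hsq φy cy))).intervalIntegrable _ _) ?_
      intro y _
      have h7 : (i : ℝ) * h ≤ ((i + 1 : ℕ) : ℝ) * h := by
        push_cast
        nlinarith
      have h8 := cs_int (u := fun x => φy x y) (cy.comp (Continuous.prodMk_left y)) h7
      have h9 : ((i + 1 : ℕ) : ℝ) * h - (i : ℝ) * h = h := by
        push_cast
        ring
      rw [h9] at h8
      calc m' i y * m' i y = (m' i y) ^ 2 := (sq _).symm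
        _ ≤ _ := h8
    rw [intervalIntegral.integral_const_mul] at h6
    have h10 : ∫ y in (0 : ℝ)..(N * k), (m i y) ^ 2 / h =
        (∫ y in (0 : ℝ)..(N * k), m i y * m i y) / h := by
      rw [← intervalIntegral.integral_div]
      congr 1
      funext y
      rw [sq]
    rw [h10, div_le_iff₀ hh]
    refine h3.trans ?_
    calc k ^ 2 * ∫ y in (0 : ℝ)..(N * k), m' i y * m' i y
        ≤ k ^ 2 * (h * ∫ y in (0 : ℝ)..(N * k),
          ∫ x in (i * h)..((i + 1 : ℕ) * h), φy x y * φy x y) :=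
          mul_le_mul_of_nonneg_left h6 (by positivity)
      _ = _ := by ring
  have h3 := Finset.sum_le_sum h2
  rw [← Finset.mul_sum, ← intervalIntegral.integral_finsetSum
    (f := fun (i : ℕ) y => ∫ x in (i * h)..((i + 1 : ℕ) * h), φy x y * φy x y)
    (fun i _ => (hpar _ _ _ (hsq φy cy)).intervalIntegrable _ _)] at h3
  have h4 : ∀ y, ∑ i ∈ Finset.range N, ∫ x in ((i : ℕ) * h)..((i + 1 : ℕ) * h), φy x y * φy x y =
      ∫ x in (0 : ℝ)..(N * h), φy x y * φy x y := by
    intro y
    have cc : Continuous fun x => φy x y := cy.comp (Continuous.prodMk_left y)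
    have e1 := intervalIntegral.sum_integral_adjacent_intervals (μ := volume)
      (f := fun t => φy t y * φy t y) (a := fun k : ℕ => (k : ℝ) * h) (n := N)
      (fun k _ => (cc.mul cc).intervalIntegrable _ _)
    simp only [Nat.cast_zero, zero_mul] at e1
    exact e1
  simp only [h4] at h3
  linarith

theorem cell_cont {h : ℝ} {u : ℝ × ℝ → ℝ} (hu : Continuous u) (i : ℕ) :
    Continuous fun y => ∫ x in (i * h)..((i + 1 : ℕ) * h), u (x, y) :=
  par_cont (F := fun y x => u (x, y)) (hu.comp continuous_swap) _ _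

theorem cell_add {h k : ℝ} {u v : ℝ × ℝ → ℝ} (hu : Continuous u) (hv : Continuous v) (i j : ℕ) :
    cell h k (u + v) i j = cell h k u i j + cell h k v i j := by
  unfold cell
  rw [← int_add (cell_cont hu i) (cell_cont hv i)]
  congr 1
  funext y
  have c1 : Continuous fun x => u (x, y) := hu.comp (Continuous.prodMk_left y)
  have c2 : Continuous fun x => v (x, y) := hv.comp (Continuous.prodMk_left y)
  exact int_add c1 c2 _ _

theorem cell_smul {h k : ℝ} {u : ℝ × ℝ → ℝ} (r : ℝ) (i j : ℕ) :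
    cell h k (r • u) i j = r * cell h k u i j := by
  unfold cell
  rw [← intervalIntegral.integral_const_mul]
  congr 1
  funext y
  rw [← intervalIntegral.integral_const_mul]
  rfl

theorem stFin : StFin := by
  intro f g hf hg L lam hL hlam
  have h2π : 0 < 2 * π := by positivity
  obtain ⟨Mf, hMf⟩ := (isCompact_Icc (a := (0 : ℝ)) (b := L)).exists_bound_of_continuousOn
    hf.continuousOn
  obtain ⟨Mg, hMg⟩ := (isCompact_Icc (a := (0 : ℝ)) (b := 2 * π)).exists_bound_of_continuousOn
    hg.continuousOn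
  have hMf0 : 0 ≤ Mf := (norm_nonneg _).trans (hMf 0 ⟨le_refl _, hL.le⟩)
  have hMg0 : 0 ≤ Mg := (norm_nonneg _).trans (hMg 0 ⟨le_refl _, h2π.le⟩)
  set Q := lam * (Mf + Mg) with hQ
  have hQ0 : 0 ≤ Q := by positivity
  set D := L + 2 * π with hD
  obtain ⟨N, hN⟩ := exists_nat_gt (D * Real.sqrt (Q + 1))
  have hN0 : 0 < (N : ℝ) := lt_of_le_of_lt (by positivity) hN
  have hN' : 0 < N := by exact_mod_cast hN0
  have hkey : D ^ 2 * Q < N ^ 2 := by
    have h1 : (D * Real.sqrt (Q + 1)) ^ 2 < (N : ℝ) ^ 2 :=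
      pow_lt_pow_left₀ hN (by positivity) (by norm_num)
    rw [mul_pow, Real.sq_sqrt (by positivity)] at h1
    nlinarith [sq_nonneg D]
  set h := L / N with hh
  set k := 2 * π / N with hk
  have hh0 : 0 < h := by positivity
  have hk0 : 0 < k := by positivity
  have hNh : N * h = L := by rw [hh]; field_simp
  have hNk : N * k = 2 * π := by rw [hk]; field_simp
  let T : W hf hg L lam →ₗ[ℝ] (Fin N × Fin N → ℝ) :=
    { toFun := fun u p => cell h k u.1 p.1 p.2
      map_add' := fun u v => by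
        funext p
        exact cell_add (W_cont u.2) (W_cont v.2) _ _
      map_smul' := fun r u => by
        funext p
        exact cell_smul r _ _ }
  refine Module.Finite.of_injective T ?_
  rw [← LinearMap.ker_eq_bot, LinearMap.ker_eq_bot']
  intro u hu
  have hz : ∀ i < N, ∀ j < N, cell h k u.1 i j = 0 := fun i hi j hj =>
    congrFun hu (⟨i, hi⟩, ⟨j, hj⟩)
  obtain ⟨h1, φx, φxx, φy, φyy, h2⟩ := u.2
  set φ : ℝ → ℝ → ℝ := fun x y => u.1 (x, y) with hφ
  have hun : uncurry φ = u.1 := rfl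
  have h3 := poinc2 (φ := φ) h2.s.c h2.s.cx h2.s.cy h2.s.dx h2.s.dy hh0 hk0 N
    (by rw [hun]; exact hz)
  rw [hNh, hNk] at h3
  have hpar : ∀ (ψ : ℝ → ℝ → ℝ) (a b : ℝ), Continuous (uncurry ψ) →
      Continuous fun y => ∫ x in a..b, ψ x y := fun ψ a b hψ =>
    par_cont (F := fun y x => ψ x y) (hψ.comp continuous_swap) a b
  have ex : ∀ y, ∫ x in (0 : ℝ)..L, φx x y * φx x y = -∫ x in (0 : ℝ)..L, φxx x y * φ x y :=
    fun y => dirich (u := fun t => φ t y) (u' := fun t => φx t y) (u'' := fun t => φxx t y)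
      (fun t => h2.s.dx t y) (fun t => h2.s.dxx t y) (h2.s.cxx.comp (Continuous.prodMk_left y))
      (by have := h2.px 0 y; rwa [zero_add] at this) (by have := h2.px1 0 y; rwa [zero_add] at this)
  have ey : ∀ x, ∫ y in (0 : ℝ)..(2 * π), φy x y * φy x y =
      -∫ y in (0 : ℝ)..(2 * π), φyy x y * φ x y :=
    fun x => dirich (u := fun t => φ x t) (u' := fun t => φy x t) (u'' := fun t => φyy x t)
      (fun t => h2.s.dy x t) (fun t => h2.s.dyy x t) (h2.s.cyy.comp (Continuous.prodMk_right x))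
      (by have := h2.py x 0; rwa [zero_add] at this) (by have := h2.py2 x 0; rwa [zero_add] at this)
  have k1 : (∫ y in (0 : ℝ)..(2 * π), ∫ x in (0 : ℝ)..L, φx x y * φx x y) =
      -∫ y in (0 : ℝ)..(2 * π), ∫ x in (0 : ℝ)..L, φxx x y * φ x y := by
    simp only [ex]
    rw [intervalIntegral.integral_neg]
  have k2 : (∫ y in (0 : ℝ)..(2 * π), ∫ x in (0 : ℝ)..L, φy x y * φy x y) =
      -∫ y in (0 : ℝ)..(2 * π), ∫ x in (0 : ℝ)..L, φyy x y * φ x y := by
    rw [← swap (F := fun x y => φy x y * φy x y) (h2.s.cy.mul h2.s.cy)]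
    simp only [ey]
    rw [intervalIntegral.integral_neg, swap (F := fun x y => φyy x y * φ x y)
      (h2.s.cyy.mul h2.s.c)]
  set E := ∫ y in (0 : ℝ)..(2 * π), ∫ x in (0 : ℝ)..L, φ x y * φ x y with hE
  set Ex := ∫ y in (0 : ℝ)..(2 * π), ∫ x in (0 : ℝ)..L, φx x y * φx x y with hEx
  set Ey := ∫ y in (0 : ℝ)..(2 * π), ∫ x in (0 : ℝ)..L, φy x y * φy x y with hEy
  have hE0 : 0 ≤ E := intervalIntegral.integral_nonneg h2π.le fun y _ =>
    intervalIntegral.integral_nonneg hL.le fun x _ => mul_self_nonneg _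
  have hEx0 : 0 ≤ Ex := intervalIntegral.integral_nonneg h2π.le fun y _ =>
    intervalIntegral.integral_nonneg hL.le fun x _ => mul_self_nonneg _
  have hEy0 : 0 ≤ Ey := intervalIntegral.integral_nonneg h2π.le fun y _ =>
    intervalIntegral.integral_nonneg hL.le fun x _ => mul_self_nonneg _
  have k3 : Ex + Ey ≤ Q * E := by
    have c1 : Continuous fun y => ∫ x in (0 : ℝ)..L, φxx x y * φ x y :=
      hpar _ _ _ (h2.s.cxx.mul h2.s.c)
    have c2 : Continuous fun y => ∫ x in (0 : ℝ)..L, φyy x y * φ x y :=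
      hpar _ _ _ (h2.s.cyy.mul h2.s.c)
    have c3 : Continuous fun y => -∫ x in (0 : ℝ)..L, φxx x y * φ x y := c1.neg
    have c4 : Continuous fun y => -∫ x in (0 : ℝ)..L, φyy x y * φ x y := c2.neg
    have c5 : Continuous fun y => (-∫ x in (0 : ℝ)..L, φxx x y * φ x y) +
      -∫ x in (0 : ℝ)..L, φyy x y * φ x y := c3.add c4
    have c6 : Continuous fun y => Q * ∫ x in (0 : ℝ)..L, φ x y * φ x y :=
      continuous_const.mul (hpar _ _ _ (h2.s.c.mul h2.s.c))
    rw [k1, k2, ← intervalIntegral.integral_neg, ← intervalIntegral.integral_neg,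
      ← int_add c3 c4, hE, ← intervalIntegral.integral_const_mul]
    refine intervalIntegral.integral_mono_on h2π.le (c5.intervalIntegrable _ _)
      (c6.intervalIntegrable _ _) ?_
    intro y hy
    have d0 : Continuous fun x => φ x y := h2.s.c.comp (Continuous.prodMk_left y)
    have d1 : Continuous fun x => φxx x y := h2.s.cxx.comp (Continuous.prodMk_left y)
    have d2 : Continuous fun x => φyy x y := h2.s.cyy.comp (Continuous.prodMk_left y)
    have d3 : Continuous fun x => -(φxx x y * φ x y) := (d1.mul d0).neg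
    have d4 : Continuous fun x => -(φyy x y * φ x y) := (d2.mul d0).neg
    have d5 : Continuous fun x => -(φxx x y * φ x y) + -(φyy x y * φ x y) := d3.add d4
    have d6 : Continuous fun x => Q * (φ x y * φ x y) := continuous_const.mul (d0.mul d0)
    rw [← intervalIntegral.integral_neg, ← intervalIntegral.integral_neg,
      ← int_add d3 d4, ← intervalIntegral.integral_const_mul]
    refine intervalIntegral.integral_mono_on hL.le (d5.intervalIntegrable _ _)
      (d6.intervalIntegrable _ _) ?_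
    intro x hx
    have e1 := h2.s.pde x y
    have e2 : -(φxx x y * φ x y) + -(φyy x y * φ x y) = lam * (f x + g y) * (φ x y * φ x y) := by
      have : φxx x y = -(lam * (f x + g y) * φ x y) - φyy x y := by linarith
      rw [this]
      ring
    have e3 : f x + g y ≤ Mf + Mg := add_le_add ((le_abs_self _).trans (hMf x hx))
      ((le_abs_self _).trans (hMg y hy))
    calc -(φxx x y * φ x y) + -(φyy x y * φ x y) = lam * (f x + g y) * (φ x y * φ x y) := e2
      _ ≤ Q * (φ x y * φ x y) := by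
        rw [hQ]
        exact mul_le_mul_of_nonneg_right (mul_le_mul_of_nonneg_left e3 hlam.le)
          (mul_self_nonneg _)
  have hE1 : E = 0 := by
    by_contra hne
    have hpos : 0 < E := lt_of_le_of_ne hE0 (Ne.symm hne)
    have e1 : h ^ 2 ≤ D ^ 2 / N ^ 2 := by
      rw [hh, div_pow]
      have : L ≤ D := by rw [hD]; linarith
      gcongr
    have e2 : k ^ 2 ≤ D ^ 2 / N ^ 2 := by
      rw [hk, div_pow]
      have : 2 * π ≤ D := by rw [hD]; linarith
      gcongr
    have e3 : E ≤ D ^ 2 / N ^ 2 * (Q * E) := by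
      calc E ≤ h ^ 2 * Ex + k ^ 2 * Ey := h3
        _ ≤ D ^ 2 / N ^ 2 * Ex + D ^ 2 / N ^ 2 * Ey :=
          add_le_add (mul_le_mul_of_nonneg_right e1 hEx0) (mul_le_mul_of_nonneg_right e2 hEy0)
        _ = D ^ 2 / N ^ 2 * (Ex + Ey) := by ring
        _ ≤ _ := mul_le_mul_of_nonneg_left k3 (by positivity)
    have e4 : D ^ 2 / N ^ 2 * (Q * E) = (D ^ 2 * Q) / N ^ 2 * E := by ring
    rw [e4] at e3
    have e5 : (D ^ 2 * Q) / N ^ 2 < 1 := by
      rw [div_lt_one (by positivity)]
      exact hkey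
    nlinarith
  have hu0 : u.1 = 0 := ip_self_zero hL u.2 hE1
  exact Subtype.ext hu0

end Pool.Agent.N273.LT
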