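import Pool.Agent.N273.LT.Sc

/-!
# Sign changes in moving windows
-/

set_option autoImplicit false

open MeasureTheory Set Filter Topology

namespace Pool.Agent.N273.LT

theorem sc_meas1 {u : ℝ → ℝ} (hu : Continuous u) (hB : Bd u) {α β : ℝ} (h : α < β) :
    Measurable fun y : ℝ => (sc u (y + α) (y + β) : ENNReal) := by
  have h1 : Measurable fun y : ℝ => sc u (y + α) (y + β) :=
    sc_meas (Φ := fun _ : ℝ => u) (hu.comp continuous_snd) (fun _ => hB)
      (continuous_id.add continuous_const) (continuous_id.add continuous_const)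
      (fun y => by simpa using h)
  exact (measurable_of_countable (fun n : ℕ => (n : ENNReal))).comp h1

theorem win_int {u : ℝ → ℝ} (hu : Continuous u) (hB : Bd u) {w : ℝ} (hw : 0 < w) (a : ℝ) (n : ℕ) :
    ∫⁻ y in Ico a (a + 2 * w * n), (sc u (y + -w) (y + w) : ENNReal) ≤
      ∫⁻ y in Ico a (a + 2 * w), (sc u (y + -w) (y + (-w + 2 * w * n)) : ENNReal) := by
  induction n with
  | zero => simp
  | succ n ih =>
    have hn : (0 : ℝ) ≤ n := Nat.cast_nonneg n
    have h2w : 0 < 2 * w := by linarith
    have e1 : Ico a (a + 2 * w * ((n + 1 : ℕ) : ℝ)) = Ico a (a + 2 * w * n) ∪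
        Ico (a + 2 * w * n) (a + 2 * w * n + 2 * w) := by
      rw [Ico_union_Ico_eq_Ico (by nlinarith) (by linarith)]
      congr 1
      push_cast
      ring
    have hdis : Disjoint (Ico a (a + 2 * w * n)) (Ico (a + 2 * w * n) (a + 2 * w * n + 2 * w)) := by
      rw [Set.disjoint_left]
      rintro x ⟨-, h1⟩ ⟨h2, -⟩
      exact absurd h1 (not_lt.2 h2)
    rw [e1, lintegral_union measurableSet_Ico hdis]
    have e2 : ∫⁻ y in Ico (a + 2 * w * n) (a + 2 * w * n + 2 * w), (sc u (y + -w) (y + w) : ENNReal) =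
        ∫⁻ y in Ico a (a + 2 * w), (sc u (y + (2 * w * n + -w)) (y + (2 * w * n + w)) : ENNReal) := by
      rw [← lintegral_indicator measurableSet_Ico, ← lintegral_indicator measurableSet_Ico,
        ← lintegral_add_right_eq_self _ (2 * w * n)]
      congr 1
      funext y
      by_cases hy : y ∈ Ico a (a + 2 * w)
      · have hy' : y + 2 * w * n ∈ Ico (a + 2 * w * n) (a + 2 * w * n + 2 * w) :=
          ⟨by linarith [hy.1], by linarith [hy.2]⟩
        rw [indicator_of_mem hy, indicator_of_mem hy', add_assoc, add_assoc]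
      · have hy' : y + 2 * w * n ∉ Ico (a + 2 * w * n) (a + 2 * w * n + 2 * w) := fun h =>
          hy ⟨by linarith [h.1], by linarith [h.2]⟩
        rw [indicator_of_notMem hy, indicator_of_notMem hy']
    rw [e2]
    refine (add_le_add ih le_rfl).trans ?_
    rw [← lintegral_add_right _ (sc_meas1 hu hB (by linarith))]
    refine lintegral_mono fun y => ?_
    rcases Nat.eq_zero_or_pos n with rfl | hn1
    · simp only [Nat.cast_zero, mul_zero, add_zero, zero_add, Nat.cast_one, mul_one]
      have h1 : {m : ℕ | Alt u (Ioo (y + -w) (y + -w)) m} = ∅ := by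
        ext m
        simp only [mem_ofPred_eq, mem_empty_iff_false, iff_false]
        rintro ⟨t, -, ht, -⟩
        have := ht 0 (Nat.zero_le _)
        exact absurd (this.1.trans this.2) (lt_irrefl _)
      have h2 : sc u (y + -w) (y + -w) = 0 := by
        unfold sc
        rw [h1, csSup_empty]
        rfl
      rw [h2]
      have h3 : -w + 2 * w = w := by ring
      rw [h3]
      simp
    · have hn1' : (1 : ℝ) ≤ n := by exact_mod_cast hn1
      have h3 := sc_add hB (a := y + -w) (b := y + (-w + 2 * w * n)) (c := y + (2 * w * n + -w))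
        (d := y + (2 * w * n + w)) (by nlinarith) (by linarith) (by linarith)
      have h4 : y + (-w + 2 * w * ((n + 1 : ℕ) : ℝ)) = y + (2 * w * n + w) := by
        push_cast
        ring
      rw [h4, ← Nat.cast_add]
      exact Nat.mono_cast h3

/-- The integral of the number of sign changes in a moving window. -/
theorem win_bound {u : ℝ → ℝ} (hu : Continuous u) (hB : Bd u) {w a b M : ℝ} (hw : 0 < w)
    (hab : a ≤ b) (hM : 0 ≤ M)
    (h : ∀ s (n : ℕ), Alt u (Ioo s (s + (b - a + 4 * w))) n → (n : ℝ) ≤ M) :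
    ∫⁻ y in Icc a b, (sc u (y + -w) (y + w) : ENNReal) ≤ ENNReal.ofReal (2 * w * M) := by
  set n := ⌊(b - a) / (2 * w)⌋₊ + 1 with hn
  have h2w : 0 < 2 * w := by linarith
  have h1 : b - a < 2 * w * n := by
    have := Nat.lt_floor_add_one ((b - a) / (2 * w))
    rw [div_lt_iff₀ h2w] at this
    rw [hn]
    push_cast
    linarith
  have h2 : 2 * w * n ≤ b - a + 2 * w := by
    have := Nat.floor_le (show 0 ≤ (b - a) / (2 * w) by
      have : 0 ≤ b - a := by linarith
      positivity)
    rw [le_div_iff₀ h2w] at this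
    rw [hn]
    push_cast
    linarith
  have h3 : Icc a b ⊆ Ico a (a + 2 * w * n) := fun y hy => ⟨hy.1, by linarith [hy.2]⟩
  refine (lintegral_mono_set h3).trans ((win_int hu hB hw a n).trans ?_)
  have h4 : ∀ y, (sc u (y + -w) (y + (-w + 2 * w * n)) : ENNReal) ≤ ENNReal.ofReal M := by
    intro y
    have h5 : (sc u (y + -w) (y + (-w + 2 * w * n)) : ℝ) ≤ M := by
      refine sc_le hB hM fun m hm => h (y + -w) m (hm.subset (Ioo_subset_Ioo_right ?_))
      linarith
    rw [← ENNReal.ofReal_natCast]
    exact ENNReal.ofReal_le_ofReal h5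
  refine (lintegral_mono h4).trans ?_
  rw [lintegral_const, Measure.restrict_apply_univ, Real.volume_Ico, mul_comm,
    ← ENNReal.ofReal_mul (by linarith)]
  refine ENNReal.ofReal_le_ofReal (le_of_eq ?_)
  ring

end Pool.Agent.N273.LT
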