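import Pool.Agent.N273.LT.St3
import Pool.Agent.N273.LT.Fn
import Pool.Agent.N273.LT.Win
import Pool.Agent.R220.LV.Main

/-!
# Sturm's bound for eigenfunctions on Liouville tori
-/

set_option autoImplicit false

open MeasureTheory Set Filter Topology

namespace Pool.Agent.N273.LT

open Pool.Agent.R220.LV (W SP Aop W_cont decomp joint_deriv mu_le mu_ge)
open Pool.Agent.Y291.DB (dl dl_pos dl_le dl_sq)

variable {f g : ℝ → ℝ} {L lam : ℝ}

/-- The constant. -/
noncomputable def KK (F G : ℝ) : ℝ := Real.sqrt (2 * (F + G) + 1)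

theorem KK_pos {F G : ℝ} (hF : 0 ≤ F) (hG : 0 ≤ G) : 0 < KK F G :=
  Real.sqrt_pos.2 (by linarith)

theorem ell_le (hlam : 0 < lam) {F G : ℝ} (hF : 0 ≤ F) (hG : 0 ≤ G) :
    (dl lam / KK F G) ^ 2 * (2 * lam * (F + G)) ≤ 1 / 4 := by
  have h1 := dl_sq hlam
  have h2 : KK F G ^ 2 = 2 * (F + G) + 1 := Real.sq_sqrt (by linarith)
  have h3 : dl lam ^ 2 = 1 / (4 * (1 + lam)) := by
    have h4 : (1 : ℝ) / (1 + lam) = 4 * (1 / (4 * (1 + lam))) := by
      field_simp
    linarith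
  rw [div_pow, h2, h3, div_div, div_mul_eq_mul_div, one_mul,
    div_le_div_iff₀ (by positivity) (by norm_num)]
  nlinarith [mul_nonneg hlam.le (add_nonneg hF hG)]

theorem st_y (hf : Continuous f) (hg : Continuous g) (hL : 0 < L)
    (hgp : ∀ y, g (y + 2 * Real.pi) = g y) {φ : ℝ × ℝ → ℝ} (hφ : φ ∈ W hf hg L lam)
    (hlam : 0 < lam) {F G : ℝ} (hF : ∀ x, |f x| ≤ F) (hG : ∀ y, |g y| ≤ G) (x s : ℝ) (k : ℕ)
    (hk : 0 < k) (M : ℕ) (h : Alt (fun y => φ (x, y)) (Ico s (s + k * (2 * Real.pi))) M) :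
    (M : ℝ) * (dl lam / KK F G) ≤ 2 * (k * (2 * Real.pi)) := by
  have hF0 : 0 ≤ F := (abs_nonneg _).trans (hF 0)
  have hG0 : 0 ≤ G := (abs_nonneg _).trans (hG 0)
  have hk' : (0 : ℝ) < k := by exact_mod_cast hk
  have := stFin f g hf hg L lam hL hlam
  obtain ⟨μ, e, h1, h2, h3, h4⟩ := decomp (lam := lam) hf hg hL
  obtain ⟨c, hc⟩ := h4 φ hφ
  have hSP : ∀ i, ∃ φx φxx φy φyy : ℝ → ℝ → ℝ,
      SP f g L lam (fun x y => e i (x, y)) φx φxx φy φyy := fun i => (h1 i).2
  choose φx φxx φy φyy hSP using hSP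
  have hφe : ∀ y, φ (x, y) = ∑ i, c i * e i (x, y) := by
    intro y
    rw [hc]
    simp [Finset.sum_apply]
  refine stSturm (Module.finrank ℝ (W hf hg L lam)) (k * (2 * Real.pi)) (2 * lam * (F + G))
    (dl lam / KK F G) (fun y => lam * g y) (fun i => -μ i) (fun i y => c i * e i (x, y))
    (fun i y => c i * φy i x y) (by positivity)
    (div_pos (dl_pos hlam) (KK_pos hF0 hG0)) (ell_le hlam hF0 hG0)
    (continuous_const.mul hg) ?_ ?_ ?_ ?_ ?_ s M ?_
  · intro y
    have h5 : Function.Periodic g (2 * Real.pi) := hgp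
    have h6 := (h5.nat_mul k) y
    rw [h6]
  · intro i y
    have a1 := mu_le hL (h1 i) (h2 i) (h3 i) hlam (M := F) (fun x => (le_abs_self _).trans (hF x))
    have a2 := mu_ge hL (h1 i) (h2 i) (h3 i) hlam (M := G) (fun y => (le_abs_self _).trans (hG y))
    have a3 := abs_le.1 (hG y)
    have a4 : lam * g y ≤ lam * G := mul_le_mul_of_nonneg_left a3.2 hlam.le
    have a5 : lam * (-G) ≤ lam * g y := mul_le_mul_of_nonneg_left a3.1 hlam.le
    have a6 : 0 ≤ lam * F := by positivity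
    have a7 : 0 ≤ lam * G := by positivity
    rw [abs_le]
    constructor <;> nlinarith
  · intro i y
    exact ((hSP i).s.dy x y).const_mul (c i)
  · intro i y
    have h5 := ((hSP i).s.dyy x y).const_mul (c i)
    refine h5.congr_deriv ?_
    rw [(joint_deriv (hSP i) (h3 i) x y).2]
    ring
  · intro i y
    have h5 : Function.Periodic (fun y => e i (x, y)) (2 * Real.pi) := fun y => (hSP i).py x y
    have h6 := (h5.nat_mul k) y
    rw [h6]
  · exact h.congr fun y _ => hφe y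

theorem st_x (hf : Continuous f) (hg : Continuous g) (hL : 0 < L)
    (hfL : ∀ x, f (x + L) = f x) {φ : ℝ × ℝ → ℝ} (hφ : φ ∈ W hf hg L lam)
    (hlam : 0 < lam) {F G : ℝ} (hF : ∀ x, |f x| ≤ F) (hG : ∀ y, |g y| ≤ G) (y s : ℝ) (k : ℕ)
    (hk : 0 < k) (M : ℕ) (h : Alt (fun x => φ (x, y)) (Ico s (s + k * L)) M) :
    (M : ℝ) * (dl lam / KK F G) ≤ 2 * (k * L) := by
  have hF0 : 0 ≤ F := (abs_nonneg _).trans (hF 0)
  have hG0 : 0 ≤ G := (abs_nonneg _).trans (hG 0)
  have hk' : (0 : ℝ) < k := by exact_mod_cast hk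
  have := stFin f g hf hg L lam hL hlam
  obtain ⟨μ, e, h1, h2, h3, h4⟩ := decomp (lam := lam) hf hg hL
  obtain ⟨c, hc⟩ := h4 φ hφ
  have hSP : ∀ i, ∃ φx φxx φy φyy : ℝ → ℝ → ℝ,
      SP f g L lam (fun x y => e i (x, y)) φx φxx φy φyy := fun i => (h1 i).2
  choose φx φxx φy φyy hSP using hSP
  have hφe : ∀ x, φ (x, y) = ∑ i, c i * e i (x, y) := by
    intro x
    rw [hc]
    simp [Finset.sum_apply]
  refine stSturm (Module.finrank ℝ (W hf hg L lam)) (k * L) (2 * lam * (F + G))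
    (dl lam / KK F G) (fun x => lam * f x) μ (fun i x => c i * e i (x, y))
    (fun i x => c i * φx i x y) (by positivity)
    (div_pos (dl_pos hlam) (KK_pos hF0 hG0)) (ell_le hlam hF0 hG0)
    (continuous_const.mul hf) ?_ ?_ ?_ ?_ ?_ s M ?_
  · intro x
    have h5 : Function.Periodic f L := hfL
    have h6 := (h5.nat_mul k) x
    rw [h6]
  · intro i x
    have a1 := mu_le hL (h1 i) (h2 i) (h3 i) hlam (M := F) (fun x => (le_abs_self _).trans (hF x))
    have a2 := mu_ge hL (h1 i) (h2 i) (h3 i) hlam (M := G) (fun y => (le_abs_self _).trans (hG y))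
    have a3 := abs_le.1 (hF x)
    have a4 : lam * f x ≤ lam * F := mul_le_mul_of_nonneg_left a3.2 hlam.le
    have a5 : lam * (-F) ≤ lam * f x := mul_le_mul_of_nonneg_left a3.1 hlam.le
    have a6 : 0 ≤ lam * F := by positivity
    have a7 : 0 ≤ lam * G := by positivity
    rw [abs_le]
    constructor <;> nlinarith
  · intro i x
    exact ((hSP i).s.dx x y).const_mul (c i)
  · intro i x
    have h5 := ((hSP i).s.dxx x y).const_mul (c i)
    refine h5.congr_deriv ?_
    rw [(joint_deriv (hSP i) (h3 i) x y).1]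
    ring
  · intro i x
    have h5 : Function.Periodic (fun x => e i (x, y)) L := fun x => (hSP i).px x y
    have h6 := (h5.nat_mul k) x
    rw [h6]
  · exact h.congr fun x _ => hφe x

/-- The constant of periods. -/
noncomputable def per (T R : ℝ) : ℕ := ⌈R / T⌉₊ + 1

theorem per_le {T R : ℝ} (hT : 0 < T) : R ≤ per T R * T := by
  have h1 := Nat.le_ceil (R / T)
  rw [div_le_iff₀ hT] at h1
  unfold per
  push_cast
  nlinarith

/-- The consequences for both families of lines. -/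
theorem sturm_bd (hf : Continuous f) (hg : Continuous g) (hL : 0 < L)
    (hfL : ∀ x, f (x + L) = f x) (hgp : ∀ y, g (y + 2 * Real.pi) = g y) {φ : ℝ × ℝ → ℝ}
    (hφ : φ ∈ W hf hg L lam) (hlam : 0 < lam) {F G : ℝ} (hF : ∀ x, |f x| ≤ F)
    (hG : ∀ y, |g y| ≤ G) :
    (∀ x a b R (n : ℕ), b - a ≤ R → Alt (fun y => φ (x, y)) (Ioo a b) n →
      (n : ℝ) ≤ 2 * (per (2 * Real.pi) R * (2 * Real.pi)) * KK F G / dl lam) ∧
    (∀ y a b R (n : ℕ), b - a ≤ R → Alt (fun x => φ (x, y)) (Ioo a b) n →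
      (n : ℝ) ≤ 2 * (per L R * L) * KK F G / dl lam) := by
  have hF0 : 0 ≤ F := (abs_nonneg _).trans (hF 0)
  have hG0 : 0 ≤ G := (abs_nonneg _).trans (hG 0)
  have hd := dl_pos hlam
  have hK := KK_pos hF0 hG0
  have aux : ∀ (n : ℕ) (B : ℝ), (n : ℝ) * (dl lam / KK F G) ≤ B → (n : ℝ) ≤ B * KK F G / dl lam := by
    intro n B h
    rw [le_div_iff₀ hd]
    have h1 : (n : ℝ) * (dl lam / KK F G) = n * dl lam / KK F G := by ring
    rw [h1, div_le_iff₀ hK] at h
    exact h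
  constructor
  · intro x a b R n hR h
    refine aux n _ (st_y hf hg hL hgp hφ hlam hF hG x a (per (2 * Real.pi) R) (Nat.succ_pos _) n
      (h.subset ?_))
    have h1 := per_le (T := 2 * Real.pi) (R := R) (by positivity)
    exact fun y hy => ⟨hy.1.le, by linarith [hy.2]⟩
  · intro y a b R n hR h
    refine aux n _ (st_x hf hg hL hfL hφ hlam hF hG y a (per L R) (Nat.succ_pos _) n
      (h.subset ?_))
    have h1 := per_le (T := L) (R := R) hL
    exact fun y hy => ⟨hy.1.le, by linarith [hy.2]⟩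

end Pool.Agent.N273.LT
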