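import Pool.Agent.N273.LT.Gr

/-!
# Integrals of the numbers of sign changes over the torus
-/

set_option autoImplicit false

open MeasureTheory Set Filter Topology Function

namespace Pool.Agent.N273.LT

open Pool.Agent.R220.LV (W SP W_cont)
open Pool.Agent.Y291.DB (dl dl_pos dl_le dl_sq)

theorem bd_of {S : ℕ → Prop} {B : ℝ} (h : ∀ n, S n → (n : ℝ) ≤ B) : BddAbove {n : ℕ | S n} :=
  ⟨⌊B⌋₊, fun n hn => Nat.le_floor (h n hn)⟩

theorem ub_of {f g : ℝ → ℝ} {L lam : ℝ} (hf : Continuous f) (hg : Continuous g) (hL : 0 < L)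
    (hfL : ∀ x, f (x + L) = f x) (hgp : ∀ y, g (y + 2 * Real.pi) = g y) {φ : ℝ × ℝ → ℝ}
    (hφ : φ ∈ W hf hg L lam) (hlam : 0 < lam) {F G : ℝ} (hF : ∀ x, |f x| ≤ F)
    (hG : ∀ y, |g y| ≤ G) : UB (fun x y => φ (x, y)) := by
  have hF0 : 0 ≤ F := (abs_nonneg _).trans (hF 0)
  have hG0 : 0 ≤ G := (abs_nonneg _).trans (hG 0)
  have hd := dl_pos hlam
  have hK := KK_pos hF0 hG0
  obtain ⟨h1, h2⟩ := sturm_bd hf hg hL hfL hgp hφ hlam hF hG
  have b1 : ∀ x, Bd (fun y => φ (x, y)) := fun x a b => bd_of fun n hn => h1 x a b _ n le_rfl hn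
  have b2 : ∀ y, Bd (fun x => φ (x, y)) := fun y a b => bd_of fun n hn => h2 y a b _ n le_rfl hn
  refine ⟨W_cont hφ, b1, b2, fun w => ?_, fun w => ?_⟩
  · exact ⟨_, fun x y => sc_le (b1 x) (by positivity) fun n hn =>
      h1 x _ _ (2 * w) n (by linarith) hn⟩
  · exact ⟨_, fun x y => sc_le (b2 y) (by positivity) fun n hn =>
      h2 y _ _ (2 * w) n (by linarith) hn⟩

section
variable {φ : ℝ → ℝ → ℝ} (hU : UB φ) {w : ℝ} (hw : 0 < w)
include hU hw

theorem z1_meas : Measurable fun P : ℝ × ℝ => ∫⁻ τ in Icc (-w) w, (n1 φ w (P.1 + τ) P.2 : ENNReal) := by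
  have h1 : Measurable fun q : (ℝ × ℝ) × ℝ => (n1 φ w (q.1.1 + q.2) q.1.2 : ENNReal) :=
    (measurable_of_countable (fun n : ℕ => (n : ENNReal))).comp
      ((hU.m1 hw).comp (by fun_prop : Measurable fun q : (ℝ × ℝ) × ℝ => (q.1.1 + q.2, q.1.2)))
  exact h1.lintegral_prod_right'

theorem z2_meas : Measurable fun P : ℝ × ℝ => ∫⁻ τ in Icc (-w) w, (n2 φ w P.1 (P.2 + τ) : ENNReal) := by
  have h1 : Measurable fun q : (ℝ × ℝ) × ℝ => (n2 φ w q.1.1 (q.1.2 + q.2) : ENNReal) :=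
    (measurable_of_countable (fun n : ℕ => (n : ENNReal))).comp
      ((hU.m2 hw).comp (by fun_prop : Measurable fun q : (ℝ × ℝ) × ℝ => (q.1.1, q.1.2 + q.2)))
  exact h1.lintegral_prod_right'

theorem I1_bound {M a b a' b' : ℝ} (hab : a ≤ b) (hM0 : 0 ≤ M)
    (hM : ∀ x s (n : ℕ), Alt (fun t => φ x t) (Ioo s (s + (b - a + 4 * w))) n → (n : ℝ) ≤ M) :
    ∫⁻ P in (Icc a' b' ×ˢ Icc a b), ∫⁻ τ in Icc (-w) w, (n1 φ w (P.1 + τ) P.2 : ENNReal) ≤
      ENNReal.ofReal (2 * w * M * (2 * w) * (b' - a')) := by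
  rw [Measure.volume_eq_prod, ← Measure.prod_restrict, lintegral_prod _ (z1_meas hU hw).aemeasurable]
  have h1 : ∀ X, ∫⁻ Y in Icc a b, ∫⁻ τ in Icc (-w) w, (n1 φ w (X + τ) Y : ENNReal) ≤
      ENNReal.ofReal (2 * w * M * (2 * w)) := by
    intro X
    have hm : Measurable (uncurry fun (Y τ : ℝ) => (n1 φ w (X + τ) Y : ENNReal)) :=
      (measurable_of_countable (fun n : ℕ => (n : ENNReal))).comp
        ((hU.m1 hw).comp (by fun_prop : Measurable fun q : ℝ × ℝ => (X + q.2, q.1)))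
    rw [lintegral_lintegral_swap hm.aemeasurable]
    have h2 : ∀ τ : ℝ, ∫⁻ Y in Icc a b, (n1 φ w (X + τ) Y : ENNReal) ≤
        ENNReal.ofReal (2 * w * M) := fun τ =>
      win_bound (u := fun t => φ (X + τ) t) (hU.c.comp (Continuous.prodMk_right (X + τ)))
        (hU.b1 _) hw hab hM0 (hM (X + τ))
    refine (lintegral_mono h2).trans ?_
    rw [lintegral_const, Measure.restrict_apply_univ, Real.volume_Icc,
      ← ENNReal.ofReal_mul (by positivity)]
    refine ENNReal.ofReal_le_ofReal (le_of_eq ?_)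
    ring
  refine (lintegral_mono h1).trans ?_
  rw [lintegral_const, Measure.restrict_apply_univ, Real.volume_Icc,
    ← ENNReal.ofReal_mul (by positivity)]

theorem I2_bound {M a b a' b' : ℝ} (hab' : a' ≤ b') (hM0 : 0 ≤ M)
    (hM : ∀ y s (n : ℕ), Alt (fun t => φ t y) (Ioo s (s + (b' - a' + 4 * w))) n → (n : ℝ) ≤ M) :
    ∫⁻ P in (Icc a' b' ×ˢ Icc a b), ∫⁻ τ in Icc (-w) w, (n2 φ w P.1 (P.2 + τ) : ENNReal) ≤
      ENNReal.ofReal (2 * w * M * (2 * w) * (b - a)) := by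
  rw [Measure.volume_eq_prod, ← Measure.prod_restrict,
    lintegral_prod_symm _ (z2_meas hU hw).aemeasurable]
  have h1 : ∀ Y, ∫⁻ X in Icc a' b', ∫⁻ τ in Icc (-w) w, (n2 φ w X (Y + τ) : ENNReal) ≤
      ENNReal.ofReal (2 * w * M * (2 * w)) := by
    intro Y
    have hm : Measurable (uncurry fun (X τ : ℝ) => (n2 φ w X (Y + τ) : ENNReal)) :=
      (measurable_of_countable (fun n : ℕ => (n : ENNReal))).comp
        ((hU.m2 hw).comp (by fun_prop : Measurable fun q : ℝ × ℝ => (q.1, Y + q.2)))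
    rw [lintegral_lintegral_swap hm.aemeasurable]
    have h2 : ∀ τ : ℝ, ∫⁻ X in Icc a' b', (n2 φ w X (Y + τ) : ENNReal) ≤
        ENNReal.ofReal (2 * w * M) := fun τ =>
      win_bound (u := fun t => φ t (Y + τ)) (hU.c.comp (Continuous.prodMk_left (Y + τ)))
        (hU.b2 _) hw hab' hM0 (hM (Y + τ))
    refine (lintegral_mono h2).trans ?_
    rw [lintegral_const, Measure.restrict_apply_univ, Real.volume_Icc,
      ← ENNReal.ofReal_mul (by positivity)]
    refine ENNReal.ofReal_le_ofReal (le_of_eq ?_)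
    ring
  refine (lintegral_mono h1).trans ?_
  rw [lintegral_const, Measure.restrict_apply_univ, Real.volume_Icc,
    ← ENNReal.ofReal_mul (by positivity)]

omit hU in
theorem ofReal_int {m : ℝ → ℕ} (hm : Measurable m) {B : ℝ} (hB : ∀ x, (m x : ℝ) ≤ B) (X : ℝ) :
    ENNReal.ofReal (∫ x in (X - w)..(X + w), (m x : ℝ)) ≤ ∫⁻ τ in Icc (-w) w, (m (X + τ) : ENNReal) := by
  rw [intervalIntegral.integral_of_le (by linarith),
    ofReal_integral_eq_lintegral_ofReal (int_of_bd hm hB measure_Ioc_lt_top.ne)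
      (Filter.Eventually.of_forall fun x => Nat.cast_nonneg _)]
  simp only [ENNReal.ofReal_natCast]
  rw [← lintegral_indicator measurableSet_Ioc, ← lintegral_indicator measurableSet_Icc,
    ← lintegral_add_left_eq_self _ X]
  refine lintegral_mono fun τ => ?_
  by_cases hτ : X + τ ∈ Ioc (X - w) (X + w)
  · have h1 : τ ∈ Icc (-w) w := ⟨by linarith [hτ.1], by linarith [hτ.2]⟩
    rw [indicator_of_mem hτ, indicator_of_mem h1]
  · rw [indicator_of_notMem hτ]
    exact bot_le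

theorem ofReal_zz (X Y : ℝ) : ENNReal.ofReal (zz φ w X Y) ≤
    (∫⁻ τ in Icc (-w) w, (n1 φ w (X + τ) Y : ENNReal)) +
      ∫⁻ τ in Icc (-w) w, (n2 φ w X (Y + τ) : ENNReal) := by
  obtain ⟨B₁, hB₁⟩ := hU.u1 w
  obtain ⟨B₂, hB₂⟩ := hU.u2 w
  have m1 : Measurable fun x => n1 φ w x Y := (hU.m1 hw).comp (measurable_id.prodMk measurable_const)
  have m2 : Measurable fun y => n2 φ w X y := (hU.m2 hw).comp (measurable_const.prodMk measurable_id)
  unfold zz
  exact ENNReal.ofReal_add_le.trans (add_le_add (ofReal_int hw m1 (fun x => hB₁ x Y) X)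
    (ofReal_int hw m2 (fun y => hB₂ X y) Y))

end

end Pool.Agent.N273.LT
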