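import Pool.Agent.N273.LT.Sum2

/-!
# The sum of the doubling indices: conclusion
-/

set_option autoImplicit false

open MeasureTheory Set Filter Topology Function

namespace Pool.Agent.N273.LT

open Pool.Agent.R220.LV (W SP W_cont mem_of_eigen)
open Pool.Agent.Y291.DB

/-- The sum of the doubling indices over a family of discs of bounded multiplicity. -/
theorem sum_bound {f g : ℝ → ℝ} {L : ℝ} (hf : Continuous f) (hg : Continuous g) (hL : 0 < L)
    (hfL : ∀ x, f (x + L) = f x) (hgp : ∀ y, g (y + 2 * Real.pi) = g y)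
    (hpos : ∀ x y, 0 < f x + g y) {C C₁ : ℝ} (hC : 0 < C) (hC1 : 0 < C₁) :
    ∃ a : ℝ, 0 < a ∧ ∀ (lam : ℝ) (φ : ℝ × ℝ → ℝ), Eigen (fun p => f p.1 + g p.2) L 0 lam φ →
      ∀ (ι : Type) [Fintype ι] (c : ι → ℝ × ℝ),
      (∀ q : ℝ × ℝ, ({i | q ∈ disc (fun p => f p.1 + g p.2) L 0 (c i)
        (C / Real.sqrt lam)}.ncard : ℝ) ≤ C₁) →
      ∑ i, max (doubling (fun p => f p.1 + g p.2) L 0 φ (c i) (C / Real.sqrt lam)) 0 ≤
        a * (1 + lam) := by
  classical
  have hπ := Real.pi_pos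
  have hlog : 0 < Real.log 2 := Real.log_pos one_lt_two
  have hρc : Continuous fun p : ℝ × ℝ => f p.1 + g p.2 :=
    (hf.comp continuous_fst).add (hg.comp continuous_snd)
  have hρx : ∀ p : ℝ × ℝ, (fun p : ℝ × ℝ => f p.1 + g p.2) (p.1 + L, p.2 + 0) =
      (fun p : ℝ × ℝ => f p.1 + g p.2) p := fun p => by simp [hfL]
  have hρy : ∀ p : ℝ × ℝ, (fun p : ℝ × ℝ => f p.1 + g p.2) (p.1, p.2 + 2 * Real.pi) =
      (fun p : ℝ × ℝ => f p.1 + g p.2) p := fun p => by simp [hgp]
  obtain ⟨ρm, hρm0, hρm⟩ := bounded_below_of_per hL hρc (fun p => hpos p.1 p.2) hρx hρy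
  obtain ⟨ρM, hρM0', hρM'⟩ := bounded_of_per hL hρc hρx hρy
  have hρM : ∀ p : ℝ × ℝ, f p.1 + g p.2 ≤ ρM := fun p => (le_abs_self _).trans (hρM' p)
  obtain ⟨F, hF0, hF'⟩ := bounded_of_per (L := L) (α := 0) hL (f := fun p : ℝ × ℝ => f p.1)
    (hf.comp continuous_fst) (fun p => by simp [hfL]) (fun p => rfl)
  obtain ⟨G, hG0, hG'⟩ := bounded_of_per (L := L) (α := 0) hL (f := fun p : ℝ × ℝ => g p.2)
    (hg.comp continuous_snd) (fun p => by simp) (fun p => by simp [hgp])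
  have hF : ∀ x, |f x| ≤ F := fun x => hF' (x, 0)
  have hG : ∀ y, |g y| ≤ G := fun y => hG' (0, y)
  -- the constants
  obtain ⟨K, hK, H⟩ := doubling_zz
  set β : ℝ := min 1 (C / (8 * (Real.sqrt ρM + 1))) with hβdef
  have hβ : 0 < β := lt_min one_pos (by positivity)
  have hβ1 : β ≤ 1 := min_le_left _ _
  have hβC : 8 * β * Real.sqrt ρM ≤ C := by
    have h1 : β * (8 * (Real.sqrt ρM + 1)) ≤ C := by
      have := min_le_right 1 (C / (8 * (Real.sqrt ρM + 1)))
      rwa [le_div_iff₀ (by positivity)] at this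
    nlinarith [Real.sqrt_nonneg ρM]
  set A : ℝ := 6 * C / Real.sqrt ρm + 3 * L + 6 * Real.pi with hAdef
  set h : ℝ := min β (1 / (5 * (F + G + 1))) with hhdef
  have hh : 0 < h := lt_min hβ (by positivity)
  have hhβ : h ≤ β := min_le_left _ _
  have hhF : h ≤ 1 / (5 * (F + G + 1)) := min_le_right _ _
  set N : ℕ := ⌈(A + 1) / h⌉₊ with hNdef
  have hN : A + 1 ≤ N * h := by
    have := Nat.le_ceil ((A + 1) / h)
    rwa [div_le_iff₀ hh] at this
  set Aw : ℝ := (N + 2) * h with hAw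
  have hAw0 : 0 < Aw := by positivity
  set R₁ : ℝ := 2 * Real.pi + 2 + 2 * Aw with hR₁
  set R₂ : ℝ := L + 2 + 2 * Aw with hR₂
  set B₁ : ℝ := 2 * (per (2 * Real.pi) R₁ * (2 * Real.pi)) * KK F G with hB₁
  set B₂ : ℝ := 2 * (per L R₂ * L) * KK F G with hB₂
  have hKK := KK_pos hF0 hG0
  have hB₁0 : 0 ≤ B₁ := by positivity
  have hB₂0 : 0 ≤ B₂ := by positivity
  set Tc : ℝ := C₁ * (N * K * ((L + 2) * (2 * Real.pi + 2) +
    (4 * Aw ^ 2 / h) * (B₁ * (L + 2) + B₂ * (2 * Real.pi + 2)))) with hTc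
  have hTc0 : 0 ≤ Tc := by positivity
  refine ⟨Tc / (Real.log 2 * β ^ 2) + 1, by positivity, ?_⟩
  intro lam φ hφ ι _ c hmult
  have hlam := hφ.pos
  have hδ := dl_pos hlam
  have hδle := dl_le hlam
  have hδ2 := dl_sq hlam
  set δ := dl lam with hδdef
  have hmem := mem_of_eigen hf hg hφ
  have hU := ub_of hf hg hL hfL hgp hmem hlam hF hG
  obtain ⟨st1, st2⟩ := sturm_bd hf hg hL hfL hgp hmem hlam hF hG
  set w : ℝ := (N + 2) * (h * δ) with hw
  have hw0 : 0 < w := by positivity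
  have hwA : w = Aw * δ := by rw [hw, hAw]; ring
  -- reduced centers
  have hred : ∀ i, ∃ p : ℝ × ℝ, p.1 ∈ Set.Ico 0 L ∧ p.2 ∈ Set.Ico 0 (2 * Real.pi) ∧
      ∀ q, gdist (fun p : ℝ × ℝ => f p.1 + g p.2) L 0 p q =
        gdist (fun p : ℝ × ℝ => f p.1 + g p.2) L 0 (c i) q := by
    intro i
    obtain ⟨m, n, h1, h2⟩ := reduce hL 0 0 0 (c i)
    rw [zero_add] at h1 h2
    exact ⟨_, h1, h2, fun q => gdist_shift_left (per_all hρx hρy) (c i) q m n⟩
  choose p hp1 hp2 hp3 using hred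
  have hdisc : ∀ i r, disc (fun p : ℝ × ℝ => f p.1 + g p.2) L 0 (p i) r =
      disc (fun p : ℝ × ℝ => f p.1 + g p.2) L 0 (c i) r := by
    intro i r
    unfold disc
    simp only [hp3]
  have hdoub : ∀ i r, doubling (fun p : ℝ × ℝ => f p.1 + g p.2) L 0 φ (p i) r =
      doubling (fun p : ℝ × ℝ => f p.1 + g p.2) L 0 φ (c i) r := by
    intro i r
    unfold doubling
    simp only [hdisc]
  set d : ι → ℝ := fun i =>
    max (doubling (fun p : ℝ × ℝ => f p.1 + g p.2) L 0 φ (c i) (C / Real.sqrt lam)) 0 with hd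
  have hd0 : ∀ i, 0 ≤ d i := fun i => le_max_right _ _
  set Q : ι → Set (ℝ × ℝ) := fun i => Icc ((p i).1 - β * δ) ((p i).1 + β * δ) ×ˢ
    Icc ((p i).2 - β * δ) ((p i).2 + β * δ) with hQ
  have hQm : ∀ i, MeasurableSet (Q i) := fun i => measurableSet_Icc.prod measurableSet_Icc
  set z₁ : ℝ × ℝ → ENNReal := fun P =>
    ∫⁻ τ in Icc (-w) w, (n1 (fun x y => φ (x, y)) w (P.1 + τ) P.2 : ENNReal) with hz₁
  set z₂ : ℝ × ℝ → ENNReal := fun P =>
    ∫⁻ τ in Icc (-w) w, (n2 (fun x y => φ (x, y)) w P.1 (P.2 + τ) : ENNReal) with hz₂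
  have mz₁ : Measurable z₁ := z1_meas hU hw0
  have mz₂ : Measurable z₂ := z2_meas hU hw0
  set E : ℝ × ℝ → ENNReal := fun P => ENNReal.ofReal (N * K) *
    (1 + ENNReal.ofReal (1 / (h * δ)) * (z₁ P + z₂ P)) with hE
  have mE : Measurable E :=
    measurable_const.mul (measurable_const.add (measurable_const.mul (mz₁.add mz₂)))
  have hβδ : β * δ ≤ 1 := by nlinarith
  -- pointwise estimate
  have hpt : ∀ i, ∀ P ∈ Q i, ENNReal.ofReal (d i * Real.log 2) ≤ E P := by
    intro i P hP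
    obtain ⟨hP1, hP2⟩ := hP
    have a1 : |P.1 - (p i).1| ≤ β * δ := abs_le.2 ⟨by linarith [hP1.1], by linarith [hP1.2]⟩
    have a2 : |P.2 - (p i).2| ≤ β * δ := abs_le.2 ⟨by linarith [hP2.1], by linarith [hP2.2]⟩
    rcases le_or_gt (doubling (fun p : ℝ × ℝ => f p.1 + g p.2) L 0 φ (c i) (C / Real.sqrt lam)) 0
      with hneg | hpos'
    · have : d i = 0 := max_eq_right hneg
      rw [this, zero_mul, ENNReal.ofReal_zero]
      exact bot_le
    · have e1 : d i = doubling (fun p : ℝ × ℝ => f p.1 + g p.2) L 0 φ (p i) (C / Real.sqrt lam) := by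
        rw [hdoub]
        exact max_eq_left hpos'.le
      have h1 := H hf hg hL hfL hgp hF hG hρm0 hρm hρM hC hβ hβ1 hβC le_rfl hh hhβ hhF N hN hφ
        (p i) P.1 P.2 a1 a2 (by rw [hdoub]; exact hpos')
      rw [← e1, ← hδdef, ← hw] at h1
      refine (ENNReal.ofReal_le_ofReal h1).trans ?_
      rw [ENNReal.ofReal_mul (by positivity), hE]
      simp only
      gcongr
      refine ENNReal.ofReal_add_le.trans ?_
      rw [ENNReal.ofReal_one, div_eq_mul_one_div, mul_comm, ENNReal.ofReal_mul (by positivity)]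
      gcongr
      exact ofReal_zz hU hw0 P.1 P.2
  -- integration over the boxes
  have hvol : ∀ i, volume (Q i) = ENNReal.ofReal ((2 * β * δ) ^ 2) := by
    intro i
    rw [hQ]
    simp only
    rw [Measure.volume_eq_prod, Measure.prod_prod, Real.volume_Icc, Real.volume_Icc,
      ← ENNReal.ofReal_mul (by nlinarith)]
    congr 1
    ring
  have hbox : ∀ i, ENNReal.ofReal (d i * Real.log 2 * (2 * β * δ) ^ 2) ≤ ∫⁻ P in Q i, E P := by
    intro i
    calc ENNReal.ofReal (d i * Real.log 2 * (2 * β * δ) ^ 2)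
        = ∫⁻ _ in Q i, ENNReal.ofReal (d i * Real.log 2) := by
          rw [setLIntegral_const, hvol, ← ENNReal.ofReal_mul (mul_nonneg (hd0 i) hlog.le)]
      _ ≤ _ := setLIntegral_mono mE fun P hP => hpt i P hP
  set BB : Set (ℝ × ℝ) := Icc (-1) (L + 1) ×ˢ Icc (-1) (2 * Real.pi + 1) with hBB
  have hBBm : MeasurableSet BB := measurableSet_Icc.prod measurableSet_Icc
  have hsum : ∑ i, ∫⁻ P in Q i, E P ≤ ENNReal.ofReal C₁ * ∫⁻ P in BB, E P := by
    have e1 : ∑ i, ∫⁻ P in Q i, E P = ∫⁻ P, ∑ i, (Q i).indicator E P := by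
      rw [lintegral_finsetSum _ fun i _ => mE.indicator (hQm i)]
      refine Finset.sum_congr rfl fun i _ => ?_
      rw [lintegral_indicator (hQm i)]
    rw [e1, ← lintegral_const_mul _ mE, ← lintegral_indicator hBBm]
    refine lintegral_mono fun P => ?_
    have e2 : ∑ i, (Q i).indicator E P = ((Finset.univ.filter fun i => P ∈ Q i).card : ENNReal) * E P := by
      rw [Finset.card_filter]
      push_cast
      rw [Finset.sum_mul]
      refine Finset.sum_congr rfl fun i _ => ?_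
      by_cases hP : P ∈ Q i
      · rw [indicator_of_mem hP, if_pos hP, one_mul]
      · rw [indicator_of_notMem hP, if_neg hP, zero_mul]
    rw [e2]
    rcases (Finset.univ.filter fun i => P ∈ Q i).eq_empty_or_nonempty with h3 | h3
    · rw [h3]
      simp
    · obtain ⟨i, hi⟩ := h3
      rw [Finset.mem_filter] at hi
      obtain ⟨hP1, hP2⟩ := hi.2
      have hPB : P ∈ BB := by
        refine ⟨⟨?_, ?_⟩, ⟨?_, ?_⟩⟩
        · linarith [(hp1 i).1, hP1.1]
        · linarith [(hp1 i).2, hP1.2]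
        · linarith [(hp2 i).1, hP2.1]
        · linarith [(hp2 i).2, hP2.2]
      rw [indicator_of_mem hPB]
      have h5 : ((Finset.univ.filter fun i => P ∈ Q i).card : ℝ) ≤ C₁ := by
        refine le_trans ?_ (hmult P)
        have h6 : ((Finset.univ.filter fun i => P ∈ Q i) : Set ι) ⊆
            {i | P ∈ disc (fun p : ℝ × ℝ => f p.1 + g p.2) L 0 (c i) (C / Real.sqrt lam)} := by
          intro j hj
          rw [Finset.mem_coe, Finset.mem_filter] at hj
          obtain ⟨hj1, hj2⟩ := hj.2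
          show P ∈ disc (fun p : ℝ × ℝ => f p.1 + g p.2) L 0 (c j) (C / Real.sqrt lam)
          rw [← hdisc]
          have h7 : |P.1 - (p j).1| ≤ β * δ := abs_le.2 ⟨by linarith [hj1.1], by linarith [hj1.2]⟩
          have h8 : |P.2 - (p j).2| ≤ β * δ := abs_le.2 ⟨by linarith [hj2.1], by linarith [hj2.2]⟩
          have h9 := box_sub hL hρc hρx hρy hρm0 hρm hρM hC hβ hβ1 hβC le_rfl hlam (p0 := p j)
            (x := P.1) (y := P.2) (by
              rw [← hδdef]
              have : 0 < β * δ := by positivity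
              linarith)
          exact h9
        have h7 := Set.ncard_le_ncard h6 (Set.toFinite _)
        rw [Set.ncard_coe_finset] at h7
        exact_mod_cast h7
      rw [← ENNReal.ofReal_natCast]
      gcongr
  -- the integral over the torus
  have hB₁M : ∀ x s (n : ℕ), Alt (fun t => φ (x, t))
      (Ioo s (s + (2 * Real.pi + 1 - (-1) + 4 * w))) n → (n : ℝ) ≤ B₁ / δ := by
    intro x s n hn
    have h1 := st1 x _ _ R₁ n (by rw [hwA, hR₁]; nlinarith) hn
    rw [← hδdef] at h1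
    exact h1
  have hB₂M : ∀ y s (n : ℕ), Alt (fun t => φ (t, y))
      (Ioo s (s + (L + 1 - (-1) + 4 * w))) n → (n : ℝ) ≤ B₂ / δ := by
    intro y s n hn
    have h1 := st2 y _ _ R₂ n (by rw [hwA, hR₂]; nlinarith) hn
    rw [← hδdef] at h1
    exact h1
  have hI₁ : ∫⁻ P in BB, z₁ P ≤ ENNReal.ofReal (2 * w * (B₁ / δ) * (2 * w) * (L + 1 - (-1))) :=
    I1_bound hU hw0 (by linarith) (by positivity) hB₁M
  have hI₂ : ∫⁻ P in BB, z₂ P ≤
      ENNReal.ofReal (2 * w * (B₂ / δ) * (2 * w) * (2 * Real.pi + 1 - (-1))) :=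
    I2_bound hU hw0 (by linarith) (by positivity) hB₂M
  have l1 : L + 1 - (-1) = L + 2 := by ring
  have l2 : 2 * Real.pi + 1 - (-1) = 2 * Real.pi + 2 := by ring
  rw [l1] at hI₁
  rw [l2] at hI₂
  have hBE : ∫⁻ P in BB, E P ≤ ENNReal.ofReal (N * K * ((L + 2) * (2 * Real.pi + 2) +
      (4 * Aw ^ 2 / h) * (B₁ * (L + 2) + B₂ * (2 * Real.pi + 2)))) := by
    have hvB : ∫⁻ _ in BB, (1 : ENNReal) = ENNReal.ofReal ((L + 2) * (2 * Real.pi + 2)) := by
      rw [setLIntegral_one, hBB, Measure.volume_eq_prod, Measure.prod_prod, Real.volume_Icc,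
        Real.volume_Icc, ← ENNReal.ofReal_mul (by linarith)]
      congr 1
      ring
    have k1 : Measurable fun P => z₁ P + z₂ P := mz₁.add mz₂
    have k2 : Measurable fun P => ENNReal.ofReal (1 / (h * δ)) * (z₁ P + z₂ P) :=
      measurable_const.mul k1
    have k3 : Measurable fun P => 1 + ENNReal.ofReal (1 / (h * δ)) * (z₁ P + z₂ P) :=
      measurable_const.add k2
    have k4 : Measurable fun _ : ℝ × ℝ => (1 : ENNReal) := measurable_const
    rw [hE]
    simp only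
    have e3 : ENNReal.ofReal (N * K * ((L + 2) * (2 * Real.pi + 2) +
        (4 * Aw ^ 2 / h) * (B₁ * (L + 2) + B₂ * (2 * Real.pi + 2)))) =
        ENNReal.ofReal (N * K) * ENNReal.ofReal ((L + 2) * (2 * Real.pi + 2) +
        (4 * Aw ^ 2 / h) * (B₁ * (L + 2) + B₂ * (2 * Real.pi + 2))) :=
      ENNReal.ofReal_mul (by positivity)
    rw [lintegral_const_mul _ k3, lintegral_add_left k4, lintegral_const_mul _ k1,
      lintegral_add_left mz₁, hvB, e3]
    refine mul_le_mul' le_rfl ?_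
    rw [ENNReal.ofReal_add (by positivity) (by positivity)]
    refine add_le_add le_rfl ?_
    refine (mul_le_mul' le_rfl (add_le_add hI₁ hI₂)).trans ?_
    rw [← ENNReal.ofReal_add (by positivity) (by positivity), ← ENNReal.ofReal_mul (by positivity)]
    refine ENNReal.ofReal_le_ofReal (le_of_eq ?_)
    rw [hwA]
    field_simp
    ring
  have hfin : ENNReal.ofReal (∑ i, d i * Real.log 2 * (2 * β * δ) ^ 2) ≤ ENNReal.ofReal Tc := by
    rw [ENNReal.ofReal_sum_of_nonneg fun i _ => mul_nonneg (mul_nonneg (hd0 i) hlog.le) (sq_nonneg _)]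
    refine (Finset.sum_le_sum fun i _ => hbox i).trans (hsum.trans ?_)
    rw [hTc, ENNReal.ofReal_mul hC1.le]
    gcongr
  rw [ENNReal.ofReal_le_ofReal_iff hTc0, ← Finset.sum_mul, ← Finset.sum_mul] at hfin
  have h4 : (∑ i, d i) * (Real.log 2 * β ^ 2) * (1 / (1 + lam)) ≤ Tc := by
    rw [← hδ2]
    calc (∑ i, d i) * (Real.log 2 * β ^ 2) * (4 * δ ^ 2)
        = (∑ i, d i) * Real.log 2 * (2 * β * δ) ^ 2 := by ring
      _ ≤ Tc := hfin
  have h5 : (∑ i, d i) ≤ Tc / (Real.log 2 * β ^ 2) * (1 + lam) := by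
    rw [mul_one_div, div_le_iff₀ (by linarith)] at h4
    rw [div_mul_eq_mul_div, le_div_iff₀ (by positivity)]
    exact h4
  linarith

end Pool.Agent.N273.LT
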