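import Pool.Agent.N273.LT.Sum1
import Pool.Agent.Y291.DB.Count

/-!
# The sum of the doubling indices
-/

set_option autoImplicit false

open MeasureTheory Set Filter Topology Function

namespace Pool.Agent.N273.LT

open Pool.Agent.R220.LV (W SP W_cont mem_of_eigen)
open Pool.Agent.Y291.DB

/-- The doubling index and the growth exponents. -/
theorem doubling_zz : ∃ K : ℝ, 0 < K ∧ ∀ {f g : ℝ → ℝ} {L : ℝ} (_ : Continuous f)
    (_ : Continuous g) (_ : 0 < L) (_ : ∀ x, f (x + L) = f x)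
    (_ : ∀ y, g (y + 2 * Real.pi) = g y) {F G ρm ρM : ℝ} (_ : ∀ x, |f x| ≤ F)
    (_ : ∀ y, |g y| ≤ G) (_ : 0 < ρm) (_ : ∀ p : ℝ × ℝ, ρm ≤ f p.1 + g p.2)
    (_ : ∀ p : ℝ × ℝ, f p.1 + g p.2 ≤ ρM) {C β A h : ℝ} (_ : 0 < C) (_ : 0 < β) (_ : β ≤ 1)
    (_ : 8 * β * Real.sqrt ρM ≤ C) (_ : 6 * C / Real.sqrt ρm + 3 * L + 6 * Real.pi ≤ A)
    (_ : 0 < h) (_ : h ≤ β) (_ : h ≤ 1 / (5 * (F + G + 1))) (N : ℕ) (_ : A + 1 ≤ N * h)
    {lam : ℝ} {φ : ℝ × ℝ → ℝ}
    (_ : Eigen (fun p => f p.1 + g p.2) L 0 lam φ) (p : ℝ × ℝ) (X Y : ℝ),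
    |X - p.1| ≤ β * dl lam → |Y - p.2| ≤ β * dl lam →
    0 < doubling (fun p => f p.1 + g p.2) L 0 φ p (C / Real.sqrt lam) →
    doubling (fun p => f p.1 + g p.2) L 0 φ p (C / Real.sqrt lam) * Real.log 2 ≤
      N * K * (1 + zz (fun x y => φ (x, y)) ((N + 2) * (h * dl lam)) X Y / (h * dl lam)) := by
  obtain ⟨K, hK, H⟩ := chain
  refine ⟨K, hK, ?_⟩
  intro f g L hf hg hL hfL hgp F G ρm ρM hF hG hρ0 hρm hρM C β A h hC hβ hβ1 hβC hA hh hhβ hhF N hN
    lam φ hφ p X Y hX hY ht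
  have hF0 : 0 ≤ F := (abs_nonneg _).trans (hF 0)
  have hG0 : 0 ≤ G := (abs_nonneg _).trans (hG 0)
  have hlam := hφ.pos
  have hδ := dl_pos hlam
  have hδ2 := dl_sq hlam
  set δ := dl lam with hδdef
  have hρc : Continuous fun p : ℝ × ℝ => f p.1 + g p.2 :=
    (hf.comp continuous_fst).add (hg.comp continuous_snd)
  have hρx : ∀ p : ℝ × ℝ, (fun p : ℝ × ℝ => f p.1 + g p.2) (p.1 + L, p.2 + 0) =
      (fun p : ℝ × ℝ => f p.1 + g p.2) p := fun p => by simp [hfL]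
  have hρy : ∀ p : ℝ × ℝ, (fun p : ℝ × ℝ => f p.1 + g p.2) (p.1, p.2 + 2 * Real.pi) =
      (fun p : ℝ × ℝ => f p.1 + g p.2) p := fun p => by simp [hgp]
  have hmem := mem_of_eigen hf hg hφ
  obtain ⟨φx, φxx, φy, φyy, hS⟩ := hmem.2
  have hU := ub_of hf hg hL hfL hgp hmem hlam hF hG
  obtain ⟨B, hB0, hB⟩ := bounded_of_per hL hφ.smooth.continuous hφ.perx hφ.pery
  have hbdd : ∀ s : Set (ℝ × ℝ), BddAbove ((fun q => |φ q|) '' s) := by
    intro s
    refine ⟨B, ?_⟩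
    rintro _ ⟨q, _, rfl⟩
    exact hB q
  set S := sSup ((fun q => |φ q|) '' disc (fun p => f p.1 + g p.2) L 0 p (C / Real.sqrt lam)) with hSd
  set T := sSup ((fun q => |φ q|) '' disc (fun p => f p.1 + g p.2) L 0 p (2 * (C / Real.sqrt lam)))
    with hT
  have hd : doubling (fun p => f p.1 + g p.2) L 0 φ p (C / Real.sqrt lam) =
    Real.logb 2 (T / S) := rfl
  have hS0 : 0 ≤ S := Real.sSup_nonneg (by rintro _ ⟨q, _, rfl⟩; exact abs_nonneg _)
  have hT0 : 0 ≤ T := Real.sSup_nonneg (by rintro _ ⟨q, _, rfl⟩; exact abs_nonneg _)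
  have hTS : 0 < T / S := by
    refine lt_of_le_of_ne (by positivity) fun h0 => ?_
    rw [hd, ← h0, Real.logb_zero] at ht
    exact lt_irrefl _ ht
  have hS1 : 0 < S := by
    refine lt_of_le_of_ne hS0 fun h0 => ?_
    rw [← h0, div_zero] at hTS
    exact lt_irrefl _ hTS
  have hsmall : ∀ v V : ℝ, |v| ≤ V → V ≤ F + G → |(h * δ) ^ 2 * lam * v| ≤ 1 / 100 := by
    intro v V hv hV
    have hV0 : 0 ≤ V := (abs_nonneg _).trans hv
    have h1 : δ ^ 2 * lam ≤ 1 / 4 := by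
      have h2 : δ ^ 2 * (1 + lam) = 1 / 4 := by
        have h3 : 4 * δ ^ 2 * (1 + lam) = 1 := by
          rw [hδ2]
          field_simp
        linarith
      nlinarith [sq_nonneg δ]
    have h2 : h ^ 2 * (F + G) ≤ 1 / 25 := by
      have h3 : h * (5 * (F + G + 1)) ≤ 1 := by
        rwa [le_div_iff₀ (by positivity)] at hhF
      have h4 : (h * (5 * (F + G + 1))) ^ 2 ≤ 1 := by
        rw [sq_le_one_iff_abs_le_one, abs_of_nonneg (by positivity)]
        exact h3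
      have h5 : h ^ 2 * (F + G) * 25 ≤ (h * (5 * (F + G + 1))) ^ 2 := by
        have h6 : (h * (5 * (F + G + 1))) ^ 2 = h ^ 2 * 25 * (F + G + 1) ^ 2 := by ring
        rw [h6]
        have h7 : F + G ≤ (F + G + 1) ^ 2 := by nlinarith
        have h8 : 0 ≤ h ^ 2 * 25 := by positivity
        nlinarith [mul_le_mul_of_nonneg_left h7 h8]
      linarith
    have h3 : (h * δ) ^ 2 * lam * v = (h ^ 2 * v) * (δ ^ 2 * lam) := by ring
    rw [h3, abs_mul, abs_mul, abs_of_nonneg (sq_nonneg h), abs_of_nonneg (by positivity : 0 ≤ δ ^ 2 * lam)]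
    have h4 : h ^ 2 * |v| ≤ 1 / 25 :=
      (mul_le_mul_of_nonneg_left (hv.trans hV) (sq_nonneg h)).trans h2
    calc h ^ 2 * |v| * (δ ^ 2 * lam) ≤ 1 / 25 * (1 / 4) :=
          mul_le_mul h4 h1 (by positivity) (by norm_num)
      _ = 1 / 100 := by norm_num
  have hr : 0 < h * δ := by positivity
  have hN0 : (0 : ℝ) ≤ N := Nat.cast_nonneg _
  have hX' := abs_le.1 hX
  have hY' := abs_le.1 hY
  have hhδ : h * δ ≤ β * δ := mul_le_mul_of_nonneg_right hhβ hδ.le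
  have key := H f g L lam (fun x y => φ (x, y)) φx φxx φy φyy hf hg hS hU (h * δ)
    ((N + 2) * (h * δ)) X Y S N hr
    (fun x => hsmall _ F (hF x) (by linarith)) (fun y => hsmall _ G (hG y) (by linarith)) le_rfl
    (fun x y hx hy => by
      refine le_csSup (hbdd _) ⟨(x, y), ?_, rfl⟩
      refine box_sub hL hρc hρx hρy hρ0 hρm hρM hC hβ hβ1 hβC hA hlam ?_
      have e1 : |x - p.1| ≤ |x - X| + |X - p.1| := abs_sub_le _ _ _
      have e2 : |y - p.2| ≤ |y - Y| + |Y - p.2| := abs_sub_le _ _ _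
      rw [← hδdef]
      have : 0 < β * δ := by positivity
      linarith)
  set Z := zz (fun x y => φ (x, y)) ((N + 2) * (h * δ)) X Y with hZ
  have h1 : T ≤ S * Real.exp (N * (K * (1 + Z / (h * δ)))) := by
    refine Real.sSup_le ?_ (by positivity)
    rintro _ ⟨q, hq, rfl⟩
    obtain ⟨m, n, h2, h3⟩ := double_sub hL hρc hρx hρy hρ0 hρm hρM hC hβ hβ1 hβC hA hlam hq
    rw [← hδdef] at h2 h3
    have hNδ : (A + β) * δ ≤ N * (h * δ) := by
      have : (A + β) * δ ≤ (N * h) * δ := mul_le_mul_of_nonneg_right (by linarith) hδ.le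
      linarith
    have h4 := key (q.1 + m * L) (q.2 + m * 0 + n * (2 * Real.pi))
      (by
        have e1 : |q.1 + m * L - X| ≤ |q.1 + m * L - p.1| + |p.1 - X| := abs_sub_le _ _ _
        rw [abs_sub_comm p.1 X] at e1
        linarith)
      (by
        have e1 : |q.2 + m * 0 + n * (2 * Real.pi) - Y| ≤
          |q.2 + m * 0 + n * (2 * Real.pi) - p.2| + |p.2 - Y| := abs_sub_le _ _ _
        rw [abs_sub_comm p.2 Y] at e1
        linarith)
    rwa [per_all hφ.perx hφ.pery m n q] at h4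
  have h2 : T / S ≤ Real.exp (N * (K * (1 + Z / (h * δ)))) := by
    rw [div_le_iff₀ hS1]
    linarith
  rw [hd, Real.logb, div_mul_cancel₀ _ (Real.log_pos one_lt_two).ne',
    Real.log_le_iff_le_exp hTS]
  refine h2.trans (le_of_eq ?_)
  congr 1
  ring

end Pool.Agent.N273.LT
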