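import Pool.Agent.R220.LV.Wsp
import Pool.Agent.H761R2.SV.Defs

/-!
# Average doubling indices on Liouville tori: definitions and the statements of the modules
-/

set_option autoImplicit false

open MeasureTheory Complex Metric
open scoped ComplexConjugate

namespace Pool.Agent.N273.LT

open Pool.Agent.Y291.PA (Sol2)
open Pool.Agent.R220.LV (W)
open Pool.Agent.H761R2.SV (dbar)

/-- `u` changes sign (at least) `n` times along an increasing sequence of points of `I`. -/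
def Alt (u : ℝ → ℝ) (I : Set ℝ) (n : ℕ) : Prop :=
  ∃ t : ℕ → ℝ, (∀ i < n, t i < t (i + 1)) ∧ (∀ i ≤ n, t i ∈ I) ∧
    ∀ i < n, u (t i) * u (t (i + 1)) < 0

/-- Sturm's upper bound: a sum of `T`-periodic solutions of `w'' = (ν - q) w` changes sign at most
`2 T / ℓ` times in a period, if `|ν - q| ≤ Q` and `ℓ² Q ≤ 1 / 4`. -/
def StSturm : Prop := ∀ (n : ℕ) (T Q ℓ : ℝ) (q : ℝ → ℝ) (ν : Fin n → ℝ) (w w' : Fin n → ℝ → ℝ),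
  0 < T → 0 < ℓ → ℓ ^ 2 * Q ≤ 1 / 4 → Continuous q → (∀ x, q (x + T) = q x) →
  (∀ i x, |ν i - q x| ≤ Q) → (∀ i x, HasDerivAt (w i) (w' i x) x) →
  (∀ i x, HasDerivAt (w' i) ((ν i - q x) * w i x) x) → (∀ i x, w i (x + T) = w i x) →
  ∀ (s : ℝ) (M : ℕ), Alt (fun x => ∑ i, w i x) (Set.Ico s (s + T)) M → (M : ℝ) * ℓ ≤ 2 * T

/-- The eigenspaces are finite dimensional. -/
def StFin : Prop := ∀ (f g : ℝ → ℝ) (hf : Continuous f) (hg : Continuous g) (L lam : ℝ), 0 < L →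
  0 < lam → FiniteDimensional ℝ (W hf hg L lam)

/-- The similarity principle. -/
def StSim : Prop := ∃ C₀ : ℝ, 0 ≤ C₀ ∧ ∀ V q : ℂ → ℂ, ContDiffOn ℝ 1 V (ball 0 5) →
  ContinuousOn q (ball 0 5) → (∀ z ∈ ball (0 : ℂ) 5, ‖q z‖ ≤ 1) →
  (∀ z ∈ ball (0 : ℂ) 5, dbar V z = q z * conj (V z)) →
  ∃ H S : ℂ → ℂ, DifferentiableOn ℂ H (ball 0 3) ∧ Continuous S ∧ (∀ z, ‖S z‖ ≤ C₀) ∧
    ∀ z ∈ ball (0 : ℂ) 3, V z = exp (S z) * H z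

/-- The area integral of `log |H|` over the disc of radius `1 / 2`. -/
noncomputable def ar (H : ℂ → ℂ) (p : ℂ) : ℝ := ∫ z in ball p (1 / 2), Real.log ‖H z‖

/-- The area mean inequality. -/
def StJensen : Prop := ∀ (H : ℂ → ℂ) (p : ℂ), DifferentiableOn ℂ H (ball 0 3) →
  closedBall p (1 / 2) ⊆ ball 0 3 → H p ≠ 0 →
  IntegrableOn (fun z => Real.log ‖H z‖) (ball p (1 / 2)) ∧
    Real.pi / 4 * Real.log ‖H p‖ ≤ ar H p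

/-- The area integrals of `log |H|` over two discs with centers on a horizontal line differ by the
integral of the variation of `arg H` along vertical segments, which is controlled by the number of
sign changes of `Re (e^S H)`. -/
def StFlux : Prop := ∀ (H S : ℂ → ℂ) (C₀ : ℝ) (V : ℝ → ℝ), DifferentiableOn ℂ H (ball 0 3) →
  (∃ z ∈ ball (0 : ℂ) 3, H z ≠ 0) → Continuous S → (∀ z, ‖S z‖ ≤ C₀) →
  IntegrableOn V (Set.Icc (-2) 2) →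
  (∀ x ∈ Set.Icc (-2 : ℝ) 2, ∀ n : ℕ,
    Alt (fun y => (exp (S (x + y * I)) * H (x + y * I)).re) (Set.Ioo (-2) 2) n → (n : ℝ) ≤ V x) →
  ∀ p p' : ℂ, |p.re| ≤ 1 → |p.im| ≤ 1 → |p'.re| ≤ 1 → p'.im = p.im →
    |ar H p' - ar H p| ≤ 2 * ∫ x in (-2 : ℝ)..2, (Real.pi * (V x + 2) + 2 * C₀)

/-- The complex function `V` with real part `Φ` and `dbar V = q conj V`. -/
def StW : Prop := ∃ C₁ : ℝ, 0 < C₁ ∧ ∀ (F G : ℝ → ℝ) (Φ Φx Φxx Φy Φyy : ℝ → ℝ → ℝ),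
  Continuous F → Continuous G → (∀ x, |F x| ≤ 1 / 100) → (∀ y, |G y| ≤ 1 / 100) →
  Sol2 (fun x y => F x + G y) Φ Φx Φxx Φy Φyy →
  ∀ (x₀ y₀ κ : ℝ), |x₀| ≤ 1 → |y₀| ≤ 1 →
    (∀ x y, |x - x₀| ≤ 1 → |y - y₀| ≤ 1 → |Φ x y| ≤ κ) →
    ∃ V q : ℂ → ℂ, ContDiffOn ℝ 1 V (ball 0 5) ∧ ContinuousOn q (ball 0 5) ∧
      (∀ z ∈ ball (0 : ℂ) 5, ‖q z‖ ≤ 1) ∧
      (∀ z ∈ ball (0 : ℂ) 5, dbar V z = q z * conj (V z)) ∧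
      (∀ z ∈ ball (0 : ℂ) 5, (V z).re = Φ z.re z.im) ∧
      ∫ z in ball (x₀ + y₀ * I) (1 / 2), ‖V z‖ ^ 2 ≤ C₁ * κ ^ 2

/-- The local estimate. -/
def StLoc : Prop := ∃ C₂ : ℝ, 0 < C₂ ∧ ∀ (F G : ℝ → ℝ) (Φ Φx Φxx Φy Φyy : ℝ → ℝ → ℝ)
  (V₁ V₂ : ℝ → ℝ),
  Continuous F → Continuous G → (∀ x, |F x| ≤ 1 / 100) → (∀ y, |G y| ≤ 1 / 100) →
  Sol2 (fun x y => F x + G y) Φ Φx Φxx Φy Φyy →
  IntegrableOn V₁ (Set.Icc (-2) 2) → IntegrableOn V₂ (Set.Icc (-2) 2) →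
  (∀ x ∈ Set.Icc (-2 : ℝ) 2, ∀ n : ℕ, Alt (fun y => Φ x y) (Set.Ioo (-2) 2) n → (n : ℝ) ≤ V₁ x) →
  (∀ y ∈ Set.Icc (-2 : ℝ) 2, ∀ n : ℕ, Alt (fun x => Φ x y) (Set.Ioo (-2) 2) n → (n : ℝ) ≤ V₂ y) →
  ∀ (x₀ y₀ κ : ℝ), |x₀| ≤ 1 → |y₀| ≤ 1 →
    (∀ x y, |x - x₀| ≤ 1 → |y - y₀| ≤ 1 → |Φ x y| ≤ κ) →
    ∀ x y, |x| ≤ 1 → |y| ≤ 1 →
      |Φ x y| ≤ κ * Real.exp (C₂ * (1 + (∫ t in (-2 : ℝ)..2, V₁ t) + ∫ t in (-2 : ℝ)..2, V₂ t))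

end Pool.Agent.N273.LT
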