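import Pool.Agent.N273.LT.Defs

/-!
# The local estimate from the modules
-/

set_option autoImplicit false

open MeasureTheory Complex Metric
open scoped ComplexConjugate

namespace Pool.Agent.N273.LT

open Pool.Agent.Y291.PA (Sol2)
open Pool.Agent.H761R2.SV (dbar)

theorem Alt.mono {u : ℝ → ℝ} {I : Set ℝ} {m n : ℕ} (h : Alt u I n) (hmn : m ≤ n) : Alt u I m := by
  obtain ⟨t, h1, h2, h3⟩ := h
  exact ⟨t, fun i hi => h1 i (by omega), fun i hi => h2 i (by omega), fun i hi => h3 i (by omega)⟩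

theorem Alt.subset {u : ℝ → ℝ} {I J : Set ℝ} {n : ℕ} (h : Alt u I n) (hIJ : I ⊆ J) : Alt u J n := by
  obtain ⟨t, h1, h2, h3⟩ := h
  exact ⟨t, h1, fun i hi => hIJ (h2 i hi), h3⟩

theorem Alt.congr {u v : ℝ → ℝ} {I : Set ℝ} {n : ℕ} (h : Alt u I n) (huv : ∀ x ∈ I, u x = v x) :
    Alt v I n := by
  obtain ⟨t, h1, h2, h3⟩ := h
  refine ⟨t, h1, h2, fun i hi => ?_⟩
  rw [← huv _ (h2 i hi.le), ← huv _ (h2 (i + 1) hi)]
  exact h3 i hi

theorem Alt.zero {u : ℝ → ℝ} {I : Set ℝ} (h : I.Nonempty) : Alt u I 0 := by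
  obtain ⟨x, hx⟩ := h
  exact ⟨fun _ => x, fun i hi => by omega, fun i _ => hx, fun i hi => by omega⟩

/-- Reversal. -/
theorem Alt.neg {u : ℝ → ℝ} {a : ℝ} {n : ℕ} (h : Alt (fun y => u (-y)) (Set.Ioo (-a) a) n) :
    Alt u (Set.Ioo (-a) a) n := by
  obtain ⟨t, h1, h2, h3⟩ := h
  refine ⟨fun i => -t (n - i), fun i hi => ?_, fun i hi => ?_, fun i hi => ?_⟩
  · have := h1 (n - (i + 1)) (by omega)
    rw [show n - (i + 1) + 1 = n - i by omega] at this
    linarith
  · have := h2 (n - i) (by omega)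
    exact ⟨by linarith [this.2], by linarith [this.1]⟩
  · have := h3 (n - (i + 1)) (by omega)
    rw [show n - (i + 1) + 1 = n - i by omega] at this
    rw [mul_comm]
    exact this

/-- The rotation of the area integrals. -/
theorem ar_rot (H : ℂ → ℂ) (p : ℂ) : ar (fun z => H (I * z)) (-(I * p)) = ar H p := by
  unfold ar
  have hI : ‖(I : ℂ)‖ = 1 := Complex.norm_I
  have hmem : (I : ℂ) ∈ Submonoid.unitSphere ℂ := by
    exact mem_sphere_zero_iff_norm.2 hI
  set e : ℂ ≃ₗᵢ[ℝ] ℂ := rotation ⟨I, hmem⟩ with he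
  have hez : ∀ z, e z = I * z := fun z => rotation_apply _ _
  have hmp : MeasurePreserving e := e.measurePreserving
  have hemb : MeasurableEmbedding e := e.toHomeomorph.measurableEmbedding
  have h1 := hmp.setIntegral_preimage_emb hemb (fun w => Real.log ‖H w‖) (ball p (1 / 2))
  have h2 : e ⁻¹' ball p (1 / 2) = ball (-(I * p)) (1 / 2) := by
    ext z
    rw [Set.mem_preimage, mem_ball, mem_ball, hez, dist_eq_norm, dist_eq_norm]
    have h3 : I * z - p = I * (z - -(I * p)) := by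
      linear_combination (-p) * I_mul_I
    rw [h3, norm_mul, hI, one_mul]
  rw [h2] at h1
  rw [← h1]
  simp only [hez]

/-- Average of the logarithm. -/
theorem ar_le {H : ℂ → ℂ} {p : ℂ} {κ : ℝ} (hκ : 0 < κ)
    (hi : IntegrableOn (fun z => Real.log ‖H z‖) (ball p (1 / 2)))
    (hi2 : IntegrableOn (fun z => ‖H z‖ ^ 2) (ball p (1 / 2)))
    (h : ∫ z in ball p (1 / 2), ‖H z‖ ^ 2 ≤ Real.pi / 4 * κ ^ 2)
    (hz : ∀ᵐ z ∂(volume.restrict (ball p (1 / 2))), H z ≠ 0) :
    ar H p ≤ Real.pi / 4 * Real.log κ := by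
  have hvol : (volume : Measure ℂ).real (ball p (1 / 2)) = Real.pi / 4 := by
    rw [Measure.real, Complex.volume_ball]
    rw [ENNReal.toReal_mul, ENNReal.toReal_pow, ENNReal.toReal_ofReal (by norm_num)]
    simp only [ENNReal.coe_toReal, NNReal.coe_real_pi]
    ring
  haveI : IsFiniteMeasure ((volume : Measure ℂ).restrict (ball p (1 / 2))) :=
    ⟨by rw [Measure.restrict_apply_univ]; exact measure_ball_lt_top⟩
  have h1 : ar H p ≤ ∫ z in ball p (1 / 2), (Real.log κ + (‖H z‖ ^ 2 / κ ^ 2 - 1) / 2) := by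
    unfold ar
    refine integral_mono_ae hi ?_ ?_
    · refine (integrable_const _).add (((hi2.div_const _).sub (integrable_const _)).div_const _)
    · filter_upwards [hz] with z hz
      have hn : 0 < ‖H z‖ := norm_pos_iff.2 hz
      have h2 : Real.log (‖H z‖ ^ 2 / κ ^ 2) ≤ ‖H z‖ ^ 2 / κ ^ 2 - 1 :=
        Real.log_le_sub_one_of_pos (by positivity)
      rw [Real.log_div (by positivity) (by positivity), Real.log_pow, Real.log_pow] at h2
      push_cast at h2
      linarith
  refine h1.trans ?_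
  have c1 : Integrable (fun _ : ℂ => Real.log κ) (volume.restrict (ball p (1 / 2))) :=
    integrable_const _
  have c2 : Integrable (fun z : ℂ => (‖H z‖ ^ 2 / κ ^ 2 - 1) / 2)
      (volume.restrict (ball p (1 / 2))) :=
    ((hi2.div_const _).sub (integrable_const _)).div_const _
  rw [integral_add c1 c2, integral_div, integral_sub (hi2.div_const _) (integrable_const _),
    integral_div, setIntegral_const, setIntegral_const, hvol]
  have h3 : (∫ z in ball p (1 / 2), ‖H z‖ ^ 2) / κ ^ 2 ≤ Real.pi / 4 := by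
    rw [div_le_iff₀ (by positivity)]
    exact h
  simp only [smul_eq_mul]
  linarith

end Pool.Agent.N273.LT
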