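import Pool.Agent.N273.LT.Lint
import Pool.Agent.N273.LT.Loc

/-!
# Variation of the argument along segments
-/

set_option autoImplicit false

open MeasureTheory Complex Metric Set

namespace Pool.Agent.N273.LT

theorem expo {h h' q : ℝ → ℂ} {a b : ℝ} (hab : a ≤ b) (hd : ∀ t ∈ Icc a b, HasDerivAt h (h' t) t)
    (hq : Continuous q) (he : ∀ t ∈ Icc a b, h' t = q t * h t) :
    h b = h a * exp (∫ t in a..b, q t) := by
  have h1 : ∀ t ∈ Icc a b, HasDerivAt (fun t => h t * exp (-∫ s in a..t, q s)) 0 t := by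
    intro t ht
    have h2 : HasDerivAt (fun t => ∫ s in a..t, q s) (q t) t :=
      intervalIntegral.integral_hasDerivAt_right (hq.intervalIntegrable _ _)
        (hq.stronglyMeasurableAtFilter _ _) hq.continuousAt
    have h3 := (hd t ht).mul (h2.neg.cexp)
    refine h3.congr_deriv ?_
    rw [he t ht]
    simp only [Pi.neg_apply]
    ring
  have h4 := constant_of_has_deriv_right_zero (f := fun t => h t * exp (-∫ s in a..t, q s))
    (a := a) (b := b) (fun t ht => (h1 t ht).continuousAt.continuousWithinAt)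
    (fun t ht => (h1 t ⟨ht.1, ht.2.le⟩).hasDerivWithinAt) b ⟨hab, le_rfl⟩
  simp only [intervalIntegral.integral_same, neg_zero, exp_zero, mul_one] at h4
  rw [← h4, mul_assoc, ← exp_add, neg_add_cancel, exp_zero, mul_one]

theorem seg {H : ℂ → ℂ} (hH : DifferentiableOn ℂ H (ball 0 3)) {z₀ e : ℂ} {a b : ℝ} (hab : a ≤ b)
    (hK : ∀ t ∈ Icc a b, z₀ + t * e ∈ ball (0 : ℂ) 3)
    (hne : ∀ t ∈ Icc a b, H (z₀ + t * e) ≠ 0) :
    ∃ q : ℝ → ℂ, Continuous q ∧
      (∀ t ∈ Icc a b, q t = e * (deriv H (z₀ + t * e) / H (z₀ + t * e))) ∧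
      ∀ t ∈ Icc a b, H (z₀ + t * e) = H (z₀ + a * e) * exp (∫ s in a..t, q s) := by
  have hp : ContinuousOn (fun t : ℝ => z₀ + t * e) (Icc a b) := by fun_prop
  have hHc : ContinuousOn H (ball 0 3) := hH.continuousOn
  have hdc : ContinuousOn (deriv H) (ball 0 3) := (hH.deriv isOpen_ball).continuousOn
  have hf : ContinuousOn (fun t : ℝ => e * (deriv H (z₀ + t * e) / H (z₀ + t * e))) (Icc a b) :=
    continuousOn_const.mul ((hdc.comp hp hK).div (hHc.comp hp hK) hne)
  refine ⟨IccExtend hab ((Icc a b).domRestrict fun t : ℝ =>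
    e * (deriv H (z₀ + t * e) / H (z₀ + t * e))), (continuousOn_iff_continuous_domRestrict.1 hf).Icc_extend',
    fun t ht => by rw [IccExtend_of_mem _ _ ht]; rfl, fun t ht => ?_⟩
  refine expo (h := fun t : ℝ => H (z₀ + t * e)) (h' := fun t : ℝ => deriv H (z₀ + t * e) * e)
    ht.1 (fun s hs => ?_) (continuousOn_iff_continuous_domRestrict.1 hf).Icc_extend' (fun s hs => ?_)
  · have h1 : HasDerivAt H (deriv H (z₀ + s * e)) (z₀ + s * e) :=
      (hH.differentiableAt (isOpen_ball.mem_nhds (hK s ⟨hs.1, hs.2.trans ht.2⟩))).hasDerivAt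
    have h2 : HasDerivAt (fun s : ℝ => z₀ + s * e) e s := by
      have h3 := ((hasDerivAt_id s).ofReal_comp.mul_const e).const_add z₀
      simpa using h3
    exact h1.comp s h2
  · have hs' : s ∈ Icc a b := ⟨hs.1, hs.2.trans ht.2⟩
    have h1 := hne s hs'
    rw [IccExtend_of_mem _ _ hs', Set.domRestrict_apply]
    field_simp

theorem ivt_seq {ψ : ℝ → ℝ} {a b : ℝ} (hab : a ≤ b) (hψ : ContinuousOn ψ (Icc a b)) {c : ℝ}
    (hc : ψ a ≤ c) (m : ℕ) (hm : c + m * Real.pi ≤ ψ b) :
    ∃ t : ℕ → ℝ, (∀ i < m, t i < t (i + 1)) ∧ (∀ i ≤ m, t i ∈ Icc a b) ∧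
      ∀ i ≤ m, ψ (t i) = c + i * Real.pi := by
  induction m with
  | zero =>
    obtain ⟨t, ht, ht'⟩ := intermediate_value_Icc hab hψ ⟨hc, by simpa using hm⟩
    exact ⟨fun _ => t, fun i hi => by omega, fun i _ => ht, fun i hi => by
      rw [Nat.le_zero.1 hi]; simpa using ht'⟩
  | succ m ih =>
    have hpi := Real.pi_pos
    push_cast at hm
    obtain ⟨t, h1, h2, h3⟩ := ih (by nlinarith)
    have h4 := h2 m le_rfl
    have h5 := h3 m le_rfl
    obtain ⟨τ, hτ, hτ'⟩ := intermediate_value_Icc h4.2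
      (hψ.mono (Icc_subset_Icc_left h4.1)) (show c + (m + 1) * Real.pi ∈ Icc (ψ (t m)) (ψ b) from
        ⟨by rw [h5]; nlinarith, hm⟩)
    refine ⟨fun i => if i ≤ m then t i else τ, fun i hi => ?_, fun i hi => ?_, fun i hi => ?_⟩
    · simp only
      rcases Nat.lt_or_ge i m with h | h
      · rw [if_pos h.le, if_pos (Nat.succ_le_of_lt h)]
        exact h1 i h
      · have : i = m := by omega
        subst this
        rw [if_pos le_rfl, if_neg (by omega)]
        refine lt_of_le_of_ne hτ.1 fun h6 => ?_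
        rw [← h6, h5] at hτ'
        nlinarith
    · simp only
      split_ifs with h
      · exact h2 i h
      · exact ⟨h4.1.trans hτ.1, hτ.2⟩
    · simp only
      split_ifs with h
      · exact h3 i h
      · have : i = m + 1 := by omega
        subst this
        push_cast
        exact hτ'

/-- If the argument varies by more than `π (n + 2)`, the real part changes sign `n + 1` times. -/
theorem alt_of_arg {u R ψ : ℝ → ℝ} {a b : ℝ} (hab : a ≤ b) (hψ : ContinuousOn ψ (Icc a b))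
    (hR : ∀ t ∈ Icc a b, 0 < R t) (hu : ∀ t ∈ Icc a b, u t = R t * Real.cos (ψ t)) (n : ℕ)
    (h : Real.pi * (n + 2) < ψ b - ψ a) : Alt u (Icc a b) (n + 1) := by
  have hpi := Real.pi_pos
  set k := ⌈ψ a / Real.pi⌉ with hk
  have h1 : ψ a ≤ k * Real.pi := by
    have := Int.le_ceil (ψ a / Real.pi)
    rwa [div_le_iff₀ hpi] at this
  have h2 : k * Real.pi < ψ a + Real.pi := by
    have h3 := Int.ceil_lt_add_one (ψ a / Real.pi)
    have h4 : (k : ℝ) * Real.pi < (ψ a / Real.pi + 1) * Real.pi := mul_lt_mul_of_pos_right h3 hpi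
    have h5 : (ψ a / Real.pi + 1) * Real.pi = ψ a + Real.pi := by field_simp
    linarith
  obtain ⟨t, h3, h4, h5⟩ := ivt_seq hab hψ h1 (n + 1) (by push_cast; nlinarith)
  refine ⟨t, h3, h4, fun i hi => ?_⟩
  have h6 := h4 i hi.le
  have h7 := h4 (i + 1) hi
  rw [hu _ h6, hu _ h7, h5 i hi.le, h5 (i + 1) hi]
  have h8 : Real.sin (k * Real.pi + i * Real.pi) = 0 := by
    have h9 : (k : ℝ) * Real.pi + i * Real.pi = ((k + i : ℤ) : ℝ) * Real.pi := by
      push_cast
      ring
    rw [h9]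
    exact Real.sin_int_mul_pi _
  have h9 : Real.cos (k * Real.pi + (i + 1 : ℕ) * Real.pi) =
      -Real.cos (k * Real.pi + i * Real.pi) := by
    have h10 : (k : ℝ) * Real.pi + (i + 1 : ℕ) * Real.pi =
        k * Real.pi + i * Real.pi + Real.pi := by
      push_cast
      ring
    rw [h10, Real.cos_add_pi]
  have h10 := Real.sin_sq_add_cos_sq (k * Real.pi + i * Real.pi)
  rw [h8] at h10
  rw [h9]
  have h11 : Real.cos (k * Real.pi + i * Real.pi) * Real.cos (k * Real.pi + i * Real.pi) = 1 := by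
    nlinarith
  have h12 := mul_pos (hR _ h6) (hR _ h7)
  nlinarith

theorem alt_of_arg' {u R ψ : ℝ → ℝ} {a b : ℝ} (hab : a ≤ b) (hψ : ContinuousOn ψ (Icc a b))
    (hR : ∀ t ∈ Icc a b, 0 < R t) (hu : ∀ t ∈ Icc a b, u t = R t * Real.cos (ψ t)) (n : ℕ)
    (h : Real.pi * (n + 2) < |ψ b - ψ a|) : Alt u (Icc a b) (n + 1) := by
  rcases abs_cases (ψ b - ψ a) with ⟨h1, -⟩ | ⟨h1, -⟩
  · rw [h1] at h
    exact alt_of_arg hab hψ hR hu n h
  · rw [h1] at h
    refine alt_of_arg hab hψ.neg hR (fun t ht => ?_) n (by simpa [sub_eq_add_neg, add_comm] using h)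
    rw [hu t ht]
    simp [Real.cos_neg]

/-- The variation of the argument along vertical segments. -/
theorem vert {H S : ℂ → ℂ} {C₀ : ℝ} (hH : DifferentiableOn ℂ H (ball 0 3)) (hS : Continuous S)
    (hC : ∀ z, ‖S z‖ ≤ C₀) {x a b : ℝ} (hab : a ≤ b) (hx : |x| ≤ 3 / 2) (ha : -(3 / 2) ≤ a)
    (hb : b ≤ 3 / 2) (hne : ∀ y ∈ Icc a b, H (x + y * I) ≠ 0) {Vx : ℝ}
    (hV : ∀ n : ℕ, Alt (fun y => (exp (S (x + y * I)) * H (x + y * I)).re) (Ioo (-2) 2) n →
      (n : ℝ) ≤ Vx) :
    |∫ y in a..b, (deriv H (x + y * I) / H (x + y * I)).re| ≤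
      Real.pi * (Vx + 2) + 2 * C₀ := by
  have hpi := Real.pi_pos
  have hK : ∀ t ∈ Icc a b, (x : ℂ) + t * I ∈ ball (0 : ℂ) 3 := by
    intro t ht
    rw [mem_ball_zero_iff]
    have h1 : ‖(x : ℂ) + t * I‖ ≤ |x| + |t| := by
      refine (norm_add_le _ _).trans ?_
      simp
    have h2 : |t| ≤ 3 / 2 := abs_le.2 ⟨ha.trans ht.1, ht.2.trans hb⟩
    refine lt_of_le_of_ne (by linarith) fun h3 => ?_
    have h4 : ‖(x : ℂ) + t * I‖ ^ 2 = x ^ 2 + t ^ 2 := by
      rw [← Complex.normSq_eq_norm_sq, Complex.normSq_add_mul_I]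
    rw [h3] at h4
    have h5 : x ^ 2 ≤ (3 / 2) ^ 2 := sq_le_sq' (abs_le.1 hx).1 (abs_le.1 hx).2
    have h6 : t ^ 2 ≤ (3 / 2) ^ 2 := sq_le_sq' (abs_le.1 h2).1 (abs_le.1 h2).2
    nlinarith
  obtain ⟨q, hqc, hq, hseg⟩ := seg hH hab hK hne
  have h1 : ∫ y in a..b, (deriv H (x + y * I) / H (x + y * I)).re = (∫ y in a..b, q y).im := by
    have h2 : (∫ y in a..b, q y).im = ∫ y in a..b, (q y).im :=
      (Complex.imCLM.intervalIntegral_comp_comm (hqc.intervalIntegrable a b)).symm
    rw [h2]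
    refine intervalIntegral.integral_congr fun y hy => ?_
    rw [uIcc_of_le hab] at hy
    rw [hq y hy]
    simp
  rw [h1]
  by_contra hcon
  rw [not_le] at hcon
  set G := H (x + a * I) with hG
  have hG0 : G ≠ 0 := hne a ⟨le_rfl, hab⟩
  set ψ : ℝ → ℝ := fun t => (S (x + t * I)).im + arg G + (∫ s in a..t, q s).im with hψ
  set R : ℝ → ℝ := fun t => ‖G‖ * Real.exp ((S (x + t * I)).re + (∫ s in a..t, q s).re) with hR
  have hcQ : Continuous fun t => ∫ s in a..t, q s :=
    intervalIntegral.continuous_primitive (fun _ _ => hqc.intervalIntegrable _ _) a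
  have hcS : Continuous fun t : ℝ => S (x + t * I) := hS.comp (by fun_prop)
  have hψc : Continuous ψ := by
    have := (Complex.continuous_im.comp hcS).add (continuous_const (y := arg G))
    exact this.add (Complex.continuous_im.comp hcQ)
  have hu : ∀ t ∈ Icc a b, (exp (S (x + t * I)) * H (x + t * I)).re = R t * Real.cos (ψ t) := by
    intro t ht
    have h3 : exp (S (x + t * I)) * H (x + t * I) =
        ‖G‖ * exp (S (x + t * I) + arg G * I + ∫ s in a..t, q s) := by
      rw [hseg t ht, exp_add, exp_add]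
      conv_lhs => rw [← norm_mul_exp_arg_mul_I G]
      ring
    rw [h3, Complex.re_ofReal_mul, Complex.exp_re]
    simp only [hψ, hR, Complex.add_re, Complex.add_im, Complex.re_ofReal_mul,
      Complex.im_ofReal_mul, Complex.I_re, Complex.I_im, mul_zero, mul_one, add_zero]
    ring
  have hRpos : ∀ t ∈ Icc a b, 0 < R t := fun t _ =>
    mul_pos (norm_pos_iff.2 hG0) (Real.exp_pos _)
  have hVx : 0 ≤ Vx := by
    have := hV 0 (Alt.zero ⟨0, by norm_num⟩)
    simpa using this
  have him : ∀ z, |(S z).im| ≤ C₀ := fun z => (Complex.abs_im_le_norm _).trans (hC z)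
  have hdiff : Real.pi * (Vx + 2) < |ψ b - ψ a| := by
    have h4 : ψ b - ψ a = (S (x + b * I)).im - (S (x + a * I)).im + (∫ s in a..b, q s).im := by
      simp only [hψ, intervalIntegral.integral_same, Complex.zero_im]
      ring
    rw [h4]
    have h5 := him (x + b * I)
    have h6 := him (x + a * I)
    have h7 : |(∫ s in a..b, q s).im| ≤
        |(S (x + b * I)).im - (S (x + a * I)).im + (∫ s in a..b, q s).im| +
          (|(S (x + b * I)).im| + |(S (x + a * I)).im|) := by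
      rw [abs_le] at h5 h6
      have e1 := abs_add_le ((S (x + b * I)).im - (S (x + a * I)).im + (∫ s in a..b, q s).im)
        (-(S (x + b * I)).im + (S (x + a * I)).im)
      have e2 := abs_add_le (-(S (x + b * I)).im) ((S (x + a * I)).im)
      rw [abs_neg] at e2
      have e3 : (S (x + b * I)).im - (S (x + a * I)).im + (∫ s in a..b, q s).im +
        (-(S (x + b * I)).im + (S (x + a * I)).im) = (∫ s in a..b, q s).im := by ring
      rw [e3] at e1
      linarith
    linarith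
  have h8 : Real.pi * (⌊Vx⌋₊ + 2) < |ψ b - ψ a| := by
    have h9 := Nat.floor_le hVx
    nlinarith
  have h10 := alt_of_arg' hab hψc.continuousOn hRpos hu ⌊Vx⌋₊ h8
  have h11 : Icc a b ⊆ Ioo (-2) 2 := fun y hy => ⟨by linarith [hy.1], by linarith [hy.2]⟩
  have h12 := hV _ (h10.subset h11)
  have h13 := Nat.lt_floor_add_one Vx
  push_cast at h12
  linarith

end Pool.Agent.N273.LT
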