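import Pool.Agent.N273.LT.Fx1

/-!
# The flux estimate
-/

set_option autoImplicit false

open MeasureTheory Complex Metric Set

namespace Pool.Agent.N273.LT

theorem mk_eq (x y : ℝ) : (⟨x, y⟩ : ℂ) = x + y * I := Complex.mk_eq_add_mul_I x y

/-- Integrals over the plane as iterated integrals. -/
theorem plane {F : ℂ → ℝ} (hF : Integrable F) :
    Integrable (fun p : ℝ × ℝ => F (p.1 + p.2 * I)) (volume.prod volume) ∧
      ∫ z, F z = ∫ x : ℝ, ∫ y : ℝ, F (x + y * I) := by
  have hmp := Complex.volume_preserving_equiv_real_prod.symm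
  have h1 : Integrable (fun p : ℝ × ℝ => F (p.1 + p.2 * I)) (volume.prod volume) := by
    have h2 := (hmp.integrable_comp_emb Complex.measurableEquivRealProd.symm.measurableEmbedding).2 hF
    refine h2.congr (Filter.Eventually.of_forall fun p => ?_)
    simp only [Function.comp_apply, Complex.measurableEquivRealProd_symm_apply, mk_eq]
  refine ⟨h1, ?_⟩
  rw [← integral_prod _ h1, ← hmp.integral_comp Complex.measurableEquivRealProd.symm.measurableEmbedding]
  rw [Measure.volume_eq_prod]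
  congr 1
  funext p
  simp only [Complex.measurableEquivRealProd_symm_apply, mk_eq]

/-- Horizontal lines are null sets. -/
theorem im_null (c : ℝ) : ∀ᵐ z : ℂ, z.im ≠ c := by
  rw [ae_iff]
  have hmp := Complex.volume_preserving_equiv_real_prod
  have h1 : {z : ℂ | ¬ z.im ≠ c} = Complex.measurableEquivRealProd ⁻¹' (univ ×ˢ {c}) := by
    ext z
    simp
  rw [h1, hmp.measure_preimage (MeasurableSet.univ.prod (measurableSet_singleton c)).nullMeasurableSet,
    Measure.volume_eq_prod, Measure.prod_prod]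
  simp

/-- The integral of `Re (H' / H)` over a disc. -/
theorem disc_flux {H S : ℂ → ℂ} {C₀ : ℝ} {V : ℝ → ℝ} (hH : DifferentiableOn ℂ H (ball 0 3))
    (hne : ∃ z ∈ ball (0 : ℂ) 3, H z ≠ 0) (hS : Continuous S)
    (hC : ∀ z, ‖S z‖ ≤ C₀) (hVi : IntegrableOn V (Set.Icc (-2) 2))
    (hV : ∀ x ∈ Set.Icc (-2 : ℝ) 2, ∀ n : ℕ,
      Alt (fun y => (exp (S (x + y * I)) * H (x + y * I)).re) (Set.Ioo (-2) 2) n → (n : ℝ) ≤ V x)
    {c : ℂ} (h1 : |c.re| ≤ 1) (h2 : |c.im| ≤ 1) :
    |∫ z in ball c (1 / 2), (deriv H z / H z).re| ≤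
      ∫ x in (-2 : ℝ)..2, (Real.pi * (V x + 2) + 2 * C₀) := by
  have hpi := Real.pi_pos
  have hC0 : 0 ≤ C₀ := (norm_nonneg _).trans (hC 0)
  rw [abs_le] at h1 h2
  have hsub : closedBall c (1 / 2) ⊆ ball (0 : ℂ) 3 := by
    intro z hz
    rw [mem_closedBall, dist_eq_norm] at hz
    rw [mem_ball_zero_iff]
    have e1 : ‖c‖ ≤ |c.re| + |c.im| := Complex.norm_le_abs_re_add_abs_im c
    have e2 : ‖z‖ ≤ ‖z - c‖ + ‖c‖ := by
      have := norm_add_le (z - c) c
      simpa using this
    have e3 : |c.re| ≤ 1 := abs_le.2 h1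
    have e4 : |c.im| ≤ 1 := abs_le.2 h2
    linarith
  have hKc := isCompact_closedBall c (1 / 2 : ℝ)
  have hint : IntegrableOn (fun z => deriv H z / H z) (closedBall c (1 / 2)) :=
    dlog_int hH hne hKc hsub
  have hint2 : IntegrableOn (fun z => (deriv H z / H z).re) (ball c (1 / 2)) :=
    (hint.mono_set ball_subset_closedBall).re
  set F : ℂ → ℝ := (ball c (1 / 2)).indicator (fun z => (deriv H z / H z).re) with hF
  have hFi : Integrable F := (integrable_indicator_iff measurableSet_ball).2 hint2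
  rw [← integral_indicator measurableSet_ball, (plane hFi).2]
  set g : ℝ → ℝ := (Icc (-2 : ℝ) 2).indicator (fun x => Real.pi * (V x + 2) + 2 * C₀) with hg
  have hgi' : IntegrableOn (fun x => Real.pi * (V x + 2) + 2 * C₀) (Icc (-2 : ℝ) 2) := by
    have e1 : IntegrableOn (fun _ : ℝ => (2 : ℝ)) (Icc (-2 : ℝ) 2) :=
      continuous_const.integrableOn_Icc
    have e2 : IntegrableOn (fun _ : ℝ => 2 * C₀) (Icc (-2 : ℝ) 2) :=
      continuous_const.integrableOn_Icc
    exact ((hVi.add e1).const_mul Real.pi).add e2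
  have hgi : Integrable g := (integrable_indicator_iff measurableSet_Icc).2 hgi'
  have hgint : ∫ x, g x = ∫ x in (-2 : ℝ)..2, (Real.pi * (V x + 2) + 2 * C₀) := by
    rw [hg, integral_indicator measurableSet_Icc, intervalIntegral.integral_of_le (by norm_num),
      integral_Icc_eq_integral_Ioc]
  rw [← hgint, ← Real.norm_eq_abs]
  refine norm_integral_le_of_norm_le hgi ?_
  -- the zeros
  have hZ := zeros_finite hH hne hKc hsub
  have hZ' : ((fun z : ℂ => z.re) '' {z | z ∈ closedBall c (1 / 2) ∧ H z = 0}).Finite := hZ.image _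
  have hae : ∀ᵐ x : ℝ, x ∉ (fun z : ℂ => z.re) '' {z | z ∈ closedBall c (1 / 2) ∧ H z = 0} := by
    rw [ae_iff]
    simp only [not_not]
    exact hZ'.measure_zero volume
  filter_upwards [hae] with x hx
  have hVx : ∀ x ∈ Icc (-2 : ℝ) 2, 0 ≤ V x := by
    intro x hx
    have := hV x hx 0 (Alt.zero ⟨0, by norm_num⟩)
    simpa using this
  have hg0 : 0 ≤ g x := by
    rw [hg]
    refine indicator_nonneg (fun x hx => ?_) x
    have := hVx x hx
    positivity
  rcases le_or_gt (1 / 4) ((x - c.re) ^ 2) with hcase | hcase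
  · -- outside of the disc
    have e1 : ∀ y : ℝ, F (x + y * I) = 0 := by
      intro y
      rw [hF, indicator_of_notMem]
      intro hmem
      rw [mem_ball, dist_eq_norm] at hmem
      have e2 : ‖(x : ℂ) + y * I - c‖ ^ 2 = (x - c.re) ^ 2 + (y - c.im) ^ 2 := by
        rw [← Complex.normSq_eq_norm_sq, Complex.normSq_apply]
        simp
        ring
      have e3 : ‖(x : ℂ) + y * I - c‖ ^ 2 < (1 / 2) ^ 2 :=
        pow_lt_pow_left₀ hmem (norm_nonneg _) (by norm_num)
      nlinarith [sq_nonneg (y - c.im)]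
    simp only [e1, integral_zero, norm_zero]
    exact hg0
  · -- inside
    set r := Real.sqrt (1 / 4 - (x - c.re) ^ 2) with hr
    have hr2 : r ^ 2 = 1 / 4 - (x - c.re) ^ 2 := Real.sq_sqrt (by linarith)
    have hr0 : 0 < r := Real.sqrt_pos.2 (by linarith)
    have hr1 : r ≤ 1 / 2 := by nlinarith [sq_nonneg (x - c.re)]
    have hxc : |x - c.re| < 1 / 2 := by
      rw [← sq_lt_sq₀ (abs_nonneg _) (by norm_num), sq_abs]
      linarith
    rw [abs_lt] at hxc
    have hball : ∀ y : ℝ, (x : ℂ) + y * I ∈ ball c (1 / 2) ↔ y ∈ Ioo (c.im - r) (c.im + r) := by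
      intro y
      rw [mem_ball, dist_eq_norm, ← sq_lt_sq₀ (norm_nonneg _) (by norm_num)]
      have e2 : ‖(x : ℂ) + y * I - c‖ ^ 2 = (x - c.re) ^ 2 + (y - c.im) ^ 2 := by
        rw [← Complex.normSq_eq_norm_sq, Complex.normSq_apply]
        simp
        ring
      rw [e2]
      have e3 : ((x - c.re) ^ 2 + (y - c.im) ^ 2 < (1 / 2) ^ 2) ↔ (y - c.im) ^ 2 < r ^ 2 := by
        rw [hr2]
        constructor <;> intro h <;> linarith
      rw [e3, sq_lt_sq, abs_of_pos hr0, abs_lt]
      constructor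
      · rintro ⟨h3, h4⟩
        exact ⟨by linarith, by linarith⟩
      · rintro ⟨h3, h4⟩
        exact ⟨by linarith, by linarith⟩
    have e1 : ∀ y : ℝ, F (x + y * I) = (Ioo (c.im - r) (c.im + r)).indicator
        (fun y => (deriv H (x + y * I) / H (x + y * I)).re) y := by
      intro y
      by_cases hy : y ∈ Ioo (c.im - r) (c.im + r)
      · rw [hF, indicator_of_mem ((hball y).2 hy), indicator_of_mem hy]
      · rw [hF, indicator_of_notMem (fun h => hy ((hball y).1 h)), indicator_of_notMem hy]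
    have hle : c.im - r ≤ c.im + r := by linarith
    have e2 : ∫ y : ℝ, F (x + y * I) =
        ∫ y in (c.im - r)..(c.im + r), (deriv H (x + y * I) / H (x + y * I)).re := by
      simp only [e1]
      rw [integral_indicator measurableSet_Ioo, intervalIntegral.integral_of_le hle,
        integral_Ioc_eq_integral_Ioo]
    have hx2 : x ∈ Icc (-2 : ℝ) 2 := ⟨by linarith [hxc.1], by linarith [hxc.2]⟩
    rw [e2, Real.norm_eq_abs, hg, indicator_of_mem hx2]
    refine vert hH hS hC hle (abs_le.2 ⟨by linarith [hxc.1], by linarith [hxc.2]⟩)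
      (by linarith) (by linarith) (fun y hy h0 => hx ⟨x + y * I, ⟨?_, h0⟩, by simp⟩) (hV x hx2)
    rw [mem_closedBall, dist_eq_norm, ← sq_le_sq₀ (norm_nonneg _) (by norm_num)]
    have e3 : ‖(x : ℂ) + y * I - c‖ ^ 2 = (x - c.re) ^ 2 + (y - c.im) ^ 2 := by
      rw [← Complex.normSq_eq_norm_sq, Complex.normSq_apply]
      simp
      ring
    rw [e3]
    have e4 : (y - c.im) ^ 2 ≤ r ^ 2 := by
      rw [sq_le_sq, abs_of_pos hr0, abs_le]
      exact ⟨by linarith [hy.1], by linarith [hy.2]⟩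
    rw [hr2] at e4
    linarith

end Pool.Agent.N273.LT
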