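import Pool.Agent.N273.LT.Fx2

/-!
# The flux estimate: conclusion
-/

set_option autoImplicit false

open MeasureTheory Complex Metric Set

namespace Pool.Agent.N273.LT

theorem shift_ind (f : ℂ → ℝ) (c : ℂ) (r : ℝ) (w : ℂ) :
    (ball c r).indicator f (c + w) = (ball (0 : ℂ) r).indicator (fun w => f (c + w)) w := by
  by_cases hw : w ∈ ball (0 : ℂ) r
  · rw [indicator_of_mem hw, indicator_of_mem]
    rw [mem_ball, dist_eq_norm, add_sub_cancel_left]
    exact mem_ball_zero_iff.1 hw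
  · rw [indicator_of_notMem hw, indicator_of_notMem]
    rw [mem_ball, dist_eq_norm, add_sub_cancel_left]
    exact fun h => hw (mem_ball_zero_iff.2 h)

theorem shift (f : ℂ → ℝ) (c : ℂ) (r : ℝ) :
    ∫ z in ball c r, f z = ∫ w in ball (0 : ℂ) r, f (c + w) := by
  rw [← integral_indicator measurableSet_ball, ← integral_indicator measurableSet_ball,
    ← integral_add_left_eq_self _ c]
  congr 1
  funext w
  exact shift_ind f c r w

theorem shift_int {f : ℂ → ℝ} {c : ℂ} {r : ℝ} (h : IntegrableOn f (ball c r)) :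
    IntegrableOn (fun w => f (c + w)) (ball (0 : ℂ) r) := by
  rw [← integrable_indicator_iff measurableSet_ball] at h ⊢
  exact (h.comp_add_left c).congr (Filter.Eventually.of_forall fun w => shift_ind f c r w)

open scoped Classical in
theorem meas_ext {H : ℂ → ℂ} (hH : ContinuousOn H (ball 0 3)) :
    ∃ G : ℂ → ℂ, Measurable G ∧ ∀ z ∈ ball (0 : ℂ) 3, G z = H z :=
  ⟨(ball (0 : ℂ) 3).piecewise H (fun _ => 0),
    hH.measurable_piecewise continuousOn_const measurableSet_ball,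
    fun _ hz => piecewise_eq_of_mem _ _ _ hz⟩

theorem flux_le {H S : ℂ → ℂ} {C₀ : ℝ} {V : ℝ → ℝ} (hH : DifferentiableOn ℂ H (ball 0 3))
    (hne : ∃ z ∈ ball (0 : ℂ) 3, H z ≠ 0) (hS : Continuous S)
    (hC : ∀ z, ‖S z‖ ≤ C₀) (hVi : IntegrableOn V (Set.Icc (-2) 2))
    (hV : ∀ x ∈ Set.Icc (-2 : ℝ) 2, ∀ n : ℕ,
      Alt (fun y => (exp (S (x + y * I)) * H (x + y * I)).re) (Set.Ioo (-2) 2) n → (n : ℝ) ≤ V x)
    {p : ℂ} {d : ℝ} (hd : 0 ≤ d) (h1 : -1 ≤ p.re) (h1' : p.re + d ≤ 1) (h2 : |p.im| ≤ 1) :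
    |ar H (p + d) - ar H p| ≤ 2 * ∫ x in (-2 : ℝ)..2, (Real.pi * (V x + 2) + 2 * C₀) := by
  set M := ∫ x in (-2 : ℝ)..2, (Real.pi * (V x + 2) + 2 * C₀) with hM
  have hM0 : 0 ≤ M := (abs_nonneg _).trans
    (disc_flux hH hne hS hC hVi hV (c := 0) (by simp) (by simp))
  have hKc := isCompact_closedBall (0 : ℂ) (2 : ℝ)
  have hK3 : closedBall (0 : ℂ) 2 ⊆ ball 0 3 := closedBall_subset_ball (by norm_num)
  have hmem : ∀ w ∈ ball (0 : ℂ) (1 / 2), ∀ s ∈ Icc 0 d, p + w + s * 1 ∈ closedBall (0 : ℂ) 2 := by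
    intro w hw s hs
    rw [mem_ball_zero_iff] at hw
    rw [mem_closedBall_zero_iff, mul_one]
    have e1 : ‖p + s‖ ≤ 3 / 2 := by
      rw [← sq_le_sq₀ (norm_nonneg _) (by norm_num), ← Complex.normSq_eq_norm_sq,
        Complex.normSq_apply]
      simp only [Complex.add_re, Complex.ofReal_re, Complex.add_im, Complex.ofReal_im, add_zero]
      have e2 : (p.re + s) ^ 2 ≤ 1 := by
        rw [sq_le_one_iff_abs_le_one, abs_le]
        exact ⟨by linarith [hs.1], by linarith [hs.2]⟩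
      have e3 : p.im ^ 2 ≤ 1 := by rwa [sq_le_one_iff_abs_le_one]
      nlinarith
    have e2 : p + w + s = (p + s) + w := by ring
    rw [e2]
    exact (norm_add_le _ _).trans (by linarith)
  have hmem0 : ∀ w ∈ ball (0 : ℂ) (1 / 2), p + w ∈ closedBall (0 : ℂ) 2 := by
    intro w hw
    have := hmem w hw 0 ⟨le_rfl, hd⟩
    simpa using this
  -- the measurable function
  obtain ⟨G₁, hG₁, hG₁'⟩ := meas_ext hH.continuousOn
  obtain ⟨G₂, hG₂, hG₂'⟩ := meas_ext (hH.deriv isOpen_ball).continuousOn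
  set F : ℂ → ℝ := (closedBall (0 : ℂ) 2).indicator (fun z => (G₂ z / G₁ z).re) with hF
  have hFm : Measurable F :=
    (Complex.measurable_re.comp (hG₂.div hG₁)).indicator measurableSet_closedBall
  have hFK : ∀ z ∈ closedBall (0 : ℂ) 2, F z = (deriv H z / H z).re := fun z hz => by
    rw [hF, indicator_of_mem hz, hG₁' z (hK3 hz), hG₂' z (hK3 hz)]
  have hFi : Integrable F := by
    rw [hF, integrable_indicator_iff measurableSet_closedBall]
    have h3 : IntegrableOn (fun z => (deriv H z / H z).re) (closedBall (0 : ℂ) 2) :=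
      (dlog_int hH hne hKc hK3).re
    refine h3.congr_fun (fun z hz => ?_) measurableSet_closedBall
    simp only
    rw [hG₁' z (hK3 hz), hG₂' z (hK3 hz)]
  set ν : Measure ℝ := volume.restrict (Ioc 0 d) with hν
  have : IsFiniteMeasure ν := ⟨by rw [hν, Measure.restrict_apply_univ]; exact measure_Ioc_lt_top⟩
  have hJ : Integrable (fun q : ℂ × ℝ => F (p + q.1 + q.2 * 1)) (volume.prod ν) := by
    have hm : Measurable fun q : ℂ × ℝ => F (p + q.1 + q.2 * 1) := hFm.comp (by fun_prop)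
    have e0 : ∀ (s : ℝ) (w : ℂ), p + w + s * 1 = w + (p + s) := fun s w => by ring
    rw [integrable_prod_iff' hm.aestronglyMeasurable]
    refine ⟨Filter.Eventually.of_forall fun s => ?_, ?_⟩
    · simp only [e0]
      exact hFi.comp_add_right (p + s)
    · have e1 : (fun s : ℝ => ∫ w : ℂ, ‖F (p + w + s * 1)‖) = fun _ => ∫ w : ℂ, ‖F w‖ := by
        funext s
        simp only [e0]
        exact integral_add_right_eq_self (fun w => ‖F w‖) (p + s)
      rw [e1]
      exact integrable_const _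
  have hJ2 : Integrable (fun q : ℂ × ℝ => F (p + q.1 + q.2 * 1))
      ((volume.restrict (ball (0 : ℂ) (1 / 2))).prod ν) := by
    have h3 := hJ.integrableOn (s := ball (0 : ℂ) (1 / 2) ×ˢ univ)
    rw [IntegrableOn, ← Measure.prod_restrict, Measure.restrict_univ] at h3
    exact h3
  -- the logarithms
  have hlog : ∀ c : ℂ, closedBall c (1 / 2) ⊆ ball (0 : ℂ) 3 →
      IntegrableOn (fun z => Real.log ‖H z‖) (ball c (1 / 2)) := fun c hc =>
    (log_int hH hne (isCompact_closedBall _ _) hc).mono_set ball_subset_closedBall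
  have hsub : ∀ s ∈ Icc (0 : ℝ) d, closedBall (p + s) (1 / 2) ⊆ ball (0 : ℂ) 3 := by
    intro s hs z hz
    rw [mem_closedBall, dist_eq_norm] at hz
    rw [mem_ball_zero_iff]
    have e1 : ‖p + s‖ ≤ |(p + s).re| + |(p + s).im| := Complex.norm_le_abs_re_add_abs_im _
    have e2 : ‖z‖ ≤ ‖z - (p + s)‖ + ‖p + s‖ := by
      have := norm_add_le (z - (p + s)) (p + s)
      simpa using this
    have e3 : |(p + s).re| ≤ 1 := by
      simp only [Complex.add_re, Complex.ofReal_re]
      exact abs_le.2 ⟨by linarith [hs.1], by linarith [hs.2]⟩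
    have e4 : |(p + s).im| ≤ 1 := by simpa using h2
    linarith
  have hl1 := shift_int (hlog (p + d) (hsub d ⟨hd, le_rfl⟩))
  have hl0 := shift_int (hlog p (by simpa using hsub 0 ⟨le_rfl, hd⟩))
  have hD : ar H (p + d) - ar H p =
      ∫ w in ball (0 : ℂ) (1 / 2), ∫ s, F (p + w + s * 1) ∂ν := by
    unfold ar
    rw [shift _ (p + d), shift _ p, ← integral_sub hl1 hl0]
    refine integral_congr_ae ?_
    have hZ := (zeros_finite hH hne hKc hK3)
    have hae : ∀ᵐ w : ℂ, ∀ z ∈ {z | z ∈ closedBall (0 : ℂ) 2 ∧ H z = 0}, w.im ≠ z.im - p.im := by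
      rw [ae_ball_iff hZ.countable]
      exact fun z _ => im_null _
    have hae2 := ae_restrict_of_ae (s := ball (0 : ℂ) (1 / 2)) hae
    filter_upwards [hae2, ae_restrict_mem measurableSet_ball] with w hw hwB
    have hK : ∀ t ∈ Icc (0 : ℝ) d, p + w + t * 1 ∈ ball (0 : ℂ) 3 := fun t ht =>
      hK3 (hmem w hwB t ht)
    have hne' : ∀ t ∈ Icc (0 : ℝ) d, H (p + w + t * 1) ≠ 0 := fun t ht h0 =>
      hw _ ⟨hmem w hwB t ht, h0⟩ (by simp)
    obtain ⟨q, hqc, hq, hseg⟩ := seg hH hd hK hne'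
    have h3 := hseg d ⟨hd, le_rfl⟩
    have h4 : H (p + w + (0 : ℝ) * 1) ≠ 0 := hne' 0 ⟨le_rfl, hd⟩
    have h5 : Real.log ‖H (p + w + d * 1)‖ = Real.log ‖H (p + w + (0 : ℝ) * 1)‖ +
        (∫ s in (0 : ℝ)..d, q s).re := by
      rw [h3, norm_mul, Real.log_mul (norm_ne_zero_iff.2 h4) (norm_ne_zero_iff.2 (exp_ne_zero _)),
        Complex.norm_exp, Real.log_exp]
    have h6 : p + w + (0 : ℝ) * 1 = p + w := by simp
    have h7 : p + w + d * 1 = p + d + w := by ring
    rw [h6, h7] at h5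
    rw [h5, add_sub_cancel_left]
    have h8 : (∫ s in (0 : ℝ)..d, q s).re = ∫ s in (0 : ℝ)..d, (q s).re :=
      (Complex.reCLM.intervalIntegral_comp_comm (hqc.intervalIntegrable 0 d)).symm
    rw [h8, intervalIntegral.integral_of_le hd]
    refine setIntegral_congr_fun measurableSet_Ioc fun s hs => ?_
    have hs' : s ∈ Icc 0 d := ⟨hs.1.le, hs.2⟩
    rw [hFK _ (hmem w hwB s hs'), hq s hs', one_mul]
  rw [hD, integral_integral_swap hJ2]
  have hA : ∀ s ∈ Ioc (0 : ℝ) d, ‖∫ w in ball (0 : ℂ) (1 / 2), F (p + w + s * 1)‖ ≤ M := by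
    intro s hs
    have hs' : s ∈ Icc 0 d := ⟨hs.1.le, hs.2⟩
    have e1 : ∫ w in ball (0 : ℂ) (1 / 2), F (p + w + s * 1) =
        ∫ z in ball (p + s) (1 / 2), (deriv H z / H z).re := by
      rw [shift _ (p + s)]
      refine setIntegral_congr_fun measurableSet_ball fun w hw => ?_
      rw [hFK _ (hmem w hw s hs')]
      have e2 : p + w + s * 1 = p + s + w := by ring
      rw [e2]
    rw [e1, Real.norm_eq_abs]
    refine disc_flux hH hne hS hC hVi hV ?_ ?_
    · simp only [Complex.add_re, Complex.ofReal_re]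
      exact abs_le.2 ⟨by linarith [hs.1], by linarith [hs.2]⟩
    · simpa using h2
  have h9 := norm_setIntegral_le_of_norm_le_const (μ := volume)
    (f := fun s : ℝ => ∫ w in ball (0 : ℂ) (1 / 2), F (p + w + s * 1))
    (measure_Ioc_lt_top (a := (0 : ℝ)) (b := d)) hA
  rw [← Real.norm_eq_abs]
  refine h9.trans ?_
  have h10 : (volume : Measure ℝ).real (Ioc 0 d) = d := by
    rw [Real.volume_real_Ioc_of_le hd]
    ring
  rw [h10]
  nlinarith

theorem stFlux : StFlux := by
  intro H S C₀ V hH hne hS hC hVi hV p p' h1 h2 h3 h4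
  rw [abs_le] at h1 h3
  rcases le_total p.re p'.re with h | h
  · have e : p' = p + ((p'.re - p.re : ℝ) : ℂ) := by
      apply Complex.ext
      · simp
      · simp [h4]
    rw [e]
    exact flux_le hH hne hS hC hVi hV (by linarith) h1.1 (by linarith) h2
  · have e : p = p' + ((p.re - p'.re : ℝ) : ℂ) := by
      apply Complex.ext
      · simp
      · simp [h4]
    rw [abs_sub_comm, e]
    exact flux_le hH hne hS hC hVi hV (by linarith) h3.1 (by linarith) (by rw [h4]; exact h2)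

end Pool.Agent.N273.LT
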