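import Pool.Agent.N273.LT.Lint

/-!
# The area mean inequality
-/

set_option autoImplicit false

open MeasureTheory Complex Metric Set

namespace Pool.Agent.N273.LT

/-- The inequality of Jensen on circles. -/
theorem jensen_circle {H : ℂ → ℂ} {p : ℂ} (hH : DifferentiableOn ℂ H (ball 0 3)) {r : ℝ}
    (hr : 0 < r) (hp : closedBall p r ⊆ ball 0 3) (h0 : H p ≠ 0) :
    Real.log ‖H p‖ ≤ Real.circleAverage (fun z => Real.log ‖H z‖) p r := by
  have han : AnalyticOnNhd ℂ H (closedBall p |r|) := by
    rw [abs_of_pos hr]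
    exact (an_of_diff hH).mono hp
  have h1 := AnalyticOnNhd.circleAverage_log_norm hr.ne' han h0
  rw [h1]
  have h2 : 0 ≤ ∑ᶠ u, (MeromorphicOn.divisor H (closedBall p |r|) u : ℝ) *
      Real.log (r * ‖p - u‖⁻¹) := by
    refine finsum_nonneg fun u => ?_
    by_cases hu : u ∈ closedBall p |r|
    · refine mul_nonneg ?_ ?_
      · have h3 := (MeromorphicOn.AnalyticOnNhd.divisor_nonneg han) u
        exact_mod_cast h3
      · rcases eq_or_ne u p with rfl | hne
        · simp
        · have h4 : 0 < ‖p - u‖ := norm_pos_iff.2 (sub_ne_zero.2 hne.symm)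
          have h5 : ‖p - u‖ ≤ r := by
            rw [mem_closedBall, abs_of_pos hr, dist_comm, dist_eq_norm] at hu
            exact hu
          refine Real.log_nonneg ?_
          rw [← div_eq_mul_inv, one_le_div h4]
          exact h5
    · rw [Function.locallyFinsuppWithin.apply_eq_zero_of_notMem _ hu]
      simp
  linarith

open scoped Classical in
theorem stJensen : StJensen := by
  intro H p hH hp h0
  have hne : ∃ z ∈ ball (0 : ℂ) 3, H z ≠ 0 := ⟨p, hp (mem_closedBall_self (by norm_num)), h0⟩
  have hi : IntegrableOn (fun z => Real.log ‖H z‖) (closedBall p (1 / 2)) :=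
    log_int hH hne (isCompact_closedBall _ _) hp
  have hi' : IntegrableOn (fun z => Real.log ‖H z‖) (ball p (1 / 2)) :=
    hi.mono_set ball_subset_closedBall
  refine ⟨hi', ?_⟩
  have hBm : MeasurableSet (ball (0 : ℂ) (1 / 2)) := measurableSet_ball
  have hmem : ∀ z ∈ ball (0 : ℂ) (1 / 2), p + z ∈ ball (0 : ℂ) 3 := by
    intro z hz
    refine hp ?_
    rw [mem_closedBall, dist_eq_norm, add_sub_cancel_left]
    rw [mem_ball_zero_iff] at hz
    exact hz.le
  have hGc : ContinuousOn (fun z => H (p + z)) (ball (0 : ℂ) (1 / 2)) := by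
    refine hH.continuousOn.comp (by fun_prop) ?_
    intro z hz
    exact hmem z hz
  set G : ℂ → ℂ := (ball (0 : ℂ) (1 / 2)).piecewise (fun z => H (p + z)) (fun _ => 0) with hG
  have hGm : Measurable G := hGc.measurable_piecewise continuousOn_const hBm
  set F : ℂ → ℝ := (ball (0 : ℂ) (1 / 2)).indicator (fun z => Real.log ‖G z‖) with hF
  have hFm : Measurable F := (hGm.norm.log).indicator hBm
  have hFeq : ∀ z ∈ ball (0 : ℂ) (1 / 2), F z = Real.log ‖H (p + z)‖ := by
    intro z hz
    rw [hF, indicator_of_mem hz, hG, piecewise_eq_of_mem _ _ _ hz]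
  have hFz : ∀ z ∉ ball (0 : ℂ) (1 / 2), F z = 0 := fun z hz => by
    rw [hF, indicator_of_notMem hz]
  have hshift : ∀ z, F z = (ball p (1 / 2)).indicator (fun z => Real.log ‖H z‖) (p + z) := by
    intro z
    by_cases hz : z ∈ ball (0 : ℂ) (1 / 2)
    · rw [hFeq z hz, indicator_of_mem]
      rw [mem_ball, dist_eq_norm, add_sub_cancel_left]
      exact mem_ball_zero_iff.1 hz
    · rw [hFz z hz, indicator_of_notMem]
      rw [mem_ball, dist_eq_norm, add_sub_cancel_left]
      exact fun h => hz (mem_ball_zero_iff.2 h)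
  have hFi : Integrable F := by
    have h1 := ((integrable_indicator_iff measurableSet_ball).2 hi').comp_add_left p
    exact h1.congr (Filter.Eventually.of_forall fun z => (hshift z).symm)
  have hFint : ar H p = ∫ z, F z := by
    unfold ar
    rw [← integral_indicator measurableSet_ball, ← integral_add_left_eq_self _ p]
    congr 1
    funext z
    exact (hshift z).symm
  rw [hFint, ← Complex.integral_comp_polarCoord_symm]
  have hps : Measurable fun p : ℝ × ℝ => Complex.polarCoord.symm p := by
    have : (fun p : ℝ × ℝ => Complex.polarCoord.symm p) =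
        fun p : ℝ × ℝ => (p.1 * (Real.cos p.2 + Real.sin p.2 * Complex.I) : ℂ) := by
      funext p; exact Complex.polarCoord_symm_apply p
    rw [this]
    fun_prop
  have hint : IntegrableOn (fun p : ℝ × ℝ => p.1 • F (Complex.polarCoord.symm p))
      (Ioi (0 : ℝ) ×ˢ Ioo (-Real.pi) Real.pi) (volume.prod volume) := by
    have hm : Measurable fun p : ℝ × ℝ => p.1 • F (Complex.polarCoord.symm p) :=
      measurable_fst.smul (hFm.comp hps)
    refine ⟨hm.aestronglyMeasurable, ?_⟩
    rw [hasFiniteIntegral_iff_enorm]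
    have h1 := hFi.hasFiniteIntegral
    rw [hasFiniteIntegral_iff_enorm, ← Complex.lintegral_comp_polarCoord_symm] at h1
    refine lt_of_le_of_lt (le_of_eq ?_) h1
    apply setLIntegral_congr_fun (measurableSet_Ioi.prod measurableSet_Ioo)
    rintro ⟨r, θ⟩ hp
    have hr : 0 < r := hp.1
    simp only
    rw [enorm_smul, ← ofReal_norm, Real.norm_of_nonneg hr.le, smul_eq_mul]
  have e1 : ∫ p in polarCoord.target, p.1 • F (Complex.polarCoord.symm p) =
      ∫ r in Ioi (0 : ℝ), ∫ θ in Ioo (-Real.pi) Real.pi, r • F (Complex.polarCoord.symm (r, θ)) :=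
    setIntegral_prod _ hint
  rw [e1]
  have hint2 : IntegrableOn (fun r : ℝ => ∫ θ in Ioo (-Real.pi) Real.pi,
      r • F (Complex.polarCoord.symm (r, θ))) (Ioi 0) := by
    rw [IntegrableOn, ← Measure.prod_restrict] at hint
    exact hint.integral_prod_left
  -- the lower bound
  set c := Real.log ‖H p‖ with hc
  have hlow : ∀ r ∈ Ioi (0 : ℝ), (Ioo (0 : ℝ) (1 / 2)).indicator (fun r => 2 * Real.pi * c * r) r ≤
      ∫ θ in Ioo (-Real.pi) Real.pi, r • F (Complex.polarCoord.symm (r, θ)) := by
    intro r hr
    have hr0 : 0 < r := hr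
    have hnorm : ∀ θ : ℝ, ‖Complex.polarCoord.symm (r, θ)‖ = r := fun θ => by
      rw [Complex.norm_polarCoord_symm, abs_of_pos hr0]
    rw [integral_smul]
    by_cases hrR : r < 1 / 2
    · have e3 : ∫ θ in Ioo (-Real.pi) Real.pi, F (Complex.polarCoord.symm (r, θ)) =
          2 * Real.pi * Real.circleAverage (fun z => Real.log ‖H z‖) p r := by
        have e4 : ∀ θ : ℝ, F (Complex.polarCoord.symm (r, θ)) =
            Real.log ‖H (p + Complex.polarCoord.symm (r, θ))‖ := fun θ =>
          hFeq _ (by rw [mem_ball_zero_iff, hnorm]; exact hrR)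
        simp only [e4]
        rw [← Real.circleAverage_map_add_const, Real.circleAverage_eq_integral_add (-Real.pi),
          smul_eq_mul, ← mul_assoc, mul_inv_cancel₀ (by positivity), one_mul,
          intervalIntegral.integral_comp_add_right
            (fun θ => Real.log ‖H (circleMap 0 r θ + p)‖),
          intervalIntegral.integral_of_le (by linarith [Real.pi_pos]), integral_Ioc_eq_integral_Ioo]
        have h1 : (2 * Real.pi + -Real.pi : ℝ) = Real.pi := by ring
        rw [h1, zero_add]
        congr 1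
        funext θ
        congr 3
        rw [Complex.polarCoord_symm_apply, circleMap, zero_add, Complex.exp_mul_I,
          Complex.ofReal_cos, Complex.ofReal_sin, add_comm]
      rw [e3, indicator_of_mem (show r ∈ Ioo (0 : ℝ) (1 / 2) from ⟨hr0, hrR⟩), smul_eq_mul]
      have h5 := jensen_circle hH hr0 ((closedBall_subset_closedBall hrR.le).trans hp) h0
      have h6 : 0 ≤ r * (2 * Real.pi) := by positivity
      nlinarith [mul_le_mul_of_nonneg_left h5 h6]
    · have e3 : ∀ θ : ℝ, F (Complex.polarCoord.symm (r, θ)) = 0 := fun θ =>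
        hFz _ (by rw [mem_ball_zero_iff, hnorm]; exact hrR)
      rw [indicator_of_notMem (fun h => hrR h.2)]
      simp only [e3, integral_zero, smul_zero, le_refl]
  have hi1 : IntegrableOn ((Ioo (0 : ℝ) (1 / 2)).indicator (fun r => 2 * Real.pi * c * r))
      (Ioi 0) := by
    have h1 : IntegrableOn (fun r : ℝ => 2 * Real.pi * c * r) (Ioo 0 (1 / 2)) :=
      ((continuous_const.mul continuous_id).continuousOn.integrableOn_compact
        (isCompact_Icc (a := (0 : ℝ)) (b := 1 / 2))).mono_set Ioo_subset_Icc_self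
    exact ((integrable_indicator_iff measurableSet_Ioo).2 h1).integrableOn
  have h7 := setIntegral_mono_on hi1 hint2 measurableSet_Ioi hlow
  refine le_trans (le_of_eq ?_) h7
  rw [setIntegral_indicator measurableSet_Ioo]
  have h8 : Ioi (0 : ℝ) ∩ Ioo 0 (1 / 2) = Ioo 0 (1 / 2) := by
    ext x
    simp only [mem_inter_iff, mem_Ioi, mem_Ioo]
    tauto
  rw [h8, ← integral_Ioc_eq_integral_Ioo, ← intervalIntegral.integral_of_le (by norm_num),
    intervalIntegral.integral_const_mul, integral_id]
  ring

end Pool.Agent.N273.LT
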