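import Pool.Agent.N273.LT.Zer
import Pool.Agent.H761R2.SV.Pomp

/-!
# Local integrability of `log |H|` and `H' / H`
-/

set_option autoImplicit false

open MeasureTheory Complex Metric Filter Topology

namespace Pool.Agent.N273.LT

/-- The local factorization. -/
theorem factor {H : ℂ → ℂ} (hH : DifferentiableOn ℂ H (ball 0 3))
    (hne : ∃ z ∈ ball (0 : ℂ) 3, H z ≠ 0) {z₀ : ℂ} (hz₀ : z₀ ∈ ball (0 : ℂ) 3) :
    ∃ (n : ℕ) (g : ℂ → ℂ), AnalyticAt ℂ g z₀ ∧ g z₀ ≠ 0 ∧
      ∀ᶠ z in 𝓝 z₀, H z = (z - z₀) ^ n * g z := by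
  have han := an_of_diff hH
  have h1 : ¬ ∀ᶠ z in 𝓝 z₀, H z = 0 := by
    intro h
    obtain ⟨z, hz, hz'⟩ := hne
    exact hz' (han.eqOn_zero_of_preconnected_of_eventuallyEq_zero
      (convex_ball (0 : ℂ) 3).isPreconnected hz₀ h hz)
  obtain ⟨n, g, hg, hg0, he⟩ := (han z₀ hz₀).exists_eventuallyEq_pow_smul_nonzero_iff.2 h1
  exact ⟨n, g, hg, hg0, by simpa [smul_eq_mul] using he⟩

theorem int_compact {F : ℂ → ℂ} {K : Set ℂ} (hK : IsCompact K)
    (h : ∀ z ∈ K, IntegrableAtFilter F (𝓝 z) volume) : IntegrableOn F K := by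
  have h1 : LocallyIntegrableOn F K volume := fun z hz =>
    (h z hz).filter_mono nhdsWithin_le_nhds
  exact h1.integrableOn_isCompact hK

theorem int_compact' {F : ℂ → ℝ} {K : Set ℂ} (hK : IsCompact K)
    (h : ∀ z ∈ K, IntegrableAtFilter F (𝓝 z) volume) : IntegrableOn F K := by
  have h1 : LocallyIntegrableOn F K volume := fun z hz =>
    (h z hz).filter_mono nhdsWithin_le_nhds
  exact h1.integrableOn_isCompact hK

theorem int_inv (z₀ : ℂ) (r : ℝ) : IntegrableOn (fun z : ℂ => ‖z - z₀‖⁻¹) (ball z₀ r) := by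
  have h1 := (Pool.Agent.H761R2.SV.integrableOn_norm_inv r)
  have h2 := (integrable_indicator_iff (measurableSet_ball (x := (0 : ℂ)) (ε := r))).2 h1
  have h3 := h2.comp_sub_right z₀
  rw [← integrable_indicator_iff measurableSet_ball]
  refine h3.congr (Eventually.of_forall fun z => ?_)
  simp only
  by_cases hz : z ∈ ball z₀ r
  · have hz' : z - z₀ ∈ ball (0 : ℂ) r := by
      rw [mem_ball_zero_iff, ← dist_eq_norm]
      exact hz
    rw [Set.indicator_of_mem hz, Set.indicator_of_mem hz']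
  · have hz' : z - z₀ ∉ ball (0 : ℂ) r := by
      rw [mem_ball_zero_iff, ← dist_eq_norm]
      exact hz
    rw [Set.indicator_of_notMem hz, Set.indicator_of_notMem hz']

/-- `log |H|` is integrable near every point. -/
theorem log_at {H : ℂ → ℂ} (hH : DifferentiableOn ℂ H (ball 0 3))
    (hne : ∃ z ∈ ball (0 : ℂ) 3, H z ≠ 0) {z₀ : ℂ} (hz₀ : z₀ ∈ ball (0 : ℂ) 3) :
    IntegrableAtFilter (fun z => Real.log ‖H z‖) (𝓝 z₀) volume := by
  obtain ⟨n, g, hg, hg0, he⟩ := factor hH hne hz₀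
  have hgc : ContinuousAt (fun z => Real.log ‖g z‖) z₀ :=
    (hg.continuousAt.norm).log (norm_ne_zero_iff.2 hg0)
  have hb : ∀ᶠ z in 𝓝 z₀, |Real.log ‖g z‖| < |Real.log ‖g z₀‖| + 1 :=
    hgc.abs.eventually_lt continuousAt_const (by simp)
  obtain ⟨r, hr, hr'⟩ := Metric.eventually_nhds_iff_ball.1
    ((he.and (hb.and (hg.continuousAt.eventually_ne hg0))).and (isOpen_ball.mem_nhds hz₀))
  obtain ⟨r1, hr1, hr1r⟩ : ∃ r1, 0 < r1 ∧ r1 ≤ min r 1 := ⟨min r 1, lt_min hr one_pos, le_rfl⟩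
  refine ⟨ball z₀ r1, ball_mem_nhds _ hr1, ?_⟩
  have hcont : ContinuousOn H (ball z₀ r1) := by
    refine hH.continuousOn.mono fun z hz => ?_
    exact (hr' z (ball_subset_ball (hr1r.trans (min_le_left _ _)) hz)).2
  have hmeas : AEStronglyMeasurable (fun z => Real.log ‖H z‖) (volume.restrict (ball z₀ r1)) := by
    have h1 : AEMeasurable H (volume.restrict (ball z₀ r1)) :=
      (hcont.aestronglyMeasurable measurableSet_ball).aemeasurable
    exact (Real.measurable_log.comp_aemeasurable h1.norm).aestronglyMeasurable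
  have hdom : IntegrableOn (fun z : ℂ => n * (‖z - z₀‖⁻¹ + 1) + (|Real.log ‖g z₀‖| + 1))
      (ball z₀ r1) := by
    have hfin : volume (ball z₀ r1) ≠ ⊤ := measure_ball_lt_top.ne
    have c1 : IntegrableOn (fun _ : ℂ => (1 : ℝ)) (ball z₀ r1) := integrableOn_const hfin
    have c2 : IntegrableOn (fun _ : ℂ => |Real.log ‖g z₀‖| + 1) (ball z₀ r1) :=
      integrableOn_const hfin
    exact ((((int_inv z₀ r1).add c1).const_mul (n : ℝ))).add c2
  refine hdom.mono' hmeas ?_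
  rw [ae_restrict_iff' measurableSet_ball]
  have hne0 : ∀ᵐ z : ℂ, z ≠ z₀ := by
    rw [ae_iff]; simp
  filter_upwards [hne0] with z hzne hz
  have hzr := hr' z (ball_subset_ball (hr1r.trans (min_le_left _ _)) hz)
  obtain ⟨⟨h1, h2, h3⟩, -⟩ := hzr
  have hpos : 0 < ‖z - z₀‖ := norm_pos_iff.2 (sub_ne_zero.2 hzne)
  have hlt : ‖z - z₀‖ < 1 := by
    rw [mem_ball, dist_eq_norm] at hz
    exact hz.trans_le (hr1r.trans (min_le_right _ _))
  have hlog : |Real.log ‖z - z₀‖| ≤ ‖z - z₀‖⁻¹ + 1 := by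
    rw [abs_of_nonpos (Real.log_nonpos hpos.le hlt.le), ← Real.log_inv]
    have := Real.log_le_sub_one_of_pos (inv_pos.2 hpos)
    linarith
  rw [h1, norm_mul, norm_pow, Real.log_mul (pow_ne_zero _ hpos.ne') (norm_ne_zero_iff.2 h3),
    Real.log_pow, Real.norm_eq_abs]
  calc |(n : ℝ) * Real.log ‖z - z₀‖ + Real.log ‖g z‖|
      ≤ |(n : ℝ) * Real.log ‖z - z₀‖| + |Real.log ‖g z‖| := abs_add_le _ _
    _ = n * |Real.log ‖z - z₀‖| + |Real.log ‖g z‖| := by rw [abs_mul, Nat.abs_cast]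
    _ ≤ _ := by
      have : (n : ℝ) * |Real.log ‖z - z₀‖| ≤ n * (‖z - z₀‖⁻¹ + 1) := by gcongr
      linarith

/-- `log |H|` is integrable on compact sets. -/
theorem log_int {H : ℂ → ℂ} (hH : DifferentiableOn ℂ H (ball 0 3))
    (hne : ∃ z ∈ ball (0 : ℂ) 3, H z ≠ 0) {K : Set ℂ} (hK : IsCompact K) (hKU : K ⊆ ball 0 3) :
    IntegrableOn (fun z => Real.log ‖H z‖) K :=
  int_compact' hK fun _ hz => log_at hH hne (hKU hz)

/-- `H' / H` is integrable near every point. -/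
theorem dlog_at {H : ℂ → ℂ} (hH : DifferentiableOn ℂ H (ball 0 3))
    (hne : ∃ z ∈ ball (0 : ℂ) 3, H z ≠ 0) {z₀ : ℂ} (hz₀ : z₀ ∈ ball (0 : ℂ) 3) :
    IntegrableAtFilter (fun z => deriv H z / H z) (𝓝 z₀) volume := by
  obtain ⟨n, g, hg, hg0, he⟩ := factor hH hne hz₀
  have hgc : ContinuousAt (fun z => deriv g z / g z) z₀ :=
    (hg.deriv.continuousAt).div hg.continuousAt hg0
  have hb : ∀ᶠ z in 𝓝 z₀, ‖deriv g z / g z‖ < ‖deriv g z₀ / g z₀‖ + 1 :=
    hgc.norm.eventually_lt continuousAt_const (by simp)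
  obtain ⟨r, hr, hr'⟩ := Metric.eventually_nhds_iff_ball.1
    ((he.and (hb.and ((hg.continuousAt.eventually_ne hg0).and hg.eventually_analyticAt))).and
      (isOpen_ball.mem_nhds hz₀))
  refine ⟨ball z₀ r, ball_mem_nhds _ hr, ?_⟩
  have hsub : ball z₀ r ⊆ ball (0 : ℂ) 3 := fun z hz => (hr' z hz).2
  have hcont : ContinuousOn H (ball z₀ r) := hH.continuousOn.mono hsub
  have hcont' : ContinuousOn (deriv H) (ball z₀ r) :=
    ((hH.deriv isOpen_ball).continuousOn).mono hsub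
  have hmeas : AEStronglyMeasurable (fun z => deriv H z / H z) (volume.restrict (ball z₀ r)) := by
    have h1 : AEMeasurable H (volume.restrict (ball z₀ r)) :=
      (hcont.aestronglyMeasurable measurableSet_ball).aemeasurable
    have h2 : AEMeasurable (deriv H) (volume.restrict (ball z₀ r)) :=
      (hcont'.aestronglyMeasurable measurableSet_ball).aemeasurable
    exact (h2.div h1).aestronglyMeasurable
  have hdom : IntegrableOn (fun z : ℂ => n * ‖z - z₀‖⁻¹ + (‖deriv g z₀ / g z₀‖ + 1))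
      (ball z₀ r) := by
    have hfin : volume (ball z₀ r) ≠ ⊤ := measure_ball_lt_top.ne
    have c2 : IntegrableOn (fun _ : ℂ => ‖deriv g z₀ / g z₀‖ + 1) (ball z₀ r) :=
      integrableOn_const hfin
    exact ((int_inv z₀ r).const_mul (n : ℝ)).add c2
  refine hdom.mono' hmeas ?_
  rw [ae_restrict_iff' measurableSet_ball]
  have hne0 : ∀ᵐ z : ℂ, z ≠ z₀ := by
    rw [ae_iff]; simp
  filter_upwards [hne0] with z hzne hz
  obtain ⟨⟨h1, h2, h3, h4⟩, -⟩ := hr' z hz
  have hz0 : z - z₀ ≠ 0 := sub_ne_zero.2 hzne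
  have hev : H =ᶠ[𝓝 z] fun z => (z - z₀) ^ n * g z := by
    filter_upwards [isOpen_ball.mem_nhds hz] with w hw
    exact (hr' w hw).1.1
  have hd : deriv H z = n * (z - z₀) ^ (n - 1) * g z + (z - z₀) ^ n * deriv g z := by
    rw [hev.deriv_eq]
    have d1 : HasDerivAt (fun z : ℂ => (z - z₀) ^ n) (n * (z - z₀) ^ (n - 1)) z := by
      have := ((hasDerivAt_id' z).sub_const z₀).fun_pow n
      simpa using this
    exact (d1.mul h4.differentiableAt.hasDerivAt).deriv
  have hq : deriv H z / H z = n * (z - z₀)⁻¹ + deriv g z / g z := by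
    rw [hd, h1]
    rcases Nat.eq_zero_or_pos n with hn | hn
    · subst hn
      simp
    · have e : (z - z₀) ^ n = (z - z₀) ^ (n - 1) * (z - z₀) := by
        rw [← pow_succ, Nat.sub_add_cancel hn]
      rw [e]
      have : (z - z₀) ^ (n - 1) ≠ 0 := pow_ne_zero _ hz0
      field_simp
  rw [hq]
  refine (norm_add_le _ _).trans ?_
  rw [norm_mul, norm_inv, Complex.norm_natCast]
  linarith

/-- `H' / H` is integrable on compact sets. -/
theorem dlog_int {H : ℂ → ℂ} (hH : DifferentiableOn ℂ H (ball 0 3))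
    (hne : ∃ z ∈ ball (0 : ℂ) 3, H z ≠ 0) {K : Set ℂ} (hK : IsCompact K) (hKU : K ⊆ ball 0 3) :
    IntegrableOn (fun z => deriv H z / H z) K :=
  int_compact hK fun _ hz => dlog_at hH hne (hKU hz)

end Pool.Agent.N273.LT
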