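import Pool.Agent.N273.LT.Loc
import Pool.Agent.N273.LT.Lint

/-!
# The local estimate from the modules: assembly
-/

set_option autoImplicit false

open MeasureTheory Complex Metric
open scoped ComplexConjugate

namespace Pool.Agent.N273.LT

open Pool.Agent.Y291.PA (Sol2)
open Pool.Agent.H761R2.SV (dbar)

theorem norm_le_add (z : ℂ) {a b : ℝ} (ha : |z.re| ≤ a) (hb : |z.im| ≤ b) :
    ‖z‖ ^ 2 ≤ a ^ 2 + b ^ 2 := by
  rw [← Complex.normSq_eq_norm_sq, Complex.normSq_apply]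
  have h1 : z.re * z.re = |z.re| ^ 2 := by rw [sq_abs, sq]
  have h2 : z.im * z.im = |z.im| ^ 2 := by rw [sq_abs, sq]
  rw [h1, h2]
  gcongr

theorem mem_ball3 (z : ℂ) (ha : |z.re| ≤ 2) (hb : |z.im| ≤ 2) : z ∈ ball (0 : ℂ) 3 := by
  rw [mem_ball_zero_iff]
  have h := norm_le_add z ha hb
  nlinarith [norm_nonneg z]

theorem closedBall_sub (z : ℂ) (ha : |z.re| ≤ 1) (hb : |z.im| ≤ 1) :
    closedBall z (1 / 2) ⊆ ball (0 : ℂ) 3 := by
  intro w hw
  rw [mem_closedBall, dist_eq_norm] at hw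
  rw [mem_ball_zero_iff]
  have h := norm_le_add z ha hb
  have h1 : ‖w‖ ≤ ‖w - z‖ + ‖z‖ := by
    have := norm_add_le (w - z) z
    rwa [sub_add_cancel] at this
  nlinarith [norm_nonneg z]

theorem int_nonneg {V : ℝ → ℝ} (h0 : ∀ x ∈ Set.Icc (-2 : ℝ) 2, 0 ≤ V x) :
    0 ≤ ∫ x in (-2 : ℝ)..2, V x :=
  intervalIntegral.integral_nonneg (by norm_num) h0

theorem int_A {V : ℝ → ℝ} (hV : IntegrableOn V (Set.Icc (-2) 2)) (C₀ : ℝ) :
    ∫ x in (-2 : ℝ)..2, (Real.pi * (V x + 2) + 2 * C₀) =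
      Real.pi * (∫ x in (-2 : ℝ)..2, V x) + 8 * Real.pi + 8 * C₀ := by
  have hi : IntervalIntegrable V volume (-2) 2 :=
    (intervalIntegrable_iff_integrableOn_Icc_of_le (by norm_num)).2 hV
  rw [intervalIntegral.integral_add, intervalIntegral.integral_const_mul,
    intervalIntegral.integral_add hi intervalIntegrable_const]
  · simp only [intervalIntegral.integral_const, smul_eq_mul]
    ring
  · exact (hi.add intervalIntegrable_const).const_mul _
  · exact intervalIntegrable_const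

theorem aux2 {r a b : ℝ} (hr : 0 ≤ r) (ha : 0 ≤ a) (hb : 0 ≤ b) :
    8 * a + 8 * b + r ≤ (8 + r) * (1 + a + b) := by
  nlinarith [mul_nonneg hr ha, mul_nonneg hr hb]

theorem stLoc (hSim : StSim) (hJ : StJensen) (hF : StFlux) (hW : StW) : StLoc := by
  obtain ⟨C₀, hC₀, hSim⟩ := hSim
  obtain ⟨C₁, hC₁, hW⟩ := hW
  have hpi := Real.pi_pos
  -- the constant
  obtain ⟨A₀, hA₀⟩ : ∃ A₀ : ℝ, A₀ = Real.log (Real.sqrt (4 / Real.pi * C₁)) := ⟨_, rfl⟩
  obtain ⟨C₂, hC₂⟩ : ∃ C₂ : ℝ, C₂ = 8 + (2 * C₀ + |A₀| + 8 / Real.pi * (16 * Real.pi + 16 * C₀)) :=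
    ⟨_, rfl⟩
  have hC₂0 : 0 < C₂ := by
    rw [hC₂]
    positivity
  refine ⟨C₂, hC₂0, ?_⟩
  intro F G Φ Φx Φxx Φy Φyy V₁ V₂ hFc hGc hF1 hG1 hsol hV1 hV2 hA1 hA2 x₀ y₀
  have hn1 : ∀ x ∈ Set.Icc (-2 : ℝ) 2, 0 ≤ V₁ x := fun x hx => by
    have := hA1 x hx 0 (Alt.zero ⟨0, by norm_num⟩)
    simpa using this
  have hn2 : ∀ x ∈ Set.Icc (-2 : ℝ) 2, 0 ≤ V₂ x := fun x hx => by
    have := hA2 x hx 0 (Alt.zero ⟨0, by norm_num⟩)
    simpa using this
  have hI1 := int_nonneg hn1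
  have hI2 := int_nonneg hn2
  set E : ℝ := Real.exp (C₂ * (1 + (∫ t in (-2 : ℝ)..2, V₁ t) + ∫ t in (-2 : ℝ)..2, V₂ t)) with hE
  have hE0 : 0 < E := Real.exp_pos _
  -- it suffices to take a positive bound
  suffices key : ∀ κ : ℝ, 0 < κ → |x₀| ≤ 1 → |y₀| ≤ 1 →
      (∀ x y, |x - x₀| ≤ 1 → |y - y₀| ≤ 1 → |Φ x y| ≤ κ) →
      ∀ x y, |x| ≤ 1 → |y| ≤ 1 → |Φ x y| ≤ κ * E by
    intro κ hx0 hy0 hκ x y hx hy
    have hκ0 : 0 ≤ κ := (abs_nonneg _).trans (hκ x₀ y₀ (by simp) (by simp))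
    refine le_of_forall_pos_le_add fun ε hε => ?_
    have h1 := key (κ + ε / E) (by positivity) hx0 hy0 (fun x y h h' => (hκ x y h h').trans
      (by have : 0 < ε / E := by positivity
          linarith)) x y hx hy
    rw [add_mul, div_mul_cancel₀ _ hE0.ne'] at h1
    exact h1
  intro κ hκ0 hx0 hy0 hκ x y hx hy
  obtain ⟨V, q, hV, hq, hq1, hdb, hre, hL2⟩ := hW F G Φ Φx Φxx Φy Φyy hFc hGc hF1 hG1 hsol
    x₀ y₀ κ hx0 hy0 hκ
  obtain ⟨H, S, hH, hS, hSb, hVH⟩ := hSim V q hV hq hq1 hdb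
  have h35 : ball (0 : ℂ) 3 ⊆ ball (0 : ℂ) 5 := ball_subset_ball (by norm_num)
  have hΦ : ∀ z ∈ ball (0 : ℂ) 3, Φ z.re z.im = (exp (S z) * H z).re := by
    intro z hz
    rw [← hVH z hz, hre z (h35 hz)]
  set p : ℂ := x + y * I with hp
  have hpre : p.re = x := by simp [hp]
  have hpim : p.im = y := by simp [hp]
  have hpb : p ∈ ball (0 : ℂ) 3 := mem_ball3 p (by rw [hpre]; linarith) (by rw [hpim]; linarith)
  have hΦp : Φ x y = (exp (S p) * H p).re := by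
    have := hΦ p hpb
    rwa [hpre, hpim] at this
  by_cases hHp : H p = 0
  · rw [hΦp, hHp, mul_zero, Complex.zero_re, abs_zero]
    positivity
  have hne : ∃ z ∈ ball (0 : ℂ) 3, H z ≠ 0 := ⟨p, hpb, hHp⟩
  -- Jensen at `p`
  obtain ⟨-, hJ1⟩ := hJ H p hH (closedBall_sub p (by rw [hpre]; exact hx) (by rw [hpim]; exact hy))
    hHp
  -- first translation
  set p1 : ℂ := x₀ + y * I with hp1
  have hp1re : p1.re = x₀ := by simp [hp1]
  have hp1im : p1.im = y := by simp [hp1]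
  have hfl1 : ∀ x ∈ Set.Icc (-2 : ℝ) 2, ∀ n : ℕ,
      Alt (fun y => (exp (S (x + y * I)) * H (x + y * I)).re) (Set.Ioo (-2) 2) n →
        (n : ℝ) ≤ V₁ x := by
    intro x hx n hn
    refine hA1 x hx n (hn.congr fun y hy => ?_)
    have hb : ((x : ℂ) + y * I) ∈ ball (0 : ℂ) 3 := by
      refine mem_ball3 _ ?_ ?_
      · simp only [add_re, ofReal_re, mul_re, I_re, mul_zero, ofReal_im, I_im, mul_one, sub_self,
          add_zero]
        exact abs_le.2 hx
      · simp only [add_im, ofReal_im, mul_im, ofReal_re, I_im, mul_one, I_re, mul_zero, add_zero,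
          zero_add]
        exact abs_le.2 ⟨hy.1.le, hy.2.le⟩
    have := hΦ _ hb
    simp only [add_re, ofReal_re, mul_re, I_re, mul_zero, ofReal_im, I_im, mul_one, sub_self,
      add_zero, add_im, mul_im, zero_add] at this
    exact this.symm
  have hT1 := hF H S C₀ V₁ hH hne hS hSb hV1 hfl1 p p1 (by rw [hpre]; exact hx)
    (by rw [hpim]; exact hy) (by rw [hp1re]; exact hx0) (by rw [hp1im, hpim])
  -- second translation, after a rotation
  set p2 : ℂ := x₀ + y₀ * I with hp2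
  have hI3 : ∀ z ∈ ball (0 : ℂ) 3, I * z ∈ ball (0 : ℂ) 3 := by
    intro z hz
    rw [mem_ball_zero_iff] at hz ⊢
    rwa [norm_mul, Complex.norm_I, one_mul]
  have hHr : DifferentiableOn ℂ (fun z => H (I * z)) (ball 0 3) :=
    hH.comp (by fun_prop) hI3
  have hner : ∃ z ∈ ball (0 : ℂ) 3, H (I * z) ≠ 0 := by
    refine ⟨-(I * p), ?_, ?_⟩
    · have := hI3 p hpb
      rw [mem_ball_zero_iff] at this ⊢
      rwa [norm_neg]
    · have e : I * -(I * p) = p := by linear_combination (-p) * I_mul_I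
      rw [e]
      exact hHp
  have hfl2 : ∀ x ∈ Set.Icc (-2 : ℝ) 2, ∀ n : ℕ,
      Alt (fun y => (exp (S (I * (x + y * I))) * H (I * (x + y * I))).re) (Set.Ioo (-2) 2) n →
        (n : ℝ) ≤ V₂ x := by
    intro x hx n hn
    have hn' : Alt (fun y => Φ (-y) x) (Set.Ioo (-2) 2) n := by
      refine hn.congr fun y hy => ?_
      have e : I * ((x : ℂ) + y * I) = ((-y : ℝ) : ℂ) + x * I := by
        push_cast
        linear_combination (y : ℂ) * I_mul_I
      rw [e]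
      have hb : (((-y : ℝ) : ℂ) + x * I) ∈ ball (0 : ℂ) 3 := by
        refine mem_ball3 _ ?_ ?_
        · simp only [add_re, ofReal_re, mul_re, I_re, mul_zero, ofReal_im, I_im, mul_one,
            sub_self, add_zero]
          rw [abs_neg]
          exact abs_le.2 ⟨hy.1.le, hy.2.le⟩
        · simp only [add_im, ofReal_im, mul_im, ofReal_re, I_im, mul_one, I_re, mul_zero,
            add_zero, zero_add]
          exact abs_le.2 hx
      have := hΦ _ hb
      simp only [add_re, ofReal_re, mul_re, I_re, mul_zero, ofReal_im, I_im, mul_one, sub_self,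
        add_zero, add_im, mul_im, zero_add] at this
      exact this.symm
    exact hA2 x hx n (Alt.neg (u := fun t => Φ t x) hn')
  have hT2 := hF (fun z => H (I * z)) (fun z => S (I * z)) C₀ V₂ hHr hner (by fun_prop)
    (fun z => hSb _) hV2 hfl2 (-(I * p1)) (-(I * p2)) (by simp [hp1]; exact hy)
    (by simp [hp1]; exact hx0) (by simp [hp2]; exact hy0) (by simp [hp1, hp2])
  rw [ar_rot, ar_rot] at hT2
  -- the average of `|H|²`
  have hcb : closedBall p2 (1 / 2) ⊆ ball (0 : ℂ) 3 :=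
    closedBall_sub p2 (by simp [hp2]; exact hx0) (by simp [hp2]; exact hy0)
  have hbb : ball p2 (1 / 2) ⊆ closedBall p2 (1 / 2) := ball_subset_closedBall
  have hz2 : ∀ᵐ z ∂(volume.restrict (ball p2 (1 / 2))), H z ≠ 0 :=
    ae_mono (Measure.restrict_mono hbb le_rfl) (ae_ne hH hne (isCompact_closedBall _ _) hcb)
  have hHc : ContinuousOn H (closedBall p2 (1 / 2)) := hH.continuousOn.mono hcb
  have hi2 : IntegrableOn (fun z => ‖H z‖ ^ 2) (ball p2 (1 / 2)) :=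
    ((hHc.norm.pow 2).integrableOn_compact (isCompact_closedBall _ _)).mono_set hbb
  have hVc : ContinuousOn V (closedBall p2 (1 / 2)) := hV.continuousOn.mono (hcb.trans h35)
  have hiV : IntegrableOn (fun z => ‖V z‖ ^ 2) (ball p2 (1 / 2)) :=
    ((hVc.norm.pow 2).integrableOn_compact (isCompact_closedBall _ _)).mono_set hbb
  have hHV : ∀ z ∈ ball (0 : ℂ) 3, ‖H z‖ ≤ Real.exp C₀ * ‖V z‖ ∧ ‖V z‖ ≤ Real.exp C₀ * ‖H z‖ := by
    intro z hz
    have hs := hSb z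
    have h1 : |(S z).re| ≤ C₀ := (Complex.abs_re_le_norm _).trans hs
    rw [hVH z hz, norm_mul, Complex.norm_exp]
    constructor
    · rw [← mul_assoc, ← Real.exp_add]
      have h2 : 1 ≤ Real.exp (C₀ + (S z).re) := Real.one_le_exp (by linarith [(abs_le.1 h1).1])
      nlinarith [norm_nonneg (H z)]
    · gcongr
      exact (abs_le.1 h1).2
  have hint : ∫ z in ball p2 (1 / 2), ‖H z‖ ^ 2 ≤ Real.exp C₀ ^ 2 * (C₁ * κ ^ 2) := by
    calc ∫ z in ball p2 (1 / 2), ‖H z‖ ^ 2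
        ≤ ∫ z in ball p2 (1 / 2), Real.exp C₀ ^ 2 * ‖V z‖ ^ 2 := by
          refine setIntegral_mono_on hi2 (hiV.const_mul _) measurableSet_ball fun z hz => ?_
          rw [← mul_pow]
          exact pow_le_pow_left₀ (norm_nonneg _) (hHV z (hcb (hbb hz))).1 2
      _ = Real.exp C₀ ^ 2 * ∫ z in ball p2 (1 / 2), ‖V z‖ ^ 2 := integral_const_mul _ _
      _ ≤ _ := by gcongr
  set s0 : ℝ := Real.sqrt (4 / Real.pi * C₁) with hs0
  have hs00 : 0 < s0 := Real.sqrt_pos.2 (by positivity)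
  have hs0sq : s0 ^ 2 = 4 / Real.pi * C₁ := Real.sq_sqrt (by positivity)
  set κ1 : ℝ := Real.exp C₀ * (s0 * κ) with hκ1
  have hκ10 : 0 < κ1 := by positivity
  have hint2 : ∫ z in ball p2 (1 / 2), ‖H z‖ ^ 2 ≤ Real.pi / 4 * κ1 ^ 2 := by
    refine hint.trans (le_of_eq ?_)
    rw [hκ1, mul_pow, mul_pow, hs0sq]
    field_simp
  -- integrability of `log |H|`
  have hlogi : IntegrableOn (fun z => Real.log ‖H z‖) (ball p2 (1 / 2)) :=
    (log_int hH hne (isCompact_closedBall _ _) hcb).mono_set hbb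
  have hA := ar_le hκ10 hlogi hi2 hint2 hz2
  -- assembly
  rw [int_A hV1] at hT1
  rw [int_A hV2] at hT2
  set J1 : ℝ := ∫ x in (-2 : ℝ)..2, V₁ x with hJ1def
  set J2 : ℝ := ∫ x in (-2 : ℝ)..2, V₂ x with hJ2def
  have hT1' := abs_le.1 hT1
  have hT2' := abs_le.1 hT2
  have hbound : Real.pi / 4 * Real.log ‖H p‖ ≤ Real.pi / 4 * Real.log κ1 +
      2 * (Real.pi * J1 + 8 * Real.pi + 8 * C₀) + 2 * (Real.pi * J2 + 8 * Real.pi + 8 * C₀) := by
    linarith [hT1'.1, hT1'.2, hT2'.1, hT2'.2]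
  have hlogκ1 : Real.log κ1 = C₀ + (A₀ + Real.log κ) := by
    rw [hκ1, Real.log_mul (Real.exp_ne_zero _) (by positivity), Real.log_exp,
      Real.log_mul hs00.ne' hκ0.ne', hA₀]
  have hHlog : Real.log ‖H p‖ ≤ C₀ + (A₀ + Real.log κ) +
      8 / Real.pi * (Real.pi * J1 + Real.pi * J2 + 16 * Real.pi + 16 * C₀) := by
    have h1 : Real.log ‖H p‖ = (4 / Real.pi) * (Real.pi / 4 * Real.log ‖H p‖) := by
      field_simp
    rw [h1]
    have h2 := mul_le_mul_of_nonneg_left hbound (by positivity : 0 ≤ 4 / Real.pi)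
    refine h2.trans (le_of_eq ?_)
    rw [hlogκ1]
    field_simp
    ring
  have hfin : Real.log ‖H p‖ ≤ Real.log κ + (C₂ * (1 + J1 + J2) - C₀) := by
    refine hHlog.trans ?_
    have e1 : 8 / Real.pi * (Real.pi * J1 + Real.pi * J2 + 16 * Real.pi + 16 * C₀) =
        8 * J1 + 8 * J2 + 8 / Real.pi * (16 * Real.pi + 16 * C₀) := by
      field_simp
      ring
    rw [e1]
    have hr : 0 ≤ 2 * C₀ + |A₀| + 8 / Real.pi * (16 * Real.pi + 16 * C₀) := by positivity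
    have e2 : 8 * J1 + 8 * J2 + (2 * C₀ + |A₀| + 8 / Real.pi * (16 * Real.pi + 16 * C₀)) ≤
        C₂ * (1 + J1 + J2) := by
      rw [hC₂]
      exact aux2 hr hI1 hI2
    linarith [le_abs_self A₀]
  have hpos : 0 < ‖H p‖ := norm_pos_iff.2 hHp
  have hHexp : ‖H p‖ ≤ κ * Real.exp (C₂ * (1 + J1 + J2) - C₀) := by
    rw [← Real.log_le_log_iff hpos (by positivity), Real.log_mul hκ0.ne' (Real.exp_ne_zero _),
      Real.log_exp]
    exact hfin
  calc |Φ x y| = |(exp (S p) * H p).re| := by rw [hΦp]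
    _ ≤ ‖exp (S p) * H p‖ := Complex.abs_re_le_norm _
    _ = ‖V p‖ := by rw [hVH p hpb]
    _ ≤ Real.exp C₀ * ‖H p‖ := (hHV p hpb).2
    _ ≤ Real.exp C₀ * (κ * Real.exp (C₂ * (1 + J1 + J2) - C₀)) := by gcongr
    _ = κ * E := by
      rw [hE, mul_left_comm, ← Real.exp_add]
      congr 2
      ring

end Pool.Agent.N273.LT
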