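import Pool.Agent.N273.LT.Defs
import Pool.Agent.H352R4.CA.Sim
import Pool.Agent.H352R3.SA.Bnd

/-!
# The similarity principle
-/

set_option autoImplicit false

open MeasureTheory Complex Metric Filter Topology Set
open scoped ComplexConjugate

namespace Pool.Agent.N273.LT

open Pool.Agent.H352R3.SA (pot pot_integrable pot_bound pot_holder)
open Pool.Agent.H761R2.SV (dbar)

/-- The cutoff function. -/
theorem cutoff : ∃ χ : ℂ → ℝ, ContDiff ℝ 1 χ ∧ (∀ z ∈ ball (0 : ℂ) 3, χ z = 1) ∧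
    (∀ z, 4 ≤ ‖z‖ → χ z = 0) ∧ (∀ z, 0 ≤ χ z) ∧ (∀ z, χ z ≤ 1) := by
  let b : ContDiffBump (0 : ℂ) := ⟨3, 4, by norm_num, by norm_num⟩
  exact ⟨b, b.contDiff, fun z hz => b.one_of_mem_closedBall (ball_subset_closedBall hz),
    fun z hz => b.zero_of_le_dist (by simpa using hz), fun z => b.nonneg, fun z => b.le_one⟩

theorem far_nhds {z : ℂ} (hz : z ∉ ball (0 : ℂ) 5) : {w : ℂ | 4 < ‖w‖} ∈ 𝓝 z := by
  refine (isOpen_lt continuous_const continuous_norm).mem_nhds ?_
  rw [mem_ball_zero_iff, not_lt] at hz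
  show (4 : ℝ) < ‖z‖
  linarith

theorem cont_cut {χ : ℂ → ℂ} (hχ : Continuous χ) (h0 : ∀ z, 4 ≤ ‖z‖ → χ z = 0) {f : ℂ → ℂ}
    (hf : ContinuousOn f (ball 0 5)) : Continuous fun z => χ z * f z := by
  rw [continuous_iff_continuousAt]
  intro z
  by_cases hz : z ∈ ball (0 : ℂ) 5
  · exact hχ.continuousAt.mul (hf.continuousAt (isOpen_ball.mem_nhds hz))
  · have h1 : ∀ᶠ w in 𝓝 z, (0 : ℂ) = χ w * f w := by
      filter_upwards [far_nhds hz] with w hw
      rw [h0 w (le_of_lt hw), zero_mul]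
    exact continuousAt_const.congr h1

theorem diff_cut {χ : ℂ → ℂ} (hχ : ContDiff ℝ 1 χ) (h0 : ∀ z, 4 ≤ ‖z‖ → χ z = 0) {f : ℂ → ℂ}
    (hf : ContDiffOn ℝ 1 f (ball 0 5)) : ContDiff ℝ 1 fun z => χ z * f z := by
  rw [contDiff_iff_contDiffAt]
  intro z
  by_cases hz : z ∈ ball (0 : ℂ) 5
  · exact hχ.contDiffAt.mul (hf.contDiffAt (isOpen_ball.mem_nhds hz))
  · have h1 : (fun z => χ z * f z) =ᶠ[𝓝 z] fun _ => (0 : ℂ) := by
      filter_upwards [far_nhds hz] with w hw
      rw [h0 w (le_of_lt hw), zero_mul]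
    exact contDiffAt_const.congr_of_eventuallyEq h1

theorem hcs4 {φ : ℂ → ℂ} (h : ∀ z, 4 < ‖z‖ → φ z = 0) : HasCompactSupport φ := by
  apply HasCompactSupport.of_support_subset_isCompact (isCompact_closedBall (0 : ℂ) 4)
  intro w hw
  by_contra hn
  apply hw
  apply h
  simpa using hn

/-- Potentials of bounded functions supported off the disc are holomorphic in it. -/
theorem pot_holo {θ Ψ : ℂ → ℂ} (hm : Measurable θ) (hΨ : Continuous Ψ) (cΨ : HasCompactSupport Ψ)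
    (hb : ∀ w, ‖θ w‖ ≤ ‖Ψ w‖) (h0 : ∀ w ∈ ball (0 : ℂ) 3, θ w = 0) :
    DifferentiableOn ℂ (pot θ) (ball 0 3) := by
  intro z₀ hz₀
  refine DifferentiableAt.differentiableWithinAt ?_
  have hz₀' : ‖z₀‖ < 3 := mem_ball_zero_iff.1 hz₀
  set δ := (3 - ‖z₀‖) / 2 with hδ
  have hδ0 : 0 < δ := by rw [hδ]; linarith
  have hlow : ∀ z ∈ ball z₀ δ, ∀ w : ℂ, 3 ≤ ‖w‖ → δ ≤ ‖z - w‖ := by
    intro z hz w hw
    rw [mem_ball, dist_eq_norm] at hz
    have e1 : ‖w‖ ≤ ‖z - w‖ + ‖z‖ := by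
      have := norm_sub_le z (z - w)
      rw [sub_sub_cancel] at this
      linarith
    have e2 : ‖z‖ ≤ ‖z - z₀‖ + ‖z₀‖ := by
      have := norm_add_le (z - z₀) z₀
      rwa [sub_add_cancel] at this
    linarith
  have hi : Integrable (fun w => θ w * (z₀ - w)⁻¹) := by
    refine (pot_integrable hΨ cΨ z₀).mono (Measurable.aestronglyMeasurable (by fun_prop))
      (Eventually.of_forall fun w => ?_)
    rw [norm_mul, norm_mul]
    exact mul_le_mul_of_nonneg_right (hb w) (norm_nonneg _)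
  have key := hasDerivAt_integral_of_dominated_loc_of_deriv_le (μ := (volume : Measure ℂ))
    (F := fun z w => θ w * (z - w)⁻¹) (F' := fun z w => θ w * -((z - w) ^ 2)⁻¹) (x₀ := z₀)
    (s := ball z₀ δ) (bound := fun w => ‖Ψ w‖ * (δ ^ 2)⁻¹) (ball_mem_nhds z₀ hδ0)
    (Eventually.of_forall fun z => Measurable.aestronglyMeasurable (by fun_prop)) hi
    (Measurable.aestronglyMeasurable (by fun_prop)) (Eventually.of_forall fun w z hz => ?_)
    ((hΨ.integrable_of_hasCompactSupport cΨ).norm.mul_const _)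
    (Eventually.of_forall fun w z hz => ?_)
  · exact key.2.differentiableAt
  · rcases lt_or_ge ‖w‖ 3 with hw | hw
    · rw [h0 w (mem_ball_zero_iff.2 hw), zero_mul, norm_zero]
      positivity
    · rw [norm_mul, norm_neg, norm_inv, norm_pow]
      refine mul_le_mul (hb w) ?_ (by positivity) (norm_nonneg _)
      have h1 := hlow z hz w hw
      gcongr
  · rcases lt_or_ge ‖w‖ 3 with hw | hw
    · rw [h0 w (mem_ball_zero_iff.2 hw)]
      simp only [zero_mul]
      exact hasDerivAt_const _ _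
    · have h1 := hlow z hz w hw
      have h2 : z - w ≠ 0 := norm_pos_iff.1 (lt_of_lt_of_le hδ0 h1)
      have h3 := (((hasDerivAt_id z).sub_const w).inv h2).const_mul (θ w)
      refine h3.congr_deriv ?_
      simp only [id]
      rw [neg_div, one_div]

theorem stSim : StSim := by
  obtain ⟨χ, hχd, hχ1, hχ0, hχn, hχl⟩ := cutoff
  obtain ⟨C, hC0, hC⟩ := pot_bound 4
  obtain ⟨C', hC'0, hC'⟩ := pot_holder 4
  have hpi := Real.pi_pos
  have hpi' : (0 : ℝ) ≤ Real.pi⁻¹ := by positivity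
  refine ⟨C * Real.pi⁻¹, by positivity, ?_⟩
  intro V q hV hq hq1 hpde
  set X : ℂ → ℂ := fun z => (χ z : ℂ) with hX
  have hXd : ContDiff ℝ 1 X := Complex.ofRealCLM.contDiff.comp hχd
  have hXc : Continuous X := hXd.continuous
  have hX0 : ∀ z, 4 ≤ ‖z‖ → X z = 0 := fun z hz => by simp [hX, hχ0 z hz]
  have hX1 : ∀ z ∈ ball (0 : ℂ) 3, X z = 1 := fun z hz => by simp [hX, hχ1 z hz]
  have hXn : ∀ z, ‖X z‖ ≤ 1 := fun z => by
    rw [hX, Complex.norm_real, Real.norm_of_nonneg (hχn z)]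
    exact hχl z
  have hVc : ContinuousOn V (ball 0 5) := hV.continuousOn
  set W : ℂ → ℂ := fun z => X z * V z with hW
  have hWd : ContDiff ℝ 1 W := diff_cut hXd hX0 hV
  have hW0 : ∀ z, 4 ≤ ‖z‖ → W z = 0 := fun z hz => by simp [hW, hX0 z hz]
  have hWs : HasCompactSupport W := hcs4 fun z hz => hW0 z hz.le
  set φ : ℂ → ℂ := fun z => (Real.pi : ℂ)⁻¹ * dbar W z with hφ
  have hφc : Continuous φ := continuous_const.mul (Pool.Agent.H761R2.SV.continuous_dbar hWd)
  have hφ0 : ∀ z, 4 < ‖z‖ → φ z = 0 := by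
    intro z hz
    have h1 : W =ᶠ[𝓝 z] fun _ => (0 : ℂ) := by
      filter_upwards [(isOpen_lt continuous_const continuous_norm).mem_nhds hz] with w hw
      exact hW0 w (le_of_lt hw)
    rw [hφ]
    simp only [dbar, h1.fderiv_eq]
    simp
  have hφs : HasCompactSupport φ := hcs4 hφ0
  have hpot : ∀ z, pot φ z = W z := by
    intro z
    rw [hφ, Pool.Agent.H352R4.CA.SimAux.pot_cmul]
    unfold pot
    rw [Pool.Agent.H761R2.SV.pompeiu_compact hWd hWs z, ← mul_assoc, inv_mul_cancel₀, one_mul]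
    exact_mod_cast hpi.ne'
  have hφ3 : ∀ z ∈ ball (0 : ℂ) 3, φ z = (Real.pi : ℂ)⁻¹ * (q z * conj (V z)) := by
    intro z hz
    have h1 : W =ᶠ[𝓝 z] V := by
      filter_upwards [isOpen_ball.mem_nhds hz] with w hw
      rw [hW]
      simp only
      rw [hX1 w hw, one_mul]
    rw [hφ]
    simp only [dbar, h1.fderiv_eq]
    rw [← hpde z (ball_subset_ball (by norm_num) hz)]
    rfl
  -- the approximations
  set f : ℕ → ℂ → ℂ := fun n z => q z * conj (V z) ^ 2 *
    (((‖V z‖ ^ 2 + 1 / ((n : ℝ) + 1) : ℝ)) : ℂ)⁻¹ with hf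
  set f' : ℂ → ℂ := fun z => q z * conj (V z) ^ 2 * ((‖V z‖ ^ 2 : ℝ) : ℂ)⁻¹ with hf'
  set u : ℕ → ℂ → ℂ := fun n z => (Real.pi : ℂ)⁻¹ * (X z * f n z) with hu
  set u' : ℂ → ℂ := fun z => (Real.pi : ℂ)⁻¹ * (X z * f' z) with hu'
  have hden : ∀ (n : ℕ) z, 0 < ‖V z‖ ^ 2 + 1 / ((n : ℝ) + 1) := fun n z => by positivity
  have hfc : ∀ n, ContinuousOn (f n) (ball 0 5) := by
    intro n
    refine (hq.mul ((Complex.continuous_conj.comp_continuousOn hVc).pow 2)).mul ?_
    refine ContinuousOn.inv₀ ?_ fun z _ => ?_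
    · exact Complex.continuous_ofReal.comp_continuousOn ((hVc.norm.pow 2).add continuousOn_const)
    · exact_mod_cast (hden n z).ne'
  have huc : ∀ n, Continuous (u n) := fun n => continuous_const.mul (cont_cut hXc hX0 (hfc n))
  have hu0 : ∀ n z, 4 < ‖z‖ → u n z = 0 := fun n z hz => by simp [hu, hX0 z hz.le]
  have hus : ∀ n, HasCompactSupport (u n) := fun n => hcs4 (hu0 n)
  have hfb : ∀ n, ∀ z ∈ ball (0 : ℂ) 5, ‖f n z‖ ≤ 1 := by
    intro n z hz
    have h1 := hden n z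
    rw [hf]
    simp only
    rw [norm_mul, norm_mul, norm_pow, RCLike.norm_conj, norm_inv, Complex.norm_real,
      Real.norm_of_nonneg h1.le]
    have h2 : ‖V z‖ ^ 2 * (‖V z‖ ^ 2 + 1 / ((n : ℝ) + 1))⁻¹ ≤ 1 := by
      rw [← div_eq_mul_inv, div_le_one h1]
      have : 0 ≤ 1 / ((n : ℝ) + 1) := by positivity
      linarith
    have h3 := hq1 z hz
    calc ‖q z‖ * ‖V z‖ ^ 2 * (‖V z‖ ^ 2 + 1 / ((n : ℝ) + 1))⁻¹
        = ‖q z‖ * (‖V z‖ ^ 2 * (‖V z‖ ^ 2 + 1 / ((n : ℝ) + 1))⁻¹) := by ring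
      _ ≤ 1 * 1 := mul_le_mul h3 h2 (by positivity) zero_le_one
      _ = 1 := one_mul 1
  have hub : ∀ n z, ‖u n z‖ ≤ ‖(Real.pi : ℂ)⁻¹ * X z‖ := by
    intro n z
    rw [hu]
    simp only
    rw [← mul_assoc, norm_mul]
    by_cases hz : z ∈ ball (0 : ℂ) 5
    · exact mul_le_of_le_one_right (norm_nonneg _) (hfb n z hz)
    · rw [mem_ball_zero_iff, not_lt] at hz
      rw [hX0 z (by linarith)]
      simp
  have hpin : ‖(Real.pi : ℂ)⁻¹‖ = Real.pi⁻¹ := by
    rw [norm_inv, Complex.norm_real, Real.norm_of_nonneg hpi.le]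
  have hub' : ∀ n z, ‖u n z‖ ≤ Real.pi⁻¹ := by
    intro n z
    refine (hub n z).trans ?_
    rw [norm_mul, hpin]
    exact mul_le_of_le_one_right hpi' (hXn z)
  have hut : ∀ z, Tendsto (fun n => u n z) atTop (𝓝 (u' z)) := by
    intro z
    by_cases hVz : V z = 0
    · have e1 : ∀ n, u n z = 0 := fun n => by simp [hu, hf, hVz]
      have e2 : u' z = 0 := by simp [hu', hf', hVz]
      simp only [e1, e2]
      exact tendsto_const_nhds
    · refine Tendsto.const_mul _ (Tendsto.const_mul _ (Tendsto.const_mul _ ?_))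
      refine Tendsto.inv₀ ?_ ?_
      · refine (Complex.continuous_ofReal.tendsto _).comp ?_
        have h1 := tendsto_one_div_add_atTop_nhds_zero_nat (𝕜 := ℝ)
        have h2 := h1.const_add (‖V z‖ ^ 2)
        rwa [add_zero] at h2
      · have : 0 < ‖V z‖ := norm_pos_iff.2 hVz
        exact_mod_cast (pow_pos this 2).ne'
  -- the limit of the potentials
  have hΨ₁c : Continuous fun z => (Real.pi : ℂ)⁻¹ * X z := continuous_const.mul hXc
  have hΨ₁s : HasCompactSupport fun z => (Real.pi : ℂ)⁻¹ * X z :=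
    hcs4 fun z hz => by simp [hX0 z hz.le]
  have hpt : ∀ z, Tendsto (fun n => pot (u n) z) atTop (𝓝 (pot u' z)) := by
    intro z
    unfold pot
    refine tendsto_integral_of_dominated_convergence
      (fun w => ‖(Real.pi : ℂ)⁻¹ * X w * (z - w)⁻¹‖)
      (fun n => (pot_integrable (huc n) (hus n) z).aestronglyMeasurable)
      (pot_integrable hΨ₁c hΨ₁s z).norm (fun n => Eventually.of_forall fun w => ?_)
      (Eventually.of_forall fun w => (hut w).mul_const _)
    rw [norm_mul, norm_mul _ ((z - w)⁻¹)]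
    exact mul_le_mul_of_nonneg_right (hub n w) (norm_nonneg _)
  set S : ℂ → ℂ := pot u' with hS
  have hSn : ∀ n z, ‖pot (u n) z‖ ≤ C * Real.pi⁻¹ := fun n z =>
    hC (u n) Real.pi⁻¹ (huc n) (hu0 n) (hub' n) z
  have hSb : ∀ z, ‖S z‖ ≤ C * Real.pi⁻¹ := fun z =>
    le_of_tendsto (hpt z).norm (Eventually.of_forall fun n => hSn n z)
  have hSh : ∀ z z', ‖S z - S z'‖ ≤ C' * Real.pi⁻¹ * ‖z - z'‖ ^ (1 / 2 : ℝ) := fun z z' =>
    le_of_tendsto ((hpt z).sub (hpt z')).norm (Eventually.of_forall fun n =>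
      hC' (u n) Real.pi⁻¹ (huc n) (hu0 n) (hub' n) z z')
  have hSc : Continuous S := by
    rw [continuous_iff_continuousAt]
    intro z₀
    rw [ContinuousAt, tendsto_iff_norm_sub_tendsto_zero]
    have h1 : Tendsto (fun z : ℂ => C' * Real.pi⁻¹ * ‖z - z₀‖ ^ (1 / 2 : ℝ)) (𝓝 z₀) (𝓝 0) := by
      have h2 : Continuous fun z : ℂ => C' * Real.pi⁻¹ * ‖z - z₀‖ ^ (1 / 2 : ℝ) := by
        refine continuous_const.mul (Continuous.rpow_const (by fun_prop) fun z => Or.inr (by norm_num))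
      have h3 := h2.tendsto z₀
      simpa using h3
    exact squeeze_zero (fun z => norm_nonneg _) (fun z => hSh z z₀) h1
  -- the holomorphic function
  set θ : ℕ → ℂ → ℂ := fun n w => (φ w - (0 + pot φ w) * u n w) * exp (-pot (u n) w) with hθ
  set θ' : ℂ → ℂ := fun w => (φ w - (0 + pot φ w) * u' w) * exp (-S w) with hθ'
  have hpotc : Continuous (pot φ) := Pool.Agent.H352R3.SA.pot_continuous hφc hφs
  have hθc : ∀ n, Continuous (θ n) := by
    intro n
    refine (hφc.sub ((continuous_const.add hpotc).mul (huc n))).mul ?_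
    exact Complex.continuous_exp.comp (Pool.Agent.H352R3.SA.pot_continuous (huc n) (hus n)).neg
  have hθs : ∀ n, HasCompactSupport (θ n) := fun n => hcs4 fun z hz => by
    simp [hθ, hφ0 z hz, hu0 n z hz]
  have hθt : ∀ w, Tendsto (fun n => θ n w) atTop (𝓝 (θ' w)) := by
    intro w
    refine Tendsto.mul ((tendsto_const_nhds).sub ((hut w).const_mul _)) ?_
    exact (Complex.continuous_exp.tendsto _).comp (hpt w).neg
  set Ψ : ℂ → ℂ := fun w => (((‖φ w‖ + ‖pot φ w‖ * Real.pi⁻¹) * Real.exp (C * Real.pi⁻¹) : ℝ) : ℂ)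
    with hΨ
  have hΨc : Continuous Ψ := Complex.continuous_ofReal.comp
    ((hφc.norm.add (hpotc.norm.mul continuous_const)).mul continuous_const)
  have hΨs : HasCompactSupport Ψ := hcs4 fun z hz => by
    simp [hΨ, hφ0 z hz, hpot z, hW0 z hz.le]
  have hΨn : ∀ w, ‖Ψ w‖ = (‖φ w‖ + ‖pot φ w‖ * Real.pi⁻¹) * Real.exp (C * Real.pi⁻¹) := fun w => by
    rw [hΨ, Complex.norm_real, Real.norm_of_nonneg (by positivity)]
  have hθb : ∀ n w, ‖θ n w‖ ≤ ‖Ψ w‖ := by
    intro n w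
    rw [hΨn, hθ]
    simp only [zero_add]
    rw [norm_mul, Complex.norm_exp]
    refine mul_le_mul ?_ (Real.exp_le_exp.2 ?_) (Real.exp_pos _).le (by positivity)
    · refine (norm_sub_le _ _).trans (add_le_add le_rfl ?_)
      rw [norm_mul]
      exact mul_le_mul_of_nonneg_left (hub' n w) (norm_nonneg _)
    · refine (Complex.re_le_norm _).trans ?_
      rw [norm_neg]
      exact hSn n w
  have hθ'b : ∀ w, ‖θ' w‖ ≤ ‖Ψ w‖ := fun w =>
    le_of_tendsto (hθt w).norm (Eventually.of_forall fun n => hθb n w)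
  have hpt2 : ∀ z, Tendsto (fun n => pot (θ n) z) atTop (𝓝 (pot θ' z)) := by
    intro z
    unfold pot
    refine tendsto_integral_of_dominated_convergence
      (fun w => ‖Ψ w * (z - w)⁻¹‖)
      (fun n => (pot_integrable (hθc n) (hθs n) z).aestronglyMeasurable)
      (pot_integrable hΨc hΨs z).norm (fun n => Eventually.of_forall fun w => ?_)
      (Eventually.of_forall fun w => (hθt w).mul_const _)
    rw [norm_mul, norm_mul _ ((z - w)⁻¹)]
    exact mul_le_mul_of_nonneg_right (hθb n w) (norm_nonneg _)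
  have hkey : ∀ z, W z * exp (-S z) = pot θ' z := by
    intro z
    have h1 : ∀ n, W z * exp (-pot (u n) z) = pot (θ n) z := by
      intro n
      have h2 := Pool.Agent.H352R4.CA.pot_exp hφc hφs (huc n) (hus n) 0 z
      rw [zero_add, zero_add, hpot] at h2
      exact h2
    have h3 : Tendsto (fun n => W z * exp (-pot (u n) z)) atTop (𝓝 (W z * exp (-S z))) :=
      ((Complex.continuous_exp.tendsto _).comp (hpt z).neg).const_mul _
    simp only [h1] at h3
    exact tendsto_nhds_unique h3 (hpt2 z)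
  have hθ'm : Measurable θ' :=
    measurable_of_tendsto_metrizable (fun n => (hθc n).measurable) (tendsto_pi_nhds.2 hθt)
  have hθ'0 : ∀ w ∈ ball (0 : ℂ) 3, θ' w = 0 := by
    intro w hw
    have h1 : φ w - (0 + pot φ w) * u' w = 0 := by
      rw [zero_add, hpot, hφ3 w hw, hu', hW, hf']
      simp only
      rw [hX1 w hw]
      by_cases hVw : V w = 0
      · simp [hVw]
      · have h2 : ((‖V w‖ ^ 2 : ℝ) : ℂ) = V w * conj (V w) := by
          rw [Complex.mul_conj, Complex.normSq_eq_norm_sq]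
        have h3 : conj (V w) ≠ 0 := by simpa using hVw
        rw [h2]
        field_simp
        ring
    rw [hθ']
    simp only
    rw [h1, zero_mul]
  refine ⟨pot θ', S, pot_holo hθ'm hΨc hΨs hθ'b hθ'0, hSc, hSb, fun z hz => ?_⟩
  rw [← hkey z, hW]
  simp only
  rw [hX1 z hz, one_mul, mul_comm, mul_assoc, ← exp_add, neg_add_cancel, exp_zero, mul_one]

end Pool.Agent.N273.LT
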