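import Pool.Agent.N273.LT.Wk4

/-!
# The complex function: conclusion
-/

set_option autoImplicit false

open MeasureTheory Complex Function Metric Set
open scoped ComplexConjugate

namespace Pool.Agent.N273.LT

open Pool.Agent.R220.LV (contDiff_one_of par_cont int_add swap)
open Pool.Agent.Y291.PA (Sol2 cacc2)
open Pool.Agent.H761R2.SV (dbar)

theorem ex_inv_deriv {a : ℝ → ℝ} (ha : Continuous a) (x : ℝ) :
    HasDerivAt (fun x => (ex a x)⁻¹) (-(a x * (ex a x)⁻¹)) x := by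
  have h0 := (ex_pos a x).ne'
  have h1 := (ex_deriv ha x).inv h0
  refine h1.congr_deriv ?_
  field_simp

/-- The good base line. -/
theorem base_line {m : ℝ → ℝ} (hm : Continuous m) (y₀ : ℝ) :
    ∃ y₁ ∈ Icc (y₀ - 1 / 2) (y₀ + 1 / 2), m y₁ ≤ ∫ y in (y₀ - 1 / 2)..(y₀ + 1 / 2), m y := by
  obtain ⟨y₁, hy₁, hmin⟩ := (isCompact_Icc (a := y₀ - 1 / 2) (b := y₀ + 1 / 2)).exists_isMinOn
    ⟨y₀, by linarith, by linarith⟩ hm.continuousOn
  refine ⟨y₁, hy₁, ?_⟩
  have h1 : ∫ _ in (y₀ - 1 / 2)..(y₀ + 1 / 2), m y₁ ≤ ∫ y in (y₀ - 1 / 2)..(y₀ + 1 / 2), m y :=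
    intervalIntegral.integral_mono_on (by linarith) (continuous_const.intervalIntegrable _ _)
      (hm.intervalIntegrable _ _) fun y hy => hmin hy
  rw [intervalIntegral.integral_const] at h1
  have h2 : y₀ + 1 / 2 - (y₀ - 1 / 2) = 1 := by ring
  rwa [h2, one_smul] at h1

/-- The energy bounds. -/
theorem energy {F G : ℝ → ℝ} {Φ Φx Φxx Φy Φyy : ℝ → ℝ → ℝ}
    (hF : ∀ x, |F x| ≤ 1 / 100) (hG : ∀ y, |G y| ≤ 1 / 100)
    (hS : Sol2 (fun x y => F x + G y) Φ Φx Φxx Φy Φyy) {x₀ y₀ κ : ℝ}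
    (hκ : ∀ x y, |x - x₀| ≤ 1 → |y - y₀| ≤ 1 → |Φ x y| ≤ κ) :
    (∫ x in (x₀ - 1 / 2)..(x₀ + 1 / 2), ∫ y in (y₀ - 1 / 2)..(y₀ + 1 / 2), Φx x y ^ 2) ≤
      130 * κ ^ 2 ∧
    (∫ y in (y₀ - 1 / 2)..(y₀ + 1 / 2), ∫ x in (x₀ - 1 / 2)..(x₀ + 1 / 2), Φy x y ^ 2) ≤
      130 * κ ^ 2 := by
  have gen : ∀ {q φ φx φxx φy φyy : ℝ → ℝ → ℝ} (_ : Sol2 q φ φx φxx φy φyy) (x₀ y₀ : ℝ)
      (_ : ∀ x y, |x - x₀| ≤ 1 → |y - y₀| ≤ 1 → |φ x y| ≤ κ) (_ : ∀ x y, q x y ≤ 1 / 50),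
      (∫ x in (x₀ - 1 / 2)..(x₀ + 1 / 2), ∫ y in (y₀ - 1 / 2)..(y₀ + 1 / 2), φx x y ^ 2) ≤
      130 * κ ^ 2 := by
    intro q φ φx φxx φy φyy h x₀ y₀ hκ hq
    have h1 := cacc2 h one_pos hκ hq (by norm_num)
    have h2 : (∫ x in (x₀ - 1 / 2)..(x₀ + 1 / 2), ∫ y in (y₀ - 1 / 2)..(y₀ + 1 / 2),
        φx x y ^ 2) ≤ ∫ x in (x₀ - 1 / 2)..(x₀ + 1 / 2), ∫ y in (y₀ - 1 / 2)..(y₀ + 1 / 2),
        (φ x y ^ 2 + 1 ^ 2 * φx x y ^ 2) := by
      have k1 : Continuous (uncurry fun x y => φx x y ^ 2) := h.cx.pow 2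
      have k2 : Continuous (uncurry fun x y => φ x y ^ 2 + 1 ^ 2 * φx x y ^ 2) :=
        (h.c.pow 2).add (continuous_const.mul (h.cx.pow 2))
      refine intervalIntegral.integral_mono_on (by linarith)
        ((par_cont k1 _ _).intervalIntegrable _ _) ((par_cont k2 _ _).intervalIntegrable _ _)
        fun x _ => ?_
      refine intervalIntegral.integral_mono_on (by linarith)
        ((k1.comp (Continuous.prodMk_right x)).intervalIntegrable _ _)
        ((k2.comp (Continuous.prodMk_right x)).intervalIntegrable _ _) fun y _ => ?_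
      nlinarith [sq_nonneg (φ x y)]
    refine (h2.trans h1).trans ?_
    nlinarith [sq_nonneg κ]
  constructor
  · exact gen hS x₀ y₀ hκ fun x y => by
      have h1 := (abs_le.1 (hF x)).2
      have h2 := (abs_le.1 (hG y)).2
      linarith
  · exact gen (Sol2.swap' hS) y₀ x₀ (fun x y hx hy => hκ y x hy hx) fun x y => by
      have h1 := (abs_le.1 (hF y)).2
      have h2 := (abs_le.1 (hG x)).2
      linarith

/-- The integral over a disc of a function bounded on vertical lines. -/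
theorem ball_le {v : ℂ → ℝ} (hv : Continuous v) (hv0 : ∀ z, 0 ≤ v z) {x₀ y₀ : ℝ} {g : ℝ → ℝ}
    (hg : Continuous g) (h : ∀ x ∈ Icc (x₀ - 1 / 2) (x₀ + 1 / 2),
      ∀ y ∈ Icc (y₀ - 1 / 2) (y₀ + 1 / 2), v (x + y * I) ≤ g x) :
    ∫ z in ball ((x₀ : ℂ) + y₀ * I) (1 / 2), v z ≤ ∫ x in (x₀ - 1 / 2)..(x₀ + 1 / 2), g x := by
  set F : ℂ → ℝ := (ball ((x₀ : ℂ) + y₀ * I) (1 / 2)).indicator v with hF
  have hFi : Integrable F := by
    rw [hF, integrable_indicator_iff measurableSet_ball]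
    exact (hv.continuousOn.integrableOn_compact (isCompact_closedBall _ _)).mono_set
      ball_subset_closedBall
  obtain ⟨h1, h2⟩ := plane hFi
  rw [← integral_indicator measurableSet_ball, h2]
  have hgi : Integrable ((Icc (x₀ - 1 / 2) (x₀ + 1 / 2)).indicator g) :=
    (integrable_indicator_iff measurableSet_Icc).2
      (hg.continuousOn.integrableOn_compact isCompact_Icc)
  have h3 : ∫ x in (x₀ - 1 / 2)..(x₀ + 1 / 2), g x =
      ∫ x, (Icc (x₀ - 1 / 2) (x₀ + 1 / 2)).indicator g x := by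
    rw [integral_indicator measurableSet_Icc, intervalIntegral.integral_of_le (by linarith),
      integral_Icc_eq_integral_Ioc]
  have hF0 : ∀ z, 0 ≤ F z := fun z => indicator_nonneg (fun z _ => hv0 z) z
  rw [h3]
  refine integral_mono h1.integral_prod_left hgi fun x => ?_
  simp only
  have habs : ∀ y : ℝ, (x : ℂ) + y * I ∈ ball ((x₀ : ℂ) + y₀ * I) (1 / 2) →
      |x - x₀| < 1 / 2 ∧ |y - y₀| < 1 / 2 := by
    intro y hy
    rw [mem_ball, dist_eq_norm] at hy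
    have e : (x : ℂ) + y * I - (x₀ + y₀ * I) = ((x - x₀ : ℝ) : ℂ) + ((y - y₀ : ℝ) : ℂ) * I := by
      push_cast
      ring
    rw [e] at hy
    have e1 := Complex.abs_re_le_norm (((x - x₀ : ℝ) : ℂ) + ((y - y₀ : ℝ) : ℂ) * I)
    have e2 := Complex.abs_im_le_norm (((x - x₀ : ℝ) : ℂ) + ((y - y₀ : ℝ) : ℂ) * I)
    simp only [add_re, ofReal_re, mul_re, I_re, mul_zero, ofReal_im, I_im, mul_one, sub_self,
      add_zero, add_im, mul_im, zero_add] at e1 e2
    exact ⟨lt_of_le_of_lt e1 hy, lt_of_le_of_lt e2 hy⟩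
  by_cases hx : x ∈ Icc (x₀ - 1 / 2) (x₀ + 1 / 2)
  · rw [indicator_of_mem hx]
    have hgx : 0 ≤ g x := (hv0 _).trans (h x hx y₀ ⟨by linarith, by linarith⟩)
    have h4 : ∫ y : ℝ, F (x + y * I) ≤
        ∫ y : ℝ, (Icc (y₀ - 1 / 2) (y₀ + 1 / 2)).indicator (fun _ => g x) y := by
      refine integral_mono_of_nonneg (Filter.Eventually.of_forall fun y => hF0 _)
        ((integrable_indicator_iff measurableSet_Icc).2 continuous_const.integrableOn_Icc)
        (Filter.Eventually.of_forall fun y => ?_)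
      simp only
      by_cases hy : (x : ℂ) + y * I ∈ ball ((x₀ : ℂ) + y₀ * I) (1 / 2)
      · have h5 := (abs_lt.1 (habs y hy).2)
        have h6 : y ∈ Icc (y₀ - 1 / 2) (y₀ + 1 / 2) := ⟨by linarith [h5.1], by linarith [h5.2]⟩
        rw [hF, indicator_of_mem hy, indicator_of_mem h6]
        exact h x hx y h6
      · rw [hF, indicator_of_notMem hy]
        exact indicator_nonneg (fun _ _ => hgx) y
    refine h4.trans (le_of_eq ?_)
    rw [integral_indicator measurableSet_Icc, setIntegral_const, Real.volume_real_Icc_of_le (by linarith)]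
    have h7 : y₀ + 1 / 2 - (y₀ - 1 / 2) = 1 := by ring
    rw [h7, one_smul]
  · rw [indicator_of_notMem hx]
    have h4 : ∀ y : ℝ, F (x + y * I) = 0 := by
      intro y
      rw [hF, indicator_of_notMem]
      intro hy
      have h5 := (abs_lt.1 (habs y hy).1)
      exact hx ⟨by linarith [h5.1], by linarith [h5.2]⟩
    simp only [h4, integral_zero, le_refl]

theorem stW : StW := by
  refine ⟨1 + 4 * Real.exp 4 * 261, by positivity, ?_⟩
  intro F G Φ Φx Φxx Φy Φyy hF hG bF bG hS x₀ y₀ κ hx₀ hy₀ hκ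
  obtain ⟨a, ha, ba, da⟩ := riccati hF bF
  obtain ⟨c, hc, bc, dc⟩ := riccati hG bG
  have hx₀' := abs_le.1 hx₀
  have hy₀' := abs_le.1 hy₀
  have hΦ : Continuous fun p : ℝ × ℝ => Φ p.1 p.2 := hS.c
  have hΦx : Continuous fun p : ℝ × ℝ => Φx p.1 p.2 := hS.cx
  have hΦy : Continuous fun p : ℝ × ℝ => Φy p.1 p.2 := hS.cy
  obtain ⟨en1, en2⟩ := energy bF bG hS hκ
  -- the base line
  have cm0 : Continuous (uncurry fun y x => Φy x y ^ 2) := (hS.cy.pow 2).comp continuous_swap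
  have cm : Continuous fun y => ∫ x in (x₀ - 1 / 2)..(x₀ + 1 / 2), Φy x y ^ 2 :=
    par_cont cm0 _ _
  have cn0 : Continuous (uncurry fun x y => Φx x y ^ 2) := hS.cx.pow 2
  have cn : Continuous fun x => ∫ y in (y₀ - 1 / 2)..(y₀ + 1 / 2), Φx x y ^ 2 :=
    par_cont cn0 _ _
  obtain ⟨y₁, hy₁, hm⟩ := base_line cm y₀
  obtain ⟨s, sx, sy, csx, csy, dsx, dsy, hs⟩ := stream hF hS ha hc da dc (x₀ := x₀) (y₁ := y₁)
    ⟨by linarith, by linarith⟩ ⟨by linarith [hy₁.1], by linarith [hy₁.2]⟩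
  have cA := ex_cont ha
  have cB := ex_cont hc
  have cAi : Continuous fun x => (ex a x)⁻¹ := cA.inv₀ fun x => (ex_pos a x).ne'
  have cBi : Continuous fun x => (ex c x)⁻¹ := cB.inv₀ fun x => (ex_pos c x).ne'
  have cs : Continuous (uncurry s) := (contDiff_one_of csx csy dsx dsy).2.continuous
  set R : ℝ → ℝ → ℝ := fun x y => s x y * ((ex a x)⁻¹ * (ex c y)⁻¹) with hR
  set Rx : ℝ → ℝ → ℝ := fun x y => sx x y * ((ex a x)⁻¹ * (ex c y)⁻¹) - a x * R x y with hRx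
  set Ry : ℝ → ℝ → ℝ := fun x y => sy x y * ((ex a x)⁻¹ * (ex c y)⁻¹) - c y * R x y with hRy
  have cw : Continuous fun p : ℝ × ℝ => (ex a p.1)⁻¹ * (ex c p.2)⁻¹ :=
    (cAi.comp continuous_fst).mul (cBi.comp continuous_snd)
  have cR : Continuous (uncurry R) := cs.mul cw
  have cRx : Continuous (uncurry Rx) :=
    (csx.mul cw).sub ((ha.comp continuous_fst).mul cR)
  have cRy : Continuous (uncurry Ry) :=
    (csy.mul cw).sub ((hc.comp continuous_snd).mul cR)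
  have dRx : ∀ x y, HasDerivAt (fun t => R t y) (Rx x y) x := by
    intro x y
    have h1 := (dsx x y).mul ((ex_inv_deriv ha x).mul_const ((ex c y)⁻¹))
    refine h1.congr_deriv ?_
    simp only [hRx, hR]
    ring
  have dRy : ∀ x y, HasDerivAt (fun t => R x t) (Ry x y) y := by
    intro x y
    have h1 := (dsy x y).mul ((ex_inv_deriv hc y).const_mul ((ex a x)⁻¹))
    refine h1.congr_deriv ?_
    simp only [hRy, hR]
    ring
  obtain ⟨hVd, hVdb⟩ := cx_dbar hS.cx hS.cy hS.dx hS.dy cRx cRy dRx dRy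
  have hI : ∀ z ∈ ball (0 : ℂ) 5, z.re ∈ Ioo (-5 : ℝ) 5 ∧ z.im ∈ Ioo (-5 : ℝ) 5 := by
    intro z hz
    rw [mem_ball_zero_iff] at hz
    exact ⟨abs_lt.1 (lt_of_le_of_lt (Complex.abs_re_le_norm z) hz),
      abs_lt.1 (lt_of_le_of_lt (Complex.abs_im_le_norm z) hz)⟩
  refine ⟨cx Φ R, fun z => ((a z.re : ℂ) + (c z.im : ℂ) * I) / 2, hVd.contDiffOn, ?_, ?_, ?_, ?_, ?_⟩
  · refine Continuous.continuousOn ?_
    have h1 : Continuous fun z : ℂ => (a z.re : ℂ) :=
      Complex.continuous_ofReal.comp (ha.comp Complex.continuous_re)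
    have h2 : Continuous fun z : ℂ => (c z.im : ℂ) :=
      Complex.continuous_ofReal.comp (hc.comp Complex.continuous_im)
    exact (h1.add (h2.mul continuous_const)).div_const 2
  · intro z _
    rw [norm_div]
    have h1 : ‖(a z.re : ℂ) + (c z.im : ℂ) * I‖ ≤ |a z.re| + |c z.im| := by
      refine (norm_add_le _ _).trans ?_
      simp
    have h2 := ba z.re
    have h3 := bc z.im
    have h4 : ‖(2 : ℂ)‖ = 2 := by simp
    rw [h4]
    linarith
  · intro z hz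
    obtain ⟨hx, hy⟩ := hI z hz
    obtain ⟨e1, e2, -⟩ := hs z.re hx z.im hy
    rw [hVdb z]
    have hA := (ex_pos a z.re).ne'
    have hB := (ex_pos c z.im).ne'
    have e3 : Rx z.re z.im = c z.im * Φ z.re z.im - Φy z.re z.im - a z.re * R z.re z.im := by
      simp only [hRx]
      rw [e1]
      field_simp
    have e4 : Ry z.re z.im = Φx z.re z.im - a z.re * Φ z.re z.im - c z.im * R z.re z.im := by
      simp only [hRy]
      rw [e2]
      field_simp
    rw [e3, e4]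
    unfold cx
    simp only [map_add, map_mul, conj_I, conj_ofReal]
    push_cast
    linear_combination ((c z.im : ℂ) * (R z.re z.im : ℂ) / 2) * I_mul_I
  · intro z _
    unfold cx
    simp
  · -- the bound
    have hexp4 : Real.exp 4 = Real.exp 2 * Real.exp 2 := by rw [← Real.exp_add]; norm_num
    set g : ℝ → ℝ := fun x => κ ^ 2 + 4 * Real.exp 4 * (κ ^ 2 / 50 +
      (∫ ξ in (x₀ - 1 / 2)..(x₀ + 1 / 2), Φy ξ y₁ ^ 2) +
        ∫ t in (y₀ - 1 / 2)..(y₀ + 1 / 2), Φx x t ^ 2) with hg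
    have cg : Continuous g :=
      continuous_const.add (continuous_const.mul (continuous_const.add cn))
    have hle := ball_le (v := fun z => ‖cx Φ R z‖ ^ 2) (x₀ := x₀) (y₀ := y₀) (g := g)
      (hVd.continuous.norm.pow 2) (fun z => by positivity) cg (fun x hx y hy => ?_)
    · refine hle.trans ?_
      have l1 : x₀ + 1 / 2 - (x₀ - 1 / 2) = 1 := by ring
      have k1 : ∫ x in (x₀ - 1 / 2)..(x₀ + 1 / 2), g x = κ ^ 2 + 4 * Real.exp 4 * (κ ^ 2 / 50 +
          (∫ ξ in (x₀ - 1 / 2)..(x₀ + 1 / 2), Φy ξ y₁ ^ 2) +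
          ∫ x in (x₀ - 1 / 2)..(x₀ + 1 / 2), ∫ t in (y₀ - 1 / 2)..(y₀ + 1 / 2), Φx x t ^ 2) := by
        simp only [hg]
        have c1 : Continuous fun _ : ℝ => κ ^ 2 := continuous_const
        have c2 : Continuous fun _ : ℝ => κ ^ 2 / 50 +
          ∫ ξ in (x₀ - 1 / 2)..(x₀ + 1 / 2), Φy ξ y₁ ^ 2 := continuous_const
        have c3 : Continuous fun x => 4 * Real.exp 4 * (κ ^ 2 / 50 +
          (∫ ξ in (x₀ - 1 / 2)..(x₀ + 1 / 2), Φy ξ y₁ ^ 2) +
          ∫ t in (y₀ - 1 / 2)..(y₀ + 1 / 2), Φx x t ^ 2) := continuous_const.mul (c2.add cn)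
        rw [int_add c1 c3, intervalIntegral.integral_const_mul (4 * Real.exp 4), int_add c2 cn,
          intervalIntegral.integral_const, intervalIntegral.integral_const, l1, one_smul, one_smul]
      rw [k1]
      have k2 : (∫ ξ in (x₀ - 1 / 2)..(x₀ + 1 / 2), Φy ξ y₁ ^ 2) ≤ 130 * κ ^ 2 := hm.trans en2
      have k3 : κ ^ 2 / 50 + (∫ ξ in (x₀ - 1 / 2)..(x₀ + 1 / 2), Φy ξ y₁ ^ 2) +
          (∫ x in (x₀ - 1 / 2)..(x₀ + 1 / 2), ∫ t in (y₀ - 1 / 2)..(y₀ + 1 / 2), Φx x t ^ 2) ≤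
          261 * κ ^ 2 := by nlinarith [sq_nonneg κ]
      have k4 : 0 ≤ 4 * Real.exp 4 := by positivity
      have k5 := mul_le_mul_of_nonneg_left k3 k4
      calc κ ^ 2 + 4 * Real.exp 4 * _ ≤ κ ^ 2 + 4 * Real.exp 4 * (261 * κ ^ 2) := by
            exact add_le_add le_rfl k5
        _ = _ := by ring
    · -- pointwise
      have hx5 : x ∈ Ioo (-5 : ℝ) 5 := ⟨by linarith [hx.1], by linarith [hx.2]⟩
      have hy5 : y ∈ Ioo (-5 : ℝ) 5 := ⟨by linarith [hy.1], by linarith [hy.2]⟩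
      obtain ⟨-, -, e3⟩ := hs x hx5 y hy5
      have hb := stream_bound hS ha hc ba bc hx₀ hy₀ hκ hy₁ hx hy
      rw [← e3] at hb
      have n1 : ‖cx Φ R ((x : ℂ) + y * I)‖ ^ 2 = Φ x y ^ 2 + R x y ^ 2 := by
        rw [← Complex.normSq_eq_norm_sq]
        unfold cx
        have hre : ((x : ℂ) + y * I).re = x := by simp
        have him : ((x : ℂ) + y * I).im = y := by simp
        rw [hre, him, Complex.normSq_add_mul_I]
      rw [n1]
      have n2 : Φ x y ^ 2 ≤ κ ^ 2 := by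
        rw [← sq_abs]
        exact pow_le_pow_left₀ (abs_nonneg _) (hκ x y
          (abs_le.2 ⟨by linarith [hx.1], by linarith [hx.2]⟩)
          (abs_le.2 ⟨by linarith [hy.1], by linarith [hy.2]⟩)) 2
      have n3 : ((ex a x)⁻¹ * (ex c y)⁻¹) ^ 2 ≤ Real.exp 2 := by
        have l1 := (ex_bound ba (abs_le.2 ⟨hx5.1.le, hx5.2.le⟩)).1
        have l2 := (ex_bound bc (abs_le.2 ⟨hy5.1.le, hy5.2.le⟩)).1
        have l3 : (ex a x)⁻¹ ≤ Real.exp (1 / 2) := by
          have := inv_anti₀ (Real.exp_pos _) l1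
          rwa [Real.exp_neg, inv_inv] at this
        have l4 : (ex c y)⁻¹ ≤ Real.exp (1 / 2) := by
          have := inv_anti₀ (Real.exp_pos _) l2
          rwa [Real.exp_neg, inv_inv] at this
        have l5 : (ex a x)⁻¹ * (ex c y)⁻¹ ≤ Real.exp 1 := by
          have : Real.exp 1 = Real.exp (1 / 2) * Real.exp (1 / 2) := by
            rw [← Real.exp_add]; norm_num
          rw [this]
          exact mul_le_mul l3 l4 (inv_pos.2 (ex_pos _ _)).le (Real.exp_pos _).le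
        have l6 : Real.exp 2 = Real.exp 1 ^ 2 := by
          rw [← Real.exp_nat_mul]; norm_num
        rw [l6]
        exact pow_le_pow_left₀ (mul_pos (inv_pos.2 (ex_pos _ _)) (inv_pos.2 (ex_pos _ _))).le l5 2
      have n4 : R x y ^ 2 ≤ 4 * Real.exp 4 * (κ ^ 2 / 50 +
          (∫ ξ in (x₀ - 1 / 2)..(x₀ + 1 / 2), Φy ξ y₁ ^ 2) +
          ∫ t in (y₀ - 1 / 2)..(y₀ + 1 / 2), Φx x t ^ 2) := by
        simp only [hR]
        rw [mul_pow]
        refine (mul_le_mul hb n3 (sq_nonneg _) ((sq_nonneg _).trans hb)).trans (le_of_eq ?_)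
        rw [hexp4]
        ring
      simp only [hg]
      exact add_le_add n2 n4

end Pool.Agent.N273.LT
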