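import Pool.Agent.N273.LT.Stu
import Pool.Agent.N273.LT.Loc2
import Pool.Agent.N273.LT.Wk5
import Pool.Agent.N273.LT.Sm
import Pool.Agent.N273.LT.Fx3
import Pool.Agent.N273.LT.Jen

/-!
# Growth of eigenfunctions through chains of boxes
-/

set_option autoImplicit false

open MeasureTheory Set Filter Topology Function

namespace Pool.Agent.N273.LT

open Pool.Agent.Y291.PA (Sol2)
open Pool.Agent.R220.LV (SP)

theorem stLoc_proved : StLoc := stLoc stSim stJensen stFlux stW

theorem Alt.affine {u : ℝ → ℝ} {b r : ℝ} (hr : 0 < r) {c d : ℝ} {n : ℕ}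
    (h : Alt (fun t => u (b + r * t)) (Ioo c d) n) : Alt u (Ioo (b + r * c) (b + r * d)) n := by
  obtain ⟨t, h1, h2, h3⟩ := h
  refine ⟨fun i => b + r * t i, fun i hi => ?_, fun i hi => ?_, fun i hi => h3 i hi⟩
  · have := h1 i hi
    simp only
    nlinarith
  · have := h2 i hi
    simp only
    constructor
    · nlinarith [this.1]
    · nlinarith [this.2]

/-- Rescaling. -/
theorem sol_scale {f g : ℝ → ℝ} {L lam : ℝ} {φ φx φxx φy φyy : ℝ → ℝ → ℝ}
    (h : SP f g L lam φ φx φxx φy φyy) (hf : Continuous f) (hg : Continuous g) (a b r : ℝ) :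
    Sol2 (fun s t => r ^ 2 * lam * f (a + r * s) + r ^ 2 * lam * g (b + r * t))
      (fun s t => φ (a + r * s) (b + r * t)) (fun s t => r * φx (a + r * s) (b + r * t))
      (fun s t => r ^ 2 * φxx (a + r * s) (b + r * t))
      (fun s t => r * φy (a + r * s) (b + r * t))
      (fun s t => r ^ 2 * φyy (a + r * s) (b + r * t)) := by
  have hc : ∀ (ψ : ℝ → ℝ → ℝ) (c : ℝ), Continuous (uncurry ψ) →
      Continuous (uncurry fun s t => c * ψ (a + r * s) (b + r * t)) := by
    intro ψ c hψ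
    have h1 : Continuous fun p : ℝ × ℝ => c * uncurry ψ (a + r * p.1, b + r * p.2) :=
      continuous_const.mul (hψ.comp (by fun_prop))
    exact h1
  have hdx : ∀ (s : ℝ), HasDerivAt (fun s : ℝ => a + r * s) r s := by
    intro s
    have := ((hasDerivAt_id s).const_mul r).const_add a
    simpa using this
  have hdy : ∀ (s : ℝ), HasDerivAt (fun s : ℝ => b + r * s) r s := by
    intro s
    have := ((hasDerivAt_id s).const_mul r).const_add b
    simpa using this
  refine ⟨?_, ?_, hc _ _ h.s.cx, hc _ _ h.s.cxx, hc _ _ h.s.cy, hc _ _ h.s.cyy, ?_, ?_, ?_, ?_, ?_⟩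
  · have h1 : Continuous fun p : ℝ × ℝ => r ^ 2 * lam * f (a + r * p.1) +
        r ^ 2 * lam * g (b + r * p.2) := by fun_prop
    exact h1
  · have h1 := hc φ 1 h.s.c
    simpa using h1
  · intro s t
    have h1 := (h.s.dx (a + r * s) (b + r * t)).comp s (hdx s)
    refine h1.congr_deriv ?_
    ring
  · intro s t
    have h1 := ((h.s.dxx (a + r * s) (b + r * t)).comp s (hdx s)).const_mul r
    refine h1.congr_deriv ?_
    ring
  · intro s t
    have h1 := (h.s.dy (a + r * s) (b + r * t)).comp t (hdy t)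
    refine h1.congr_deriv ?_
    ring
  · intro s t
    have h1 := ((h.s.dyy (a + r * s) (b + r * t)).comp t (hdy t)).const_mul r
    refine h1.congr_deriv ?_
    ring
  · intro s t
    have h1 : φxx (a + r * s) (b + r * t) + φyy (a + r * s) (b + r * t) =
        -(lam * (f (a + r * s) + g (b + r * t)) * φ (a + r * s) (b + r * t)) :=
      h.s.pde (a + r * s) (b + r * t)
    linear_combination r ^ 2 * h1

/-- Numbers of sign changes on vertical and horizontal lines in windows. -/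
noncomputable def n1 (φ : ℝ → ℝ → ℝ) (w x y : ℝ) : ℕ := sc (fun t => φ x t) (y + -w) (y + w)

noncomputable def n2 (φ : ℝ → ℝ → ℝ) (w x y : ℝ) : ℕ := sc (fun t => φ t y) (x + -w) (x + w)

/-- The growth exponent. -/
noncomputable def zz (φ : ℝ → ℝ → ℝ) (w X Y : ℝ) : ℝ :=
  (∫ x in (X - w)..(X + w), (n1 φ w x Y : ℝ)) + ∫ y in (Y - w)..(Y + w), (n2 φ w X y : ℝ)

/-- Uniform bounds of the numbers of sign changes. -/
structure UB (φ : ℝ → ℝ → ℝ) : Prop where
  c : Continuous (uncurry φ)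
  b1 : ∀ x, Bd (fun t => φ x t)
  b2 : ∀ y, Bd (fun t => φ t y)
  u1 : ∀ w, ∃ B : ℝ, ∀ x y, (n1 φ w x y : ℝ) ≤ B
  u2 : ∀ w, ∃ B : ℝ, ∀ x y, (n2 φ w x y : ℝ) ≤ B

theorem UB.m1 {φ : ℝ → ℝ → ℝ} (h : UB φ) {w : ℝ} (hw : 0 < w) :
    Measurable fun p : ℝ × ℝ => n1 φ w p.1 p.2 := by
  refine sc_meas (Φ := fun (p : ℝ × ℝ) t => φ p.1 t) ?_ (fun p => h.b1 p.1) (by fun_prop)
    (by fun_prop) (fun p => by linarith)
  have : Continuous fun q : (ℝ × ℝ) × ℝ => uncurry φ (q.1.1, q.2) := h.c.comp (by fun_prop)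
  exact this

theorem UB.m2 {φ : ℝ → ℝ → ℝ} (h : UB φ) {w : ℝ} (hw : 0 < w) :
    Measurable fun p : ℝ × ℝ => n2 φ w p.1 p.2 := by
  refine sc_meas (Φ := fun (p : ℝ × ℝ) t => φ t p.2) ?_ (fun p => h.b2 p.2) (by fun_prop)
    (by fun_prop) (fun p => by linarith)
  have : Continuous fun q : (ℝ × ℝ) × ℝ => uncurry φ (q.2, q.1.2) := h.c.comp (by fun_prop)
  exact this

theorem int_of_bd {m : ℝ → ℕ} (hm : Measurable m) {B : ℝ} (hB : ∀ x, (m x : ℝ) ≤ B) {S : Set ℝ}
    (hS : volume S ≠ ⊤) : IntegrableOn (fun x => (m x : ℝ)) S := by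
  refine Measure.integrableOn_of_bounded (M := B) hS
    (((measurable_of_countable (fun n : ℕ => (n : ℝ))).comp hm).aestronglyMeasurable)
    (Filter.Eventually.of_forall fun x => ?_)
  rw [Real.norm_of_nonneg (Nat.cast_nonneg _)]
  exact hB x

theorem comp_int {m : ℝ → ℕ} (hm : Measurable m) {B : ℝ} (hB : ∀ x, (m x : ℝ) ≤ B) {a r X w : ℝ}
    (hr : 0 < r) (h1 : X - w ≤ a - 2 * r) (h2 : a + 2 * r ≤ X + w) :
    ∫ s in (-2 : ℝ)..2, (m (a + r * s) : ℝ) ≤ (∫ x in (X - w)..(X + w), (m x : ℝ)) / r := by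
  have e1 : ∫ s in (-2 : ℝ)..2, (m (a + r * s) : ℝ) =
      r⁻¹ * ∫ x in (a + r * (-2))..(a + r * 2), (m x : ℝ) := by
    have := intervalIntegral.integral_comp_add_mul (a := (-2 : ℝ)) (b := 2)
      (fun x => (m x : ℝ)) hr.ne' a
    rw [this, smul_eq_mul]
  rw [e1, div_eq_inv_mul]
  refine mul_le_mul_of_nonneg_left ?_ (by positivity)
  refine intervalIntegral.integral_mono_interval (by linarith) (by linarith) (by linarith)
    (Filter.Eventually.of_forall fun x => Nat.cast_nonneg _) ?_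
  rw [intervalIntegrable_iff_integrableOn_Ioc_of_le (by linarith)]
  exact int_of_bd hm hB measure_Ioc_lt_top.ne

/-- One step of the chain. -/
theorem step : ∃ C : ℝ, 0 < C ∧ ∀ (f g : ℝ → ℝ) (L lam : ℝ) (φ φx φxx φy φyy : ℝ → ℝ → ℝ),
    Continuous f → Continuous g → SP f g L lam φ φx φxx φy φyy → UB φ → ∀ r w X Y a b a' b' κ : ℝ,
    0 < r → (∀ x, |r ^ 2 * lam * f x| ≤ 1 / 100) → (∀ y, |r ^ 2 * lam * g y| ≤ 1 / 100) →
    |a - X| + 2 * r ≤ w → |b - Y| + 2 * r ≤ w → |a' - a| ≤ r → |b' - b| ≤ r →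
    (∀ x y, |x - a'| ≤ r → |y - b'| ≤ r → |φ x y| ≤ κ) →
    ∀ x y, |x - a| ≤ r → |y - b| ≤ r → |φ x y| ≤ κ * Real.exp (C * (1 + zz φ w X Y / r)) := by
  obtain ⟨C, hC, H⟩ := stLoc_proved
  refine ⟨C, hC, ?_⟩
  intro f g L lam φ φx φxx φy φyy hf hg hS hU r w X Y a b a' b' κ hr hF hG hX hY ha hb hκ x y hx hy
  have hX' := abs_nonneg (a - X)
  have hw : 0 < w := by linarith
  obtain ⟨B₁, hB₁⟩ := hU.u1 w
  obtain ⟨B₂, hB₂⟩ := hU.u2 w
  have haX := abs_le.1 (show |a - X| ≤ w - 2 * r by linarith)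
  have hbY := abs_le.1 (show |b - Y| ≤ w - 2 * r by linarith)
  have m1 : Measurable fun x => n1 φ w x Y := (hU.m1 hw).comp (measurable_id.prodMk measurable_const)
  have m2 : Measurable fun y => n2 φ w X y := (hU.m2 hw).comp (measurable_const.prodMk measurable_id)
  have m1' : Measurable fun s : ℝ => n1 φ w (a + r * s) Y := m1.comp (by fun_prop)
  have m2' : Measurable fun s : ℝ => n2 φ w X (b + r * s) := m2.comp (by fun_prop)
  have key := H (fun s => r ^ 2 * lam * f (a + r * s)) (fun t => r ^ 2 * lam * g (b + r * t))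
    (fun s t => φ (a + r * s) (b + r * t)) _ _ _ _
    (fun s => (n1 φ w (a + r * s) Y : ℝ)) (fun t => (n2 φ w X (b + r * t) : ℝ))
    (by fun_prop) (by fun_prop) (fun s => hF _) (fun t => hG _) (sol_scale hS hf hg a b r)
    (int_of_bd m1' (fun s => hB₁ _ _) measure_Icc_lt_top.ne)
    (int_of_bd m2' (fun s => hB₂ _ _) measure_Icc_lt_top.ne)
    (fun s hs n hn => by
      have h1 := hn.affine (u := fun y => φ (a + r * s) y) hr
      have h2 := h1.subset (J := Ioo (Y + -w) (Y + w))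
        (Ioo_subset_Ioo (by linarith [hbY.1]) (by linarith [hbY.2]))
      have h3 : n ≤ n1 φ w (a + r * s) Y := le_sc (hU.b1 _) h2
      exact_mod_cast h3)
    (fun t ht n hn => by
      have h1 := hn.affine (u := fun x => φ x (b + r * t)) hr
      have h2 := h1.subset (J := Ioo (X + -w) (X + w))
        (Ioo_subset_Ioo (by linarith [haX.1]) (by linarith [haX.2]))
      have h3 : n ≤ n2 φ w X (b + r * t) := le_sc (hU.b2 _) h2
      exact_mod_cast h3)
    ((a' - a) / r) ((b' - b) / r) κ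
    (by rw [abs_div, abs_of_pos hr, div_le_one hr]; exact ha)
    (by rw [abs_div, abs_of_pos hr, div_le_one hr]; exact hb)
    (fun s t hs ht => by
      refine hκ _ _ ?_ ?_
      · have e : a + r * s - a' = r * (s - (a' - a) / r) := by
          field_simp
          ring
        rw [e, abs_mul, abs_of_pos hr]
        nlinarith
      · have e : b + r * t - b' = r * (t - (b' - b) / r) := by
          field_simp
          ring
        rw [e, abs_mul, abs_of_pos hr]
        nlinarith)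
    ((x - a) / r) ((y - b) / r)
    (by rw [abs_div, abs_of_pos hr, div_le_one hr]; exact hx)
    (by rw [abs_div, abs_of_pos hr, div_le_one hr]; exact hy)
  have ex : a + r * ((x - a) / r) = x := by
    field_simp
    ring
  have ey : b + r * ((y - b) / r) = y := by
    field_simp
    ring
  rw [ex, ey] at key
  refine key.trans ?_
  have hκ0 : 0 ≤ κ := (abs_nonneg _).trans (hκ a' b' (by simpa using hr.le) (by simpa using hr.le))
  refine mul_le_mul_of_nonneg_left (Real.exp_le_exp.2 (mul_le_mul_of_nonneg_left ?_ hC.le)) hκ0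
  have i1 := comp_int m1 (fun x => hB₁ x Y) (a := a) (r := r) (X := X) (w := w) hr
    (by linarith [haX.1]) (by linarith [haX.2])
  have i2 := comp_int m2 (fun y => hB₂ X y) (a := b) (r := r) (X := Y) (w := w) hr
    (by linarith [hbY.1]) (by linarith [hbY.2])
  unfold zz
  rw [add_div]
  linarith

/-- Chains of boxes. -/
theorem chain : ∃ C : ℝ, 0 < C ∧ ∀ (f g : ℝ → ℝ) (L lam : ℝ) (φ φx φxx φy φyy : ℝ → ℝ → ℝ),
    Continuous f → Continuous g → SP f g L lam φ φx φxx φy φyy → UB φ →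
    ∀ (r w X Y κ : ℝ) (N : ℕ), 0 < r → (∀ x, |r ^ 2 * lam * f x| ≤ 1 / 100) →
    (∀ y, |r ^ 2 * lam * g y| ≤ 1 / 100) → (N + 2) * r ≤ w →
    (∀ x y, |x - X| ≤ r → |y - Y| ≤ r → |φ x y| ≤ κ) →
    ∀ a b, |a - X| ≤ N * r → |b - Y| ≤ N * r →
      |φ a b| ≤ κ * Real.exp (N * (C * (1 + zz φ w X Y / r))) := by
  obtain ⟨C, hC, H⟩ := step
  refine ⟨C, hC, ?_⟩
  intro f g L lam φ φx φxx φy φyy hf hg hS hU r w X Y κ N hr hF hG hw hκ a b ha hb
  rcases Nat.eq_zero_or_pos N with rfl | hN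
  · simp only [Nat.cast_zero, zero_mul, Real.exp_zero, mul_one]
    rw [Nat.cast_zero, zero_mul] at ha hb
    exact hκ a b (ha.trans hr.le) (hb.trans hr.le)
  have hN' : (0 : ℝ) < N := by exact_mod_cast hN
  set E := C * (1 + zz φ w X Y / r) with hE
  have hda : |(a - X) / N| ≤ r := by
    rw [abs_div, abs_of_pos hN', div_le_iff₀ hN']
    linarith
  have hdb : |(b - Y) / N| ≤ r := by
    rw [abs_div, abs_of_pos hN', div_le_iff₀ hN']
    linarith
  have key : ∀ j : ℕ, j ≤ N → ∀ x y, |x - (X + j * ((a - X) / N))| ≤ r →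
      |y - (Y + j * ((b - Y) / N))| ≤ r → |φ x y| ≤ κ * Real.exp (j * E) := by
    intro j
    induction j with
    | zero =>
      intro _ x y hx hy
      simp only [Nat.cast_zero, zero_mul, Real.exp_zero, mul_one]
      rw [Nat.cast_zero, zero_mul, add_zero] at hx hy
      exact hκ x y hx hy
    | succ j ih =>
      intro hj x y hx hy
      have hj' : ((j + 1 : ℕ) : ℝ) ≤ N := by exact_mod_cast hj
      have hj0 : (0 : ℝ) ≤ ((j + 1 : ℕ) : ℝ) := Nat.cast_nonneg _
      have e1 : |X + ((j + 1 : ℕ) : ℝ) * ((a - X) / N) - X| ≤ N * r := by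
        rw [add_sub_cancel_left, abs_mul, abs_of_nonneg hj0]
        exact mul_le_mul hj' hda (abs_nonneg _) hN'.le
      have e2 : |Y + ((j + 1 : ℕ) : ℝ) * ((b - Y) / N) - Y| ≤ N * r := by
        rw [add_sub_cancel_left, abs_mul, abs_of_nonneg hj0]
        exact mul_le_mul hj' hdb (abs_nonneg _) hN'.le
      have h1 := H f g L lam φ φx φxx φy φyy hf hg hS hU r w X Y
        (X + ((j + 1 : ℕ) : ℝ) * ((a - X) / N)) (Y + ((j + 1 : ℕ) : ℝ) * ((b - Y) / N))
        (X + (j : ℝ) * ((a - X) / N)) (Y + (j : ℝ) * ((b - Y) / N)) (κ * Real.exp (j * E))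
        hr hF hG (by linarith) (by linarith)
        (by
          have : X + (j : ℝ) * ((a - X) / N) - (X + ((j + 1 : ℕ) : ℝ) * ((a - X) / N)) =
            -((a - X) / N) := by push_cast; ring
          rw [this, abs_neg]
          exact hda)
        (by
          have : Y + (j : ℝ) * ((b - Y) / N) - (Y + ((j + 1 : ℕ) : ℝ) * ((b - Y) / N)) =
            -((b - Y) / N) := by push_cast; ring
          rw [this, abs_neg]
          exact hdb)
        (fun x y hx hy => ih (by omega) x y hx hy) x y hx hy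
      refine h1.trans (le_of_eq ?_)
      rw [mul_assoc, ← Real.exp_add]
      congr 2
      push_cast
      ring
  have h2 := key N le_rfl a b
    (by
      have : a - (X + N * ((a - X) / N)) = 0 := by field_simp; ring
      rw [this, abs_zero]
      exact hr.le)
    (by
      have : b - (Y + N * ((b - Y) / N)) = 0 := by field_simp; ring
      rw [this, abs_zero]
      exact hr.le)
  exact h2

end Pool.Agent.N273.LT
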