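import Pool.Agent.N273.LT.Loc

/-!
# Numbers of sign changes on intervals
-/

set_option autoImplicit false

open MeasureTheory Set Filter Topology

namespace Pool.Agent.N273.LT

/-- The largest number of sign changes on an open interval. -/
noncomputable def sc (u : ℝ → ℝ) (a b : ℝ) : ℕ := sSup {n : ℕ | Alt u (Ioo a b) n}

/-- The numbers of sign changes are bounded. -/
def Bd (u : ℝ → ℝ) : Prop := ∀ a b : ℝ, BddAbove {n : ℕ | Alt u (Ioo a b) n}

theorem Alt.concat {u : ℝ → ℝ} {a b c d : ℝ} {m n : ℕ} (h1 : Alt u (Ioo a b) m)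
    (h2 : Alt u (Ioo c d) n) (hbc : b ≤ c) : Alt u (Ioo a d) (m + n) := by
  have e1 : a < b := by
    obtain ⟨t, -, ht, -⟩ := h1
    have := ht 0 (Nat.zero_le _)
    exact this.1.trans this.2
  have e2 : c < d := by
    obtain ⟨t, -, ht, -⟩ := h2
    have := ht 0 (Nat.zero_le _)
    exact this.1.trans this.2
  have s1 : Ioo a b ⊆ Ioo a d := Ioo_subset_Ioo_right (by linarith)
  have s2 : Ioo c d ⊆ Ioo a d := Ioo_subset_Ioo_left (by linarith)
  rcases Nat.eq_zero_or_pos n with rfl | hn
  · exact h1.subset s1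
  rcases Nat.eq_zero_or_pos m with rfl | hm
  · rw [zero_add]
    exact h2.subset s2
  obtain ⟨t, t1, t2, t3⟩ := h1
  obtain ⟨s, r1, r2, r3⟩ := h2
  have hlt : t m < s 0 := by
    have h3 := (t2 m le_rfl).2
    have h4 := (r2 0 (Nat.zero_le _)).1
    linarith
  have hs01 := r1 0 hn
  rcases lt_or_ge (u (t m) * u (s 0)) 0 with hneg | hpos
  · refine Alt.mono (m := m + n) (n := m + n + 1) ?_ (by omega)
    refine ⟨fun i => if i ≤ m then t i else s (i - m - 1), fun i hi => ?_, fun i hi => ?_,
      fun i hi => ?_⟩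
    · simp only
      rcases lt_trichotomy i m with h | h | h
      · rw [if_pos h.le, if_pos (by omega)]
        exact t1 i h
      · subst h
        rw [if_pos le_rfl, if_neg (by omega), show i + 1 - i - 1 = 0 by omega]
        exact hlt
      · rw [if_neg (by omega), if_neg (by omega), show i + 1 - m - 1 = (i - m - 1) + 1 by omega]
        exact r1 _ (by omega)
    · simp only
      split_ifs with h
      · exact s1 (t2 i h)
      · exact s2 (r2 _ (by omega))
    · simp only
      rcases lt_trichotomy i m with h | h | h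
      · rw [if_pos h.le, if_pos (by omega)]
        exact t3 i h
      · subst h
        rw [if_pos le_rfl, if_neg (by omega), show i + 1 - i - 1 = 0 by omega]
        exact hneg
      · rw [if_neg (by omega), if_neg (by omega), show i + 1 - m - 1 = (i - m - 1) + 1 by omega]
        exact r3 _ (by omega)
  · have k1 := t3 (m - 1) (by omega)
    rw [show m - 1 + 1 = m by omega] at k1
    have k2 := r3 0 hn
    rw [zero_add] at k2
    have htm : u (t m) ≠ 0 := fun h => by rw [h, mul_zero] at k1; exact lt_irrefl _ k1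
    have hs0 : u (s 0) ≠ 0 := fun h => by rw [h, zero_mul] at k2; exact lt_irrefl _ k2
    have hpos' : 0 < u (t m) * u (s 0) := lt_of_le_of_ne hpos (mul_ne_zero htm hs0).symm
    have k3 : u (t m) * u (s 1) < 0 := by
      have k4 : (u (t m) * u (s 0)) * (u (s 0) * u (s 1)) < 0 := mul_neg_of_pos_of_neg hpos' k2
      have k5 : 0 < u (s 0) * u (s 0) := mul_self_pos.2 hs0
      by_contra hcon
      rw [not_lt] at hcon
      nlinarith [mul_nonneg hcon k5.le]
    refine ⟨fun i => if i ≤ m then t i else s (i - m), fun i hi => ?_, fun i hi => ?_,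
      fun i hi => ?_⟩
    · simp only
      rcases lt_trichotomy i m with h | h | h
      · rw [if_pos h.le, if_pos (by omega)]
        exact t1 i h
      · subst h
        rw [if_pos le_rfl, if_neg (by omega), show i + 1 - i = 1 by omega]
        exact hlt.trans hs01
      · rw [if_neg (by omega), if_neg (by omega), show i + 1 - m = (i - m) + 1 by omega]
        exact r1 _ (by omega)
    · simp only
      split_ifs with h
      · exact s1 (t2 i h)
      · exact s2 (r2 _ (by omega))
    · simp only
      rcases lt_trichotomy i m with h | h | h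
      · rw [if_pos h.le, if_pos (by omega)]
        exact t3 i h
      · subst h
        rw [if_pos le_rfl, if_neg (by omega), show i + 1 - i = 1 by omega]
        exact k3
      · rw [if_neg (by omega), if_neg (by omega), show i + 1 - m = (i - m) + 1 by omega]
        exact r3 _ (by omega)

theorem le_sc {u : ℝ → ℝ} (hB : Bd u) {a b : ℝ} {n : ℕ} (h : Alt u (Ioo a b) n) : n ≤ sc u a b :=
  le_csSup (hB a b) h

theorem sc_alt {u : ℝ → ℝ} (hB : Bd u) {a b : ℝ} (hab : a < b) : Alt u (Ioo a b) (sc u a b) :=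
  Nat.sSup_mem ⟨0, Alt.zero (nonempty_Ioo.2 hab)⟩ (hB a b)

theorem sc_le {u : ℝ → ℝ} (hB : Bd u) {a b B : ℝ} (hB0 : 0 ≤ B)
    (h : ∀ n : ℕ, Alt u (Ioo a b) n → (n : ℝ) ≤ B) : (sc u a b : ℝ) ≤ B := by
  rcases lt_or_ge a b with hab | hab
  · exact h _ (sc_alt hB hab)
  · have h1 : {n : ℕ | Alt u (Ioo a b) n} = ∅ := by
      ext n
      simp only [mem_ofPred_eq, mem_empty_iff_false, iff_false]
      rintro ⟨t, -, ht, -⟩
      have := ht 0 (Nat.zero_le _)
      exact absurd (this.1.trans this.2) (not_lt.2 hab)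
    unfold sc
    rw [h1, csSup_empty]
    simpa using hB0

theorem sc_mono {u : ℝ → ℝ} (hB : Bd u) {a b c d : ℝ} (h1 : c ≤ a) (h2 : b ≤ d) :
    sc u a b ≤ sc u c d := by
  rcases lt_or_ge a b with hab | hab
  · exact le_sc hB ((sc_alt hB hab).subset (Ioo_subset_Ioo h1 h2))
  · have h1 : {n : ℕ | Alt u (Ioo a b) n} = ∅ := by
      ext n
      simp only [mem_ofPred_eq, mem_empty_iff_false, iff_false]
      rintro ⟨t, -, ht, -⟩
      have := ht 0 (Nat.zero_le _)
      exact absurd (this.1.trans this.2) (not_lt.2 hab)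
    unfold sc
    rw [h1, csSup_empty]
    exact bot_le

theorem sc_add {u : ℝ → ℝ} (hB : Bd u) {a b c d : ℝ} (hab : a < b) (hcd : c < d) (hbc : b ≤ c) :
    sc u a b + sc u c d ≤ sc u a d :=
  le_sc hB ((sc_alt hB hab).concat (sc_alt hB hcd) hbc)

/-- The number of sign changes is a measurable function of parameters. -/
theorem sc_meas {X : Type} [TopologicalSpace X] [MeasurableSpace X] [BorelSpace X]
    {Φ : X → ℝ → ℝ} (hΦ : Continuous (Function.uncurry Φ)) (hB : ∀ p, Bd (Φ p)) {A B : X → ℝ}
    (hA : Continuous A) (hBc : Continuous B) (hAB : ∀ p, A p < B p) :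
    Measurable fun p => sc (Φ p) (A p) (B p) := by
  have hopen : ∀ n : ℕ, IsOpen {p : X | Alt (Φ p) (Ioo (A p) (B p)) n} := by
    intro n
    rw [isOpen_iff_mem_nhds]
    rintro p ⟨t, t1, t2, t3⟩
    have e1 : ∀ᶠ q in 𝓝 p, ∀ i ∈ Finset.range (n + 1), t i ∈ Ioo (A q) (B q) := by
      rw [Filter.eventually_all_finset]
      intro i hi
      have h2 := t2 i (Nat.lt_succ_iff.1 (Finset.mem_range.1 hi))
      filter_upwards [hA.continuousAt.eventually (gt_mem_nhds h2.1),
        hBc.continuousAt.eventually (lt_mem_nhds h2.2)] with q h3 h4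
      exact ⟨h3, h4⟩
    have e2 : ∀ᶠ q in 𝓝 p, ∀ i ∈ Finset.range n, Φ q (t i) * Φ q (t (i + 1)) < 0 := by
      rw [Filter.eventually_all_finset]
      intro i hi
      have h3 := t3 i (Finset.mem_range.1 hi)
      have h4 : Continuous fun q => Φ q (t i) * Φ q (t (i + 1)) :=
        (hΦ.comp (Continuous.prodMk_left (t i))).mul (hΦ.comp (Continuous.prodMk_left (t (i + 1))))
      exact h4.continuousAt.eventually (gt_mem_nhds h3)
    filter_upwards [e1, e2] with q h1 h2
    exact ⟨t, t1, fun i hi => h1 i (Finset.mem_range.2 (Nat.lt_succ_iff.2 hi)),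
      fun i hi => h2 i (Finset.mem_range.2 hi)⟩
  refine measurable_of_Ici fun n => ?_
  have h1 : (fun p => sc (Φ p) (A p) (B p)) ⁻¹' Ici n = {p : X | Alt (Φ p) (Ioo (A p) (B p)) n} := by
    ext p
    simp only [mem_preimage, mem_Ici, mem_ofPred_eq]
    constructor
    · intro h
      exact (sc_alt (hB p) (hAB p)).mono h
    · intro h
      exact le_sc (hB p) h
  rw [h1]
  exact (hopen n).measurableSet

end Pool.Agent.N273.LT
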