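import Pool.Agent.N273.LT.Loc

/-!
# Sturm's upper bound: the maximum principle and the iteration
-/

set_option autoImplicit false

open Filter Topology

namespace Pool.Agent.N273.LT

/-- The second derivative test. -/
theorem second_le {u u' : ℝ → ℝ} {u'' s : ℝ} (h1 : ∀ x, HasDerivAt u (u' x) x)
    (h2 : HasDerivAt u' u'' s) (hm : IsLocalMax u s) : u'' ≤ 0 := by
  by_contra hcon
  push Not at hcon
  have e1 : deriv u = u' := funext fun x => (h1 x).deriv
  have hd : deriv u s = 0 := hm.deriv_eq_zero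
  have hdd : 0 < deriv (deriv u) s := by
    rw [e1, h2.deriv]
    exact hcon
  have hmin : IsLocalMin u s := isLocalMin_of_deriv_deriv_pos hdd hd (h1 s).continuousAt
  have hconst : ∀ᶠ x in 𝓝 s, u x = u s := by
    filter_upwards [hm, hmin] with x h3 h4
    exact le_antisymm h3 h4
  have hconst2 : ∀ᶠ x in 𝓝 s, u' x = 0 := by
    filter_upwards [hconst.eventually_nhds] with x hx
    have h5 : HasDerivAt u 0 x := (hasDerivAt_const x (u s)).congr_of_eventuallyEq hx
    exact (h1 x).unique h5
  have h6 : HasDerivAt u' 0 s := (hasDerivAt_const s (0 : ℝ)).congr_of_eventuallyEq hconst2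
  have := h2.unique h6
  linarith

/-- A positive peak. -/
theorem peak_pos {u u' u'' q : ℝ → ℝ} (h1 : ∀ x, HasDerivAt u (u' x) x)
    (h2 : ∀ x, HasDerivAt u' (u'' x) x) (hq : ∀ x, 0 < q x) {a b c : ℝ} (hab : a < b)
    (hbc : b < c) (ha : u a < 0) (hb : 0 < u b) (hc : u c < 0) :
    ∃ s, a < s ∧ s < c ∧ 0 < u s ∧ 0 < -u'' s + q s * u s := by
  have hcont : Continuous u := continuous_iff_continuousAt.2 fun x => (h1 x).continuousAt
  obtain ⟨s, hs, hmax⟩ := isCompact_Icc.exists_isMaxOn (⟨b, hab.le, hbc.le⟩ : (Set.Icc a c).Nonempty)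
    hcont.continuousOn
  have hbs : u b ≤ u s := hmax ⟨hab.le, hbc.le⟩
  have hs0 : 0 < u s := hb.trans_le hbs
  have has : a < s := lt_of_le_of_ne hs.1 fun h => by rw [← h] at hs0; linarith
  have hsc : s < c := lt_of_le_of_ne hs.2 fun h => by rw [h] at hs0; linarith
  have hloc : IsLocalMax u s := hmax.isLocalMax (Icc_mem_nhds has hsc)
  have h3 := second_le h1 (h2 s) hloc
  exact ⟨s, has, hsc, hs0, by nlinarith [hq s, mul_pos (hq s) hs0]⟩

/-- A peak. -/
theorem peak {u u' u'' q : ℝ → ℝ} (h1 : ∀ x, HasDerivAt u (u' x) x)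
    (h2 : ∀ x, HasDerivAt u' (u'' x) x) (hq : ∀ x, 0 < q x) {a b c : ℝ} (hab : a < b)
    (hbc : b < c) (ha : u a * u b < 0) (hc : u b * u c < 0) :
    ∃ s, a < s ∧ s < c ∧ 0 < u s * u b ∧ 0 < (-u'' s + q s * u s) * u b := by
  rcases lt_trichotomy (u b) 0 with hb | hb | hb
  · have ha' : 0 < u a := by
      by_contra h
      push Not at h
      nlinarith
    have hc' : 0 < u c := by
      by_contra h
      push Not at h
      nlinarith
    obtain ⟨s, hs1, hs2, hs3, hs4⟩ := peak_pos (u := fun x => -u x) (u' := fun x => -u' x)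
      (u'' := fun x => -u'' x) (q := q) (fun x => (h1 x).neg) (fun x => (h2 x).neg) hq hab hbc
      (by linarith) (by linarith) (by linarith)
    exact ⟨s, hs1, hs2, by nlinarith, by nlinarith⟩
  · rw [hb] at ha
    simp at ha
  · have ha' : u a < 0 := by
      by_contra h
      push Not at h
      nlinarith
    have hc' : u c < 0 := by
      by_contra h
      push Not at h
      nlinarith
    obtain ⟨s, hs1, hs2, hs3, hs4⟩ := peak_pos h1 h2 hq hab hbc ha' hb hc'
    exact ⟨s, hs1, hs2, by positivity, by positivity⟩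

/-- The operator `-u'' + q u` does not lose more than two sign changes. -/
theorem alt_step {u u' u'' q : ℝ → ℝ} (h1 : ∀ x, HasDerivAt u (u' x) x)
    (h2 : ∀ x, HasDerivAt u' (u'' x) x) (hq : ∀ x, 0 < q x) {I : Set ℝ} (hI : I.OrdConnected)
    {n : ℕ} (h : Alt u I (n + 2)) : Alt (fun x => -u'' x + q x * u x) I n := by
  obtain ⟨t, ht1, ht2, ht3⟩ := h
  have key : ∀ k ≤ n, ∃ s : ℕ → ℝ, (∀ i < k, s i < s (i + 1)) ∧
      (∀ i ≤ k, t 0 < s i ∧ s i < t (i + 2) ∧ 0 < u (s i) * u (t (i + 1)) ∧
        0 < (-u'' (s i) + q (s i) * u (s i)) * u (t (i + 1))) := by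
    intro k
    induction k with
    | zero =>
      intro _
      obtain ⟨s, hs1, hs2, hs3, hs4⟩ := peak h1 h2 hq (ht1 0 (by omega)) (ht1 1 (by omega))
        (ht3 0 (by omega)) (ht3 1 (by omega))
      exact ⟨fun _ => s, fun i hi => by omega, fun i hi => by
        have : i = 0 := by omega
        subst this
        exact ⟨hs1, hs2, hs3, hs4⟩⟩
    | succ k ih =>
      intro hk
      obtain ⟨s, hs1, hs2⟩ := ih (by omega)
      obtain ⟨g1, g2, g3, g4⟩ := hs2 k le_rfl
      have hsgn : u (s k) * u (t (k + 2)) < 0 := by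
        have h3 := ht3 (k + 1) (by omega)
        have h4 : 0 < (u (s k) * u (t (k + 1))) := g3
        by_contra hcon
        push Not at hcon
        have h5 : 0 ≤ (u (s k) * u (t (k + 2))) * (u (s k) * u (t (k + 1))) :=
          mul_nonneg hcon h4.le
        have h6 : (u (s k) * u (t (k + 2))) * (u (s k) * u (t (k + 1))) =
            (u (s k) * u (s k)) * (u (t (k + 1)) * u (t (k + 1 + 1))) := by ring
        rw [h6] at h5
        have h7 : 0 < u (s k) * u (s k) := by
          rcases eq_or_ne (u (s k)) 0 with h8 | h8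
          · rw [h8] at h4
            simp at h4
          · exact mul_self_pos.2 h8
        nlinarith
      obtain ⟨s', e1, e2, e3, e4⟩ := peak h1 h2 hq g2 (ht1 (k + 2) (by omega)) hsgn
        (ht3 (k + 2) (by omega))
      refine ⟨fun i => if i ≤ k then s i else s', fun i hi => ?_, fun i hi => ?_⟩
      · rcases Nat.lt_or_ge i k with h3 | h3
        · simp only [if_pos h3.le, if_pos (show i + 1 ≤ k by omega)]
          exact hs1 i h3
        · have h4 : i = k := by omega
          simp only [h4, if_pos le_rfl, if_neg (show ¬ (k + 1 ≤ k) by omega)]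
          exact e1
      · rcases Nat.lt_or_ge k i with h3 | h3
        · have h4 : i = k + 1 := by omega
          simp only [h4, if_neg (show ¬ (k + 1 ≤ k) by omega)]
          exact ⟨g1.trans e1, e2, e3, e4⟩
        · simp only [if_pos h3]
          exact hs2 i h3
  obtain ⟨s, hs1, hs2⟩ := key n le_rfl
  have hmono : ∀ i ≤ n, s i ≤ s n := by
    intro i hi
    have h3 : ∀ j, ∀ i, i + j = n → s i ≤ s n := by
      intro j
      induction j with
      | zero =>
        intro i hi
        rw [show i = n by omega]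
      | succ j ih =>
        intro i hi
        exact (hs1 i (by omega)).le.trans (ih (i + 1) (by omega))
    exact h3 (n - i) i (by omega)
  refine ⟨s, hs1, fun i hi => ?_, fun i hi => ?_⟩
  · have hlast : s i < t (n + 2) := (hmono i hi).trans_lt (hs2 n le_rfl).2.1
    exact hI.out (ht2 0 (by omega)) (ht2 (n + 2) le_rfl) ⟨(hs2 i hi).1.le, hlast.le⟩
  · obtain ⟨-, -, -, a4⟩ := hs2 i hi.le
    obtain ⟨-, -, -, b4⟩ := hs2 (i + 1) hi
    have h3 := ht3 (i + 1) (by omega)
    simp only
    by_contra hcon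
    push Not at hcon
    have h5 := mul_pos a4 b4
    have h6 : (-u'' (s i) + q (s i) * u (s i)) * u (t (i + 1)) *
        ((-u'' (s (i + 1)) + q (s (i + 1)) * u (s (i + 1))) * u (t (i + 1 + 1))) =
        ((-u'' (s i) + q (s i) * u (s i)) * (-u'' (s (i + 1)) + q (s (i + 1)) * u (s (i + 1)))) *
        (u (t (i + 1)) * u (t (i + 1 + 1))) := by ring
    rw [h6] at h5
    nlinarith [mul_nonneg hcon (neg_nonneg.2 h3.le)]

end Pool.Agent.N273.LT
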