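import Pool.Agent.N273.LT.St1

/-!
# Sturm's upper bound: periodic extension and spacing
-/

set_option autoImplicit false

open Filter Topology

namespace Pool.Agent.N273.LT

theorem alt_sign {u : ℝ → ℝ} {t : ℕ → ℝ} {M : ℕ} (hM : 1 ≤ M)
    (h : ∀ i < M, u (t i) * u (t (i + 1)) < 0) :
    ∀ i ≤ M, 0 < (-1 : ℝ) ^ i * (u (t 0) * u (t i)) := by
  intro i
  induction i with
  | zero =>
    intro _
    have h0 := h 0 hM
    have h1 : u (t 0) ≠ 0 := fun h2 => by
      rw [h2] at h0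
      simp at h0
    rw [pow_zero, one_mul]
    exact mul_self_pos.2 h1
  | succ i ih =>
    intro hi
    have h1 := ih (by omega)
    have h2 := h i (by omega)
    have h3 : u (t i) ≠ 0 := fun h4 => by
      rw [h4] at h2
      simp at h2
    have h4 : 0 < u (t i) * u (t i) := mul_self_pos.2 h3
    by_contra hcon
    push Not at hcon
    have h5 : (-1 : ℝ) ^ (i + 1) * (u (t 0) * u (t (i + 1))) * (u (t i) * u (t i)) =
        -(((-1 : ℝ) ^ i * (u (t 0) * u (t i))) * (u (t i) * u (t (i + 1)))) := by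
      rw [pow_succ]
      ring
    have h6 : 0 < -(((-1 : ℝ) ^ i * (u (t 0) * u (t i))) * (u (t i) * u (t (i + 1)))) := by
      have := mul_neg_of_pos_of_neg h1 h2
      linarith
    rw [← h5] at h6
    nlinarith

/-- Periodic extension. -/
theorem alt_ext {u : ℝ → ℝ} {T s : ℝ} (hT : 0 < T) (hu : ∀ x, u (x + T) = u x) {M : ℕ}
    (hM : 1 ≤ M) (h : Alt u (Set.Ico s (s + T)) M) :
    ∃ p : ℕ, M ≤ p ∧ 1 ≤ p ∧ ∀ N : ℕ, 1 ≤ N → Alt u (Set.Icc s (s + N * T)) (N * p - 1) := by
  obtain ⟨t, ht1, ht2, ht3⟩ := h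
  have hsgn := alt_sign hM ht3
  obtain ⟨p, hp1, hp2, hp3⟩ : ∃ p : ℕ, M ≤ p ∧ p - 1 ≤ M ∧ Odd (p - 1) := by
    rcases Nat.even_or_odd M with hev | hod
    · refine ⟨M, le_rfl, by omega, ?_⟩
      obtain ⟨k, hk⟩ := hev
      exact ⟨k - 1, by omega⟩
    · exact ⟨M + 1, by omega, by omega, by simpa using hod⟩
  have hp0 : 1 ≤ p := by omega
  have hend : u (t (p - 1)) * u (t 0) < 0 := by
    have h1 := hsgn (p - 1) hp2
    rw [hp3.neg_one_pow] at h1
    linarith
  have hper : Function.Periodic u T := hu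
  have hperN : ∀ (k : ℕ) (x : ℝ), u (x + k * T) = u x := fun k x => hper.nat_mul k x
  refine ⟨p, hp1, hp0, fun N hN => ?_⟩
  have hstep : ∀ i : ℕ, ((i + 1) % p = i % p + 1 ∧ (i + 1) / p = i / p ∧ i % p + 1 < p) ∨
      ((i + 1) % p = 0 ∧ (i + 1) / p = i / p + 1 ∧ i % p = p - 1) := by
    intro i
    have h1 := Nat.div_add_mod i p
    have h2 := Nat.mod_lt i (show 0 < p by omega)
    rcases Nat.lt_or_ge (i % p + 1) p with h3 | h3
    · left
      have e : i + 1 = p * (i / p) + (i % p + 1) := by omega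
      refine ⟨?_, ?_, h3⟩
      · rw [e, Nat.mul_add_mod, Nat.mod_eq_of_lt h3]
      · rw [e, Nat.mul_add_div (by omega), Nat.div_eq_of_lt h3, add_zero]
    · right
      have h4 : i % p = p - 1 := by omega
      have e : i + 1 = p * (i / p + 1) := by
        rw [Nat.mul_add, mul_one]
        omega
      refine ⟨?_, ?_, h4⟩
      · rw [e, Nat.mul_mod_right]
      · rw [e, Nat.mul_div_cancel_left _ (by omega)]
  refine ⟨fun i => t (i % p) + ((i / p : ℕ) : ℝ) * T, fun i _ => ?_, fun i hi => ?_, fun i _ => ?_⟩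
  · rcases hstep i with ⟨e1, e2, e3⟩ | ⟨e1, e2, e3⟩
    · simp only [e1, e2]
      have := ht1 (i % p) (by omega)
      linarith
    · simp only [e1, e2, e3]
      have h3 := ht2 (p - 1) hp2
      have h4 := ht2 0 (by omega)
      push_cast
      have := h3.2
      have := h4.1
      nlinarith
  · have hmod := Nat.mod_lt i (show 0 < p by omega)
    have h3 := ht2 (i % p) (by omega)
    have h4 : i / p ≤ N - 1 := by
      have h5 : i < N * p := by
        have : 0 < N * p := Nat.mul_pos (by omega) (by omega)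
        omega
      have h6 : i / p < N := Nat.div_lt_of_lt_mul (by rwa [mul_comm] at h5)
      omega
    have h5 : ((i / p : ℕ) : ℝ) ≤ (N : ℝ) - 1 := by
      have : ((i / p : ℕ) : ℝ) ≤ ((N - 1 : ℕ) : ℝ) := by exact_mod_cast h4
      rwa [Nat.cast_sub hN, Nat.cast_one] at this
    have h6 : (0 : ℝ) ≤ ((i / p : ℕ) : ℝ) := Nat.cast_nonneg _
    constructor
    · have := h3.1
      nlinarith
    · have := h3.2
      nlinarith
  · simp only
    rw [hperN, hperN]
    rcases hstep i with ⟨e1, e2, e3⟩ | ⟨e1, e2, e3⟩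
    · rw [e1]
      exact ht3 (i % p) (by omega)
    · rw [e1, e3]
      exact hend

/-- Spacing. -/
theorem alt_spacing {w : ℝ → ℝ} {ℓ : ℝ} (hℓ : 0 < ℓ)
    (h2 : ∀ a b : ℝ, b - a ≤ ℓ → ¬ Alt w (Set.Icc a b) 2) {c d : ℝ} {K : ℕ}
    (h : Alt w (Set.Icc c d) K) : ((K : ℝ) - 1) * ℓ ≤ 2 * (d - c) := by
  obtain ⟨t, ht1, ht2, ht3⟩ := h
  have hgap : ∀ i, i + 2 ≤ K → ℓ < t (i + 2) - t i := by
    intro i hi
    by_contra hcon
    push Not at hcon
    refine h2 (t i) (t (i + 2)) hcon ⟨fun j => t (i + j), fun j hj => ht1 (i + j) (by omega),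
      fun j hj => ?_, fun j hj => ht3 (i + j) (by omega)⟩
    have h3 := ht1 i (by omega)
    have h4 := ht1 (i + 1) (by omega)
    have h5 : j = 0 ∨ j = 1 ∨ j = 2 := by omega
    rcases h5 with rfl | rfl | rfl
    · exact ⟨le_rfl, (h3.trans h4).le⟩
    · exact ⟨h3.le, h4.le⟩
    · exact ⟨(h3.trans h4).le, le_rfl⟩
  have hj : ∀ j : ℕ, 2 * j ≤ K → (j : ℝ) * ℓ ≤ t (2 * j) - t 0 := by
    intro j
    induction j with
    | zero => intro _; simp
    | succ j ih =>
      intro hj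
      have h3 := ih (by omega)
      have h4 := hgap (2 * j) (by omega)
      rw [show 2 * (j + 1) = 2 * j + 2 by ring]
      push_cast
      linarith
  have h3 := hj (K / 2) (by omega)
  have h4 : (K : ℝ) ≤ 2 * ((K / 2 : ℕ) : ℝ) + 1 := by
    have : K ≤ 2 * (K / 2) + 1 := by omega
    exact_mod_cast this
  have h5 := ht2 0 (by omega)
  have h6 := ht2 (2 * (K / 2)) (by omega)
  have h7 : t (2 * (K / 2)) - t 0 ≤ d - c := by linarith [h5.1, h6.2]
  nlinarith

/-- Two sign changes give a zero and a critical point. -/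
theorem alt_two {w w' : ℝ → ℝ} (hw : ∀ x, HasDerivAt w (w' x) x) {a b : ℝ}
    (h : Alt w (Set.Icc a b) 2) : ∃ z c : ℝ, z ∈ Set.Icc a b ∧ c ∈ Set.Icc a b ∧ w z = 0 ∧
      w' c = 0 := by
  obtain ⟨t, ht1, ht2, ht3⟩ := h
  have hc : Continuous w := continuous_iff_continuousAt.2 fun x => (hw x).continuousAt
  have hz : ∀ x y : ℝ, x < y → w x * w y < 0 → ∃ z ∈ Set.Ioo x y, w z = 0 := by
    intro x y hxy hxy'
    rcases lt_or_ge (w x) 0 with h1 | h1
    · have h2 : 0 < w y := by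
        by_contra h3
        push Not at h3
        nlinarith
      exact intermediate_value_Ioo hxy.le hc.continuousOn ⟨h1, h2⟩
    · have h1' : 0 < w x := lt_of_le_of_ne h1 fun h3 => by
        rw [← h3] at hxy'
        simp at hxy'
      have h2 : w y < 0 := by
        by_contra h3
        push Not at h3
        nlinarith
      exact intermediate_value_Ioo' hxy.le hc.continuousOn ⟨h2, h1'⟩
  obtain ⟨z1, hz1, e1⟩ := hz _ _ (ht1 0 (by omega)) (ht3 0 (by omega))
  obtain ⟨z2, hz2, e2⟩ := hz _ _ (ht1 1 (by omega)) (ht3 1 (by omega))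
  obtain ⟨c, hc1, hc2⟩ := exists_hasDerivAt_eq_zero (f := w) (f' := w') (hz1.2.trans hz2.1)
    hc.continuousOn (by rw [e1, e2]) (fun x _ => hw x)
  have k0 := ht2 0 (by omega)
  have k2 := ht2 2 (by omega)
  simp only [zero_add] at hz1
  simp only [one_add_one_eq_two] at hz2
  exact ⟨z1, c, ⟨by linarith [k0.1, hz1.1], by linarith [hz1.2, hz2.1, hz2.2, k2.2]⟩,
    ⟨by linarith [k0.1, hz1.1, hc1.1], by linarith [hc1.2, hz2.2, k2.2]⟩, e1, hc2⟩

end Pool.Agent.N273.LT
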