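import Pool.Agent.N273.LT.St2

/-!
# Sturm's upper bound: conclusion
-/

set_option autoImplicit false

open Filter Topology

namespace Pool.Agent.N273.LT

theorem rigid_loc {v v' g : ℝ → ℝ} {Q ℓ : ℝ} (hv : ∀ x, HasDerivAt v (v' x) x)
    (hv' : ∀ x, HasDerivAt v' (g x * v x) x) (hg : ∀ x, |g x| ≤ Q) (hQ : ℓ ^ 2 * Q ≤ 1 / 4)
    {a b z c : ℝ} (hab : b - a ≤ ℓ) (hz : z ∈ Set.Icc a b) (hc : c ∈ Set.Icc a b) (hvz : v z = 0)
    (hvc : v' c = 0) : ∀ x ∈ Set.Icc a b, v x = 0 ∧ v' x = 0 := by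
  have hQ0 : 0 ≤ Q := (abs_nonneg _).trans (hg 0)
  have cv' : Continuous v' := continuous_iff_continuousAt.2 fun x => (hv' x).continuousAt
  obtain ⟨x1, hx1, hmax⟩ := isCompact_Icc.exists_isMaxOn ⟨z, hz⟩ cv'.abs.continuousOn
  set M := |v' x1| with hM
  have hM0 : 0 ≤ M := abs_nonneg _
  have hℓ0 : 0 ≤ ℓ := by linarith [hz.1, hz.2]
  have hMb : ∀ x ∈ Set.Icc a b, |v' x| ≤ M := fun x hx => hmax hx
  have h1 : ∀ x ∈ Set.Icc a b, |v x| ≤ M * ℓ := by
    intro x hx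
    have := (convex_Icc a b).norm_image_sub_le_of_norm_hasDerivWithin_le (f := v) (f' := v')
      (C := M) (fun y _ => (hv y).hasDerivWithinAt) hMb hz hx
    rw [hvz, sub_zero, Real.norm_eq_abs, Real.norm_eq_abs] at this
    refine this.trans (mul_le_mul_of_nonneg_left ?_ hM0)
    rw [abs_le]
    constructor <;> linarith [hz.1, hz.2, hx.1, hx.2]
  have h2 : ∀ x ∈ Set.Icc a b, ‖g x * v x‖ ≤ Q * (M * ℓ) := by
    intro x hx
    rw [norm_mul, Real.norm_eq_abs, Real.norm_eq_abs]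
    exact mul_le_mul (hg x) (h1 x hx) (abs_nonneg _) hQ0
  have h3 := (convex_Icc a b).norm_image_sub_le_of_norm_hasDerivWithin_le (f := v')
      (f' := fun x => g x * v x) (C := Q * (M * ℓ)) (fun y _ => (hv' y).hasDerivWithinAt) h2 hc hx1
  rw [hvc, sub_zero, Real.norm_eq_abs, Real.norm_eq_abs, ← hM] at h3
  have h4 : |x1 - c| ≤ ℓ := by
    rw [abs_le]
    constructor <;> linarith [hc.1, hc.2, hx1.1, hx1.2]
  have h5 : M ≤ Q * (M * ℓ) * ℓ := h3.trans (mul_le_mul_of_nonneg_left h4 (by positivity))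
  have h6 : M = 0 := by
    have h7 : Q * (M * ℓ) * ℓ = M * (ℓ ^ 2 * Q) := by ring
    rw [h7] at h5
    nlinarith
  intro x hx
  have h7 := hMb x hx
  have h8 := h1 x hx
  rw [h6] at h7 h8
  rw [zero_mul] at h8
  exact ⟨abs_nonpos_iff.1 h8, abs_nonpos_iff.1 h7⟩

/-- A solution with a zero close to a critical point vanishes. -/
theorem rigid {v v' g : ℝ → ℝ} {Q ℓ : ℝ} (hℓ : 0 < ℓ) (hv : ∀ x, HasDerivAt v (v' x) x)
    (hv' : ∀ x, HasDerivAt v' (g x * v x) x) (hg : ∀ x, |g x| ≤ Q) (hQ : ℓ ^ 2 * Q ≤ 1 / 4)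
    {z c : ℝ} (hzc : |z - c| ≤ ℓ) (hvz : v z = 0) (hvc : v' c = 0) : ∀ x, v x = 0 := by
  have h0 : v z = 0 ∧ v' z = 0 := by
    rcases le_total z c with h | h
    · exact rigid_loc hv hv' hg hQ (a := z) (b := c)
        (by rw [abs_le] at hzc; linarith [hzc.1]) ⟨le_rfl, h⟩ ⟨h, le_rfl⟩ hvz hvc z ⟨le_rfl, h⟩
    · exact rigid_loc hv hv' hg hQ (a := c) (b := z)
        (by rw [abs_le] at hzc; linarith [hzc.2]) ⟨h, le_rfl⟩ ⟨le_rfl, h⟩ hvz hvc z ⟨h, le_rfl⟩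
  have hfor : ∀ k : ℕ, v (z + k * ℓ) = 0 ∧ v' (z + k * ℓ) = 0 := by
    intro k
    induction k with
    | zero => simpa using h0
    | succ k ih =>
      have := rigid_loc hv hv' hg hQ (a := z + k * ℓ) (b := z + (k + 1 : ℕ) * ℓ)
        (by push_cast; linarith) ⟨le_rfl, by push_cast; linarith⟩
        ⟨le_rfl, by push_cast; linarith⟩ ih.1 ih.2 (z + (k + 1 : ℕ) * ℓ)
        ⟨by push_cast; linarith, le_rfl⟩
      exact this
  have hback : ∀ k : ℕ, v (z - k * ℓ) = 0 ∧ v' (z - k * ℓ) = 0 := by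
    intro k
    induction k with
    | zero => simpa using h0
    | succ k ih =>
      have := rigid_loc hv hv' hg hQ (a := z - (k + 1 : ℕ) * ℓ) (b := z - k * ℓ)
        (by push_cast; linarith) ⟨by push_cast; linarith, le_rfl⟩
        ⟨by push_cast; linarith, le_rfl⟩ ih.1 ih.2 (z - (k + 1 : ℕ) * ℓ)
        ⟨le_rfl, by push_cast; linarith⟩
      exact this
  intro x
  rcases le_total z x with h | h
  · set k := ⌊(x - z) / ℓ⌋₊ with hk
    have h1 : (k : ℝ) ≤ (x - z) / ℓ := Nat.floor_le (by apply div_nonneg <;> linarith)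
    have h2 : (x - z) / ℓ < k + 1 := Nat.lt_floor_add_one _
    rw [le_div_iff₀ hℓ] at h1
    rw [div_lt_iff₀ hℓ] at h2
    exact (rigid_loc hv hv' hg hQ (a := z + k * ℓ) (b := z + (k + 1 : ℕ) * ℓ)
        (by push_cast; linarith) ⟨le_rfl, by push_cast; linarith⟩
        ⟨le_rfl, by push_cast; linarith⟩ (hfor k).1 (hfor k).2 x
        ⟨by linarith, by push_cast; linarith⟩).1
  · set k := ⌊(z - x) / ℓ⌋₊ with hk
    have h1 : (k : ℝ) ≤ (z - x) / ℓ := Nat.floor_le (by apply div_nonneg <;> linarith)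
    have h2 : (z - x) / ℓ < k + 1 := Nat.lt_floor_add_one _
    rw [le_div_iff₀ hℓ] at h1
    rw [div_lt_iff₀ hℓ] at h2
    exact (rigid_loc hv hv' hg hQ (a := z - (k + 1 : ℕ) * ℓ) (b := z - k * ℓ)
        (by push_cast; linarith) ⟨by push_cast; linarith, le_rfl⟩
        ⟨by push_cast; linarith, le_rfl⟩ (hback k).1 (hback k).2 x
        ⟨by push_cast; linarith, by linarith⟩).1

/-- Uniform lower bound. -/
theorem kappa {v v' : ℝ → ℝ} {T ℓ : ℝ} (hT : 0 < T) (hℓ : 0 < ℓ) (hv : Continuous v)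
    (hv' : Continuous v') (pv : ∀ x, v (x + T) = v x) (pv' : ∀ x, v' (x + T) = v' x)
    (h : ∀ z c, |z - c| ≤ ℓ → ¬ (v z = 0 ∧ v' c = 0)) :
    ∃ κ : ℝ, 0 < κ ∧ ∀ z c, |z - c| ≤ ℓ → κ ≤ |v z| + |v' c| := by
  have hc : Continuous fun p : ℝ × ℝ => |v p.1| + |v' (p.1 + p.2)| := by fun_prop
  have hK : IsCompact (Set.Icc (0 : ℝ) T ×ˢ Set.Icc (-ℓ) ℓ) := isCompact_Icc.prod isCompact_Icc
  obtain ⟨p, hp, hmin⟩ := hK.exists_isMinOn ⟨(0, 0), ⟨⟨le_rfl, hT.le⟩, ⟨by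
    simpa using hℓ.le, hℓ.le⟩⟩⟩ hc.continuousOn
  refine ⟨|v p.1| + |v' (p.1 + p.2)|, ?_, ?_⟩
  · by_contra hcon
    push Not at hcon
    have h1 := abs_nonneg (v p.1)
    have h2 := abs_nonneg (v' (p.1 + p.2))
    refine h p.1 (p.1 + p.2) ?_ ⟨abs_nonpos_iff.1 (by linarith), abs_nonpos_iff.1 (by linarith)⟩
    rw [sub_add_cancel_left, abs_neg]
    exact abs_le.2 hp.2
  · intro z c hzc
    have hper : Function.Periodic v T := pv
    have hper' : Function.Periodic v' T := pv'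
    have h1 := sub_toIcoDiv_zsmul_mem_Ico hT 0 z
    set m := toIcoDiv hT 0 z
    rw [zero_add] at h1
    have e1 : v (z - m • T) = v z := hper.sub_zsmul_eq m
    have e2 : v' (c - m • T) = v' c := hper'.sub_zsmul_eq m
    have h2 : (z - m • T, c - z) ∈ Set.Icc (0 : ℝ) T ×ˢ Set.Icc (-ℓ) ℓ := by
      refine ⟨⟨h1.1, h1.2.le⟩, ?_⟩
      rw [abs_sub_comm] at hzc
      exact abs_le.1 hzc
    have h3 := hmin h2
    simp only [Set.mem_ofPred_eq] at h3
    rw [e1, show z - m • T + (c - z) = c - m • T by ring, e2] at h3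
    exact h3

theorem Alt.of_mul {u : ℝ → ℝ} {c : ℝ} {I : Set ℝ} {n : ℕ} (h : Alt (fun x => c * u x) I n) :
    Alt u I n := by
  obtain ⟨t, h1, h2, h3⟩ := h
  refine ⟨t, h1, h2, fun i hi => ?_⟩
  have h4 := h3 i hi
  have e : c * u (t i) * (c * u (t (i + 1))) = (c * c) * (u (t i) * u (t (i + 1))) := by ring
  simp only [e] at h4
  by_contra hcon
  push Not at hcon
  nlinarith [mul_self_nonneg c, mul_nonneg (mul_self_nonneg c) hcon]

/-- The core: distinct parameters. -/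
theorem sturm_core {T Q ℓ : ℝ} {q : ℝ → ℝ} (S : Finset ℝ) (U U' : ℝ → ℝ → ℝ) (hT : 0 < T)
    (hℓ : 0 < ℓ) (hQ : ℓ ^ 2 * Q ≤ 1 / 4) (hq : Continuous q) (hqp : ∀ x, q (x + T) = q x)
    (hb : ∀ ν ∈ S, ∀ x, |ν - q x| ≤ Q) (h1 : ∀ ν x, HasDerivAt (U ν) (U' ν x) x)
    (h2 : ∀ ν x, HasDerivAt (U' ν) ((ν - q x) * U ν x) x) (hp : ∀ ν x, U ν (x + T) = U ν x)
    (hne : ∀ ν ∈ S, ∃ x, U ν x ≠ 0) {s : ℝ} {M : ℕ} (hM : 1 ≤ M)
    (hA : Alt (fun x => ∑ ν ∈ S, U ν x) (Set.Ico s (s + T)) M) : (M : ℝ) * ℓ ≤ 2 * T := by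
  have hSne : S.Nonempty := by
    rw [Finset.nonempty_iff_ne_empty]
    rintro rfl
    obtain ⟨t, -, -, ht⟩ := hA
    have := ht 0 hM
    simp at this
  set ν0 := S.min' hSne with hν0
  have hν0S : ν0 ∈ S := S.min'_mem hSne
  have hmin : ∀ ν ∈ S, ν0 ≤ ν := fun ν hν => S.min'_le ν hν
  have hp' : ∀ ν x, U' ν (x + T) = U' ν x := by
    intro ν x
    have e1 : HasDerivAt (fun t => U ν (t + T)) (U' ν (x + T)) x :=
      (h1 ν (x + T)).comp_add_const x T
    have e2 : (fun t => U ν (t + T)) = U ν := funext fun t => hp ν t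
    rw [e2] at e1
    exact e1.unique (h1 ν x)
  have cU : ∀ ν, Continuous (U ν) := fun ν =>
    continuous_iff_continuousAt.2 fun x => (h1 ν x).continuousAt
  have cU' : ∀ ν, Continuous (U' ν) := fun ν =>
    continuous_iff_continuousAt.2 fun x => (h2 ν x).continuousAt
  -- bounds
  have hbd : ∀ f : ℝ → ℝ, Continuous f → (∀ x, f (x + T) = f x) → ∃ B : ℝ, ∀ x, |f x| ≤ B := by
    intro f hf hfp
    have hper : Function.Periodic f T := hfp
    obtain ⟨B, hB⟩ := (hper.compact_of_continuous hT.ne' hf).isBounded.exists_norm_le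
    exact ⟨B, fun x => hB _ ⟨x, rfl⟩⟩
  choose B hB using fun ν => hbd (U ν) (cU ν) (hp ν)
  choose B' hB' using fun ν => hbd (U' ν) (cU' ν) (hp' ν)
  obtain ⟨Bq, hBq⟩ := hbd q hq hqp
  -- the parameter
  obtain ⟨a, ha1, ha2⟩ : ∃ a : ℝ, (∀ x, 0 < a - q x) ∧ ∀ ν ∈ S, 0 < a - ν := by
    refine ⟨Bq + 1 + ∑ ν ∈ S, |ν|, fun x => ?_, fun ν hν => ?_⟩
    · have := le_abs_self (q x)
      have := hBq x
      have : 0 ≤ ∑ ν ∈ S, |ν| := Finset.sum_nonneg fun _ _ => abs_nonneg _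
      linarith
    · have h3 : |ν| ≤ ∑ ν ∈ S, |ν| := Finset.single_le_sum (fun _ _ => abs_nonneg _) hν
      have := le_abs_self ν
      have := (abs_nonneg _).trans (hBq 0)
      linarith
  have ha0 := ha2 ν0 hν0S
  set ρ : ℝ → ℝ := fun ν => (a - ν) / (a - ν0) with hρ
  have hρ0 : ∀ ν ∈ S, 0 ≤ ρ ν := fun ν hν => div_nonneg (ha2 ν hν).le ha0.le
  have hρ1 : ∀ ν ∈ S.erase ν0, ρ ν < 1 := by
    intro ν hν
    rw [Finset.mem_erase] at hν
    rw [hρ]
    simp only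
    rw [div_lt_one ha0]
    have := lt_of_le_of_ne (hmin ν hν.2) (Ne.symm hν.1)
    linarith
  set v : ℕ → ℝ → ℝ := fun m x => ∑ ν ∈ S, ρ ν ^ m * U ν x with hv
  set v' : ℕ → ℝ → ℝ := fun m x => ∑ ν ∈ S, ρ ν ^ m * U' ν x with hv'
  set v'' : ℕ → ℝ → ℝ := fun m x => ∑ ν ∈ S, ρ ν ^ m * ((ν - q x) * U ν x) with hv''
  have d1 : ∀ m x, HasDerivAt (v m) (v' m x) x := fun m x =>
    HasDerivAt.fun_sum fun ν _ => (h1 ν x).const_mul _
  have d2 : ∀ m x, HasDerivAt (v' m) (v'' m x) x := fun m x =>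
    HasDerivAt.fun_sum fun ν _ => (h2 ν x).const_mul _
  have hL : ∀ m x, -v'' m x + (a - q x) * v m x = (a - ν0) * v (m + 1) x := by
    intro m x
    rw [hv, hv'']
    simp only
    rw [Finset.mul_sum, Finset.mul_sum, ← Finset.sum_neg_distrib, ← Finset.sum_add_distrib]
    refine Finset.sum_congr rfl fun ν _ => ?_
    have e : (a - ν0) * ρ ν = a - ν := by
      rw [hρ]
      simp only
      field_simp
    rw [pow_succ]
    calc -(ρ ν ^ m * ((ν - q x) * U ν x)) + (a - q x) * (ρ ν ^ m * U ν x)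
        = (a - ν) * (ρ ν ^ m * U ν x) := by ring
      _ = ((a - ν0) * ρ ν) * (ρ ν ^ m * U ν x) := by rw [e]
      _ = _ := by ring
  have hiter : ∀ (I : Set ℝ), I.OrdConnected → ∀ (m n : ℕ), Alt (v 0) I (n + 2 * m) →
      Alt (v m) I n := by
    intro I hI m
    induction m with
    | zero => intro n h; simpa using h
    | succ m ih =>
      intro n h
      have h3 := ih (n + 2) (by rw [show n + 2 + 2 * m = n + 2 * (m + 1) by ring]; exact h)
      have h4 := alt_step (d1 m) (d2 m) ha1 hI h3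
      simp only [hL] at h4
      exact h4.of_mul
  -- the limit
  have hconv : ∀ ε : ℝ, 0 < ε → ∃ m : ℕ, ∀ x, |v m x - U ν0 x| < ε ∧ |v' m x - U' ν0 x| < ε := by
    intro ε hε
    have hpow : ∀ ν ∈ S.erase ν0, Tendsto (fun m : ℕ => ρ ν ^ m * (|B ν| + |B' ν|)) atTop (𝓝 0) := by
      intro ν hν
      have := (tendsto_pow_atTop_nhds_zero_of_lt_one (hρ0 ν (Finset.mem_of_mem_erase hν))
        (hρ1 ν hν)).mul_const (|B ν| + |B' ν|)
      rwa [zero_mul] at this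
    have hsum := tendsto_finsetSum (S.erase ν0) hpow
    rw [Finset.sum_const_zero] at hsum
    obtain ⟨m, hm⟩ := (hsum.eventually (gt_mem_nhds hε)).exists
    have hρν0 : ρ ν0 = 1 := div_self ha0.ne'
    have hgen : ∀ (F : ℝ → ℝ → ℝ), (∀ ν ∈ S.erase ν0, ∀ x, |F ν x| ≤ |B ν| + |B' ν|) → ∀ x,
        |(∑ ν ∈ S, ρ ν ^ m * F ν x) - F ν0 x| < ε := by
      intro F hF x
      rw [← Finset.add_sum_erase S _ hν0S, hρν0, one_pow, one_mul, add_sub_cancel_left]
      refine lt_of_le_of_lt (Finset.abs_sum_le_sum_abs _ _) (lt_of_le_of_lt ?_ hm)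
      refine Finset.sum_le_sum fun ν hν => ?_
      rw [abs_mul, abs_of_nonneg (pow_nonneg (hρ0 ν (Finset.mem_of_mem_erase hν)) m)]
      exact mul_le_mul_of_nonneg_left (hF ν hν x)
        (pow_nonneg (hρ0 ν (Finset.mem_of_mem_erase hν)) m)
    refine ⟨m, fun x => ⟨hgen U (fun ν _ x => ?_) x, hgen U' (fun ν _ x => ?_) x⟩⟩
    · have := (hB ν x).trans (le_abs_self _)
      linarith [abs_nonneg (B' ν)]
    · have := (hB' ν x).trans (le_abs_self _)
      linarith [abs_nonneg (B ν)]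
  have hrig : ∀ z c, |z - c| ≤ ℓ → ¬ (U ν0 z = 0 ∧ U' ν0 c = 0) := by
    rintro z c hzc ⟨e1, e2⟩
    obtain ⟨x, hx⟩ := hne ν0 hν0S
    exact hx (rigid hℓ (h1 ν0) (h2 ν0) (hb ν0 hν0S) hQ hzc e1 e2 x)
  obtain ⟨κ, hκ, hκ2⟩ := kappa hT hℓ (cU ν0) (cU' ν0) (hp ν0) (hp' ν0) hrig
  obtain ⟨m, hm⟩ := hconv (κ / 2) (by positivity)
  have hno : ∀ a b : ℝ, b - a ≤ ℓ → ¬ Alt (v m) (Set.Icc a b) 2 := by
    intro a b hab h
    obtain ⟨z, c, hz, hc, e1, e2⟩ := alt_two (d1 m) h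
    have h3 := hκ2 z c (by
      rw [abs_le]
      constructor <;> linarith [hz.1, hz.2, hc.1, hc.2])
    have h4 := (hm z).1
    have h5 := (hm c).2
    rw [e1, zero_sub, abs_neg] at h4
    rw [e2, zero_sub, abs_neg] at h5
    linarith
  -- the count
  have hv0 : v 0 = fun x => ∑ ν ∈ S, U ν x := by
    funext x
    simp [hv]
  rw [← hv0] at hA
  have hper : ∀ x, v 0 (x + T) = v 0 x := by
    intro x
    simp only [hv, hp]
  obtain ⟨p, hp1, hp2, hp3⟩ := alt_ext hT hper hM hA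
  have hmain : ∀ N : ℕ, 1 ≤ N → ((N : ℝ) * p - 2 - 2 * m) * ℓ ≤ 2 * (N * T) := by
    intro N hN
    rcases Nat.lt_or_ge (N * p - 1) (2 * m) with h3 | h3
    · have h4 : N * p < 2 * m + 1 := by omega
      have h5 : (N : ℝ) * p < 2 * m + 1 := by exact_mod_cast h4
      have h6 : 0 ≤ 2 * ((N : ℝ) * T) := by positivity
      nlinarith
    · have h4 : Alt (v m) (Set.Icc s (s + N * T)) (N * p - 1 - 2 * m) :=
        hiter _ Set.ordConnected_Icc m _ (by
          rw [Nat.sub_add_cancel h3]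
          exact hp3 N hN)
      have h5 := alt_spacing hℓ hno h4
      have h6 : 1 ≤ N * p := Nat.mul_pos (by omega) (by omega)
      rw [Nat.cast_sub h3, Nat.cast_sub h6] at h5
      push_cast at h5
      have h7 : s + N * T - s = N * T := by ring
      rw [h7] at h5
      refine le_trans (le_of_eq ?_) h5
      ring
  have hpl : (p : ℝ) * ℓ ≤ 2 * T := by
    by_contra hcon
    push Not at hcon
    obtain ⟨N, hN⟩ := exists_nat_gt ((2 + 2 * m) * ℓ / ((p : ℝ) * ℓ - 2 * T))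
    have hd : 0 < (p : ℝ) * ℓ - 2 * T := by linarith
    rw [div_lt_iff₀ hd] at hN
    have hN1 : 1 ≤ N := by
      rw [Nat.one_le_iff_ne_zero]
      rintro rfl
      rw [Nat.cast_zero, zero_mul] at hN
      have : 0 ≤ (2 + 2 * (m : ℝ)) * ℓ := by positivity
      linarith
    have := hmain N hN1
    nlinarith
  have : (M : ℝ) ≤ p := by exact_mod_cast hp1
  nlinarith

theorem stSturm : StSturm := by
  classical
  intro n T Q ℓ q ν w w' hT hℓ hQ hq hqp hb h1 h2 hp s M hA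
  rcases Nat.eq_zero_or_pos M with hM | hM
  · rw [hM, Nat.cast_zero, zero_mul]
    positivity
  set U : ℝ → ℝ → ℝ := fun μ x => ∑ i ∈ Finset.univ.filter (fun i => ν i = μ), w i x with hU
  set U' : ℝ → ℝ → ℝ := fun μ x => ∑ i ∈ Finset.univ.filter (fun i => ν i = μ), w' i x with hU'
  set S0 : Finset ℝ := Finset.univ.image ν with hS0
  set S : Finset ℝ := S0.filter (fun μ => ∃ x, U μ x ≠ 0) with hS
  have hsum : ∀ x, ∑ i, w i x = ∑ μ ∈ S, U μ x := by
    intro x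
    have e1 : ∑ i, w i x = ∑ μ ∈ S0, U μ x := by
      rw [hU]
      simp only
      exact (Finset.sum_fiberwise_of_maps_to
        (fun i _ => Finset.mem_image_of_mem ν (Finset.mem_univ i)) _).symm
    rw [e1, hS, Finset.sum_filter]
    refine Finset.sum_congr rfl fun μ _ => ?_
    split_ifs with h
    · rfl
    · push Not at h
      exact h x
  refine sturm_core S U U' hT hℓ hQ hq hqp (fun μ hμ x => ?_) (fun μ x => ?_) (fun μ x => ?_)
    (fun μ x => ?_) (fun μ hμ => ?_) hM (s := s) (hA.congr fun x _ => hsum x)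
  · obtain ⟨i, -, rfl⟩ := Finset.mem_image.1 (Finset.mem_filter.1 hμ).1
    exact hb i x
  · exact HasDerivAt.fun_sum fun i _ => h1 i x
  · have h3 : HasDerivAt (U' μ) (∑ i ∈ Finset.univ.filter (fun i => ν i = μ),
        (ν i - q x) * w i x) x := HasDerivAt.fun_sum fun i _ => h2 i x
    refine h3.congr_deriv ?_
    rw [hU]
    simp only
    rw [Finset.mul_sum]
    refine Finset.sum_congr rfl fun i hi => ?_
    rw [(Finset.mem_filter.1 hi).2]
  · rw [hU]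
    simp only [hp]
  · exact (Finset.mem_filter.1 hμ).2

end Pool.Agent.N273.LT
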