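import Pool.Agent.N273.LT.Fn
import Mathlib.Analysis.ODE.PicardLindelof

/-!
# Riccati equations, the stream function
-/

set_option autoImplicit false

open MeasureTheory Real Function Metric Set

namespace Pool.Agent.N273.LT

open Pool.Agent.R220.LV (par_cont par_deriv swap int_add int_sub contDiff_one_of)
open Pool.Agent.Y291.PA (Sol2)

/-- The Riccati equation. -/
theorem riccati {F : ℝ → ℝ} (hF : Continuous F) (hb : ∀ x, |F x| ≤ 1 / 100) :
    ∃ a : ℝ → ℝ, Continuous a ∧ (∀ x, |a x| ≤ 1 / 10) ∧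
      ∀ x ∈ Ioo (-5 : ℝ) 5, HasDerivAt a (-F x - a x ^ 2) x := by
  have hball : ∀ y : ℝ, y ∈ closedBall (0 : ℝ) ((1 / 10 : NNReal) : ℝ) → |y| ≤ 1 / 10 := by
    intro y hy
    rw [mem_closedBall_zero_iff, Real.norm_eq_abs] at hy
    simpa using hy
  have hP : IsPicardLindelof (fun t a : ℝ => -F t - a ^ 2) (tmin := -5) (tmax := 5)
      ⟨0, by norm_num, by norm_num⟩ (0 : ℝ) (1 / 10 : NNReal) 0 (1 / 50 : NNReal)
      (1 / 5 : NNReal) := by
    refine ⟨fun t _ => ?_, fun x _ => ?_, fun t _ x hx => ?_, ?_⟩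
    · refine LipschitzOnWith.of_dist_le_mul fun x hx y hy => ?_
      have h1 := hball x hx
      have h2 := hball y hy
      rw [Real.dist_eq, Real.dist_eq]
      have h3 : -F t - x ^ 2 - (-F t - y ^ 2) = -((x + y) * (x - y)) := by ring
      rw [h3, abs_neg, abs_mul]
      refine mul_le_mul_of_nonneg_right ?_ (abs_nonneg _)
      refine (abs_add_le x y).trans ?_
      have h4 : (((1 / 5 : NNReal)) : ℝ) = 1 / 5 := by norm_num
      rw [h4]
      linarith
    · exact (hF.neg.sub continuous_const).continuousOn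
    · have h1 := hball x hx
      rw [Real.norm_eq_abs]
      have h2 : |-F t - x ^ 2| ≤ |F t| + |x| ^ 2 := by
        have := abs_sub (-F t) (x ^ 2)
        rw [abs_neg, abs_pow] at this
        exact this
      have h3 : |x| ^ 2 ≤ (1 / 10) ^ 2 := pow_le_pow_left₀ (abs_nonneg _) h1 2
      have h4 : (((1 / 50 : NNReal)) : ℝ) = 1 / 50 := by norm_num
      rw [h4]
      have := hb t
      linarith
    · have h4 : (((1 / 50 : NNReal)) : ℝ) = 1 / 50 := by norm_num
      have h5 : (((1 / 10 : NNReal)) : ℝ) = 1 / 10 := by norm_num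
      have h6 : (((0 : NNReal)) : ℝ) = 0 := by norm_num
      rw [h4, h5, h6]
      norm_num
  obtain ⟨α, hα⟩ := ODE.FunSpace.exists_isFixedPt_next hP (mem_closedBall_self le_rfl)
  have hpic : ∀ t ∈ Icc (-5 : ℝ) 5, α.compProj t =
      ODE.picard (fun t a : ℝ => -F t - a ^ 2) 0 0 α.compProj t := by
    intro t ht
    rw [ODE.FunSpace.compProj_of_mem ht]
    exact (ODE.FunSpace.isFixedPt_next_iff hP (mem_closedBall_self le_rfl)).1 hα ⟨t, ht⟩
  refine ⟨α.compProj, α.continuous_compProj, fun x => ?_, fun x hx => ?_⟩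
  · exact hball _ (α.compProj_mem_closedBall hP.mul_max_le)
  · have hc : ContinuousOn (uncurry fun t a : ℝ => -F t - a ^ 2) (Icc (-5 : ℝ) 5 ×ˢ univ) := by
      refine Continuous.continuousOn ?_
      show Continuous fun p : ℝ × ℝ => -F p.1 - p.2 ^ 2
      fun_prop
    have h1 := ODE.hasDerivWithinAt_picard_Icc (t₀ := 0) (by norm_num) hc
      α.continuous_compProj.continuousOn (fun t _ => mem_univ _) 0 (Ioo_subset_Icc_self hx)
    have h2 := h1.hasDerivAt (Icc_mem_nhds hx.1 hx.2)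
    refine h2.congr_of_eventuallyEq ?_
    filter_upwards [Icc_mem_nhds hx.1 hx.2] with t ht
    exact hpic t ht

/-- The exponential of the primitive. -/
noncomputable def ex (a : ℝ → ℝ) (x : ℝ) : ℝ := Real.exp (∫ t in (0 : ℝ)..x, a t)

theorem ex_pos (a : ℝ → ℝ) (x : ℝ) : 0 < ex a x := Real.exp_pos _

theorem ex_deriv {a : ℝ → ℝ} (ha : Continuous a) (x : ℝ) : HasDerivAt (ex a) (ex a x * a x) x := by
  have h2 : HasDerivAt (fun t => ∫ s in (0 : ℝ)..t, a s) (a x) x :=
    intervalIntegral.integral_hasDerivAt_right (ha.intervalIntegrable _ _)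
      (ha.stronglyMeasurableAtFilter _ _) ha.continuousAt
  exact h2.exp

theorem ex_cont {a : ℝ → ℝ} (ha : Continuous a) : Continuous (ex a) :=
  continuous_iff_continuousAt.2 fun x => (ex_deriv ha x).continuousAt

theorem ex_bound {a : ℝ → ℝ} (hb : ∀ x, |a x| ≤ 1 / 10) {x : ℝ} (hx : |x| ≤ 5) :
    Real.exp (-(1 / 2)) ≤ ex a x ∧ ex a x ≤ Real.exp (1 / 2) := by
  have h1 : |∫ t in (0 : ℝ)..x, a t| ≤ 1 / 2 := by
    have h2 := intervalIntegral.norm_integral_le_of_norm_le_const (a := 0) (b := x) (f := a)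
      (C := 1 / 10) (fun t _ => hb t)
    rw [Real.norm_eq_abs, sub_zero] at h2
    linarith
  rw [abs_le] at h1
  exact ⟨Real.exp_le_exp.2 h1.1, Real.exp_le_exp.2 h1.2⟩

end Pool.Agent.N273.LT
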