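import Pool.Agent.N273.LT.Wk1

/-!
# The stream function
-/

set_option autoImplicit false

open MeasureTheory Real Function Metric Set

namespace Pool.Agent.N273.LT

open Pool.Agent.R220.LV (par_cont par_deriv swap int_add int_sub contDiff_one_of)
open Pool.Agent.Y291.PA (Sol2)

/-- The primitive with a parameter. -/
theorem par_cont2 {F : ℝ → ℝ → ℝ} (hF : Continuous (uncurry F)) (c : ℝ) :
    Continuous (uncurry fun x y => ∫ t in c..y, F x t) := by
  have h := intervalIntegral.continuous_parametric_intervalIntegral_of_continuous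
    (μ := volume) (a₀ := c) (f := fun (p : ℝ × ℝ) t => F p.1 t) (s := fun p : ℝ × ℝ => p.2)
    (by
      have : Continuous fun q : (ℝ × ℝ) × ℝ => uncurry F (q.1.1, q.2) := hF.comp (by fun_prop)
      exact this) continuous_snd
  exact h

theorem prim_deriv {h : ℝ → ℝ} (hc : Continuous h) (c x : ℝ) :
    HasDerivAt (fun x => ∫ t in c..x, h t) (h x) x :=
  intervalIntegral.integral_hasDerivAt_right (hc.intervalIntegrable _ _)
    (hc.stronglyMeasurableAtFilter _ _) hc.continuousAt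

/-- The stream function. -/
theorem stream {F G : ℝ → ℝ} {Φ Φx Φxx Φy Φyy : ℝ → ℝ → ℝ} (hF : Continuous F)
    (hS : Sol2 (fun x y => F x + G y) Φ Φx Φxx Φy Φyy) {a c : ℝ → ℝ} (ha : Continuous a)
    (hc : Continuous c) (da : ∀ x ∈ Ioo (-5 : ℝ) 5, HasDerivAt a (-F x - a x ^ 2) x)
    (dc : ∀ x ∈ Ioo (-5 : ℝ) 5, HasDerivAt c (-G x - c x ^ 2) x) {x₀ y₁ : ℝ}
    (hx₀ : x₀ ∈ Ioo (-5 : ℝ) 5) (hy₁ : y₁ ∈ Ioo (-5 : ℝ) 5) :
    ∃ s sx sy : ℝ → ℝ → ℝ, Continuous (uncurry sx) ∧ Continuous (uncurry sy) ∧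
      (∀ x y, HasDerivAt (fun t => s t y) (sx x y) x) ∧
      (∀ x y, HasDerivAt (fun t => s x t) (sy x y) y) ∧
      (∀ x ∈ Ioo (-5 : ℝ) 5, ∀ y ∈ Ioo (-5 : ℝ) 5,
        sx x y = ex a x * ex c y * (c y * Φ x y - Φy x y) ∧
        sy x y = ex a x * ex c y * (Φx x y - a x * Φ x y) ∧
        s x y = (∫ ξ in x₀..x, ex a ξ * ex c y₁ * (c y₁ * Φ ξ y₁ - Φy ξ y₁)) +
          ∫ t in y₁..y, ex a x * ex c t * (Φx x t - a x * Φ x t)) := by
  have cA := ex_cont ha
  have cB := ex_cont hc
  have hΦ : Continuous fun p : ℝ × ℝ => Φ p.1 p.2 := hS.c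
  have hΦx : Continuous fun p : ℝ × ℝ => Φx p.1 p.2 := hS.cx
  have hΦy : Continuous fun p : ℝ × ℝ => Φy p.1 p.2 := hS.cy
  have hΦxx : Continuous fun p : ℝ × ℝ => Φxx p.1 p.2 := hS.cxx
  have hΦyy : Continuous fun p : ℝ × ℝ => Φyy p.1 p.2 := hS.cyy
  -- the second derivative term
  set D : ℝ → ℝ → ℝ := fun x t => ex a x * (Φxx x t + F x * Φ x t) with hD
  have cD : Continuous (uncurry D) := by
    show Continuous fun p : ℝ × ℝ => ex a p.1 * (Φxx p.1 p.2 + F p.1 * Φ p.1 p.2)
    fun_prop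
  set K : ℝ → ℝ → ℝ := fun x t => ex a x₀ * (Φx x₀ t - a x₀ * Φ x₀ t) + ∫ ξ in x₀..x, D ξ t with hK
  have cK : Continuous (uncurry K) := by
    have h1 : Continuous (uncurry fun t x => ∫ ξ in x₀..x, D ξ t) :=
      par_cont2 (F := fun t ξ => D ξ t) (cD.comp continuous_swap) x₀
    have h2 : Continuous fun p : ℝ × ℝ => ∫ ξ in x₀..p.1, D ξ p.2 := h1.comp continuous_swap
    have h3 : Continuous fun p : ℝ × ℝ => Φx x₀ p.2 :=
      hΦx.comp (continuous_const.prodMk continuous_snd)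
    have h4 : Continuous fun p : ℝ × ℝ => Φ x₀ p.2 :=
      hΦ.comp (continuous_const.prodMk continuous_snd)
    show Continuous fun p : ℝ × ℝ => ex a x₀ * (Φx x₀ p.2 - a x₀ * Φ x₀ p.2) + ∫ ξ in x₀..p.1, D ξ p.2
    exact (continuous_const.mul (h3.sub (continuous_const.mul h4))).add h2
  have dK : ∀ x t, HasDerivAt (fun x => K x t) (D x t) x := fun x t =>
    (prim_deriv (cD.comp (Continuous.prodMk_left t)) x₀ x).const_add _
  -- evaluation of `K`
  have eK : ∀ x ∈ Ioo (-5 : ℝ) 5, ∀ t, K x t = ex a x * (Φx x t - a x * Φ x t) := by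
    intro x hx t
    have h1 : ∀ ξ ∈ uIcc x₀ x, HasDerivAt (fun ξ => ex a ξ * (Φx ξ t - a ξ * Φ ξ t)) (D ξ t) ξ := by
      intro ξ hξ
      have hξ' : ξ ∈ Ioo (-5 : ℝ) 5 := (ordConnected_Ioo.uIcc_subset hx₀ hx) hξ
      have h2 := (ex_deriv ha ξ).mul ((hS.dxx ξ t).sub ((da ξ hξ').mul (hS.dx ξ t)))
      refine h2.congr_deriv ?_
      simp only [hD, Pi.sub_apply, Pi.mul_apply]
      ring
    have h3 := intervalIntegral.integral_eq_sub_of_hasDerivAt h1
      ((cD.comp (Continuous.prodMk_left t)).intervalIntegrable _ _)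
    have h4 : ∫ ξ in x₀..x, D ξ t = ex a x * (Φx x t - a x * Φ x t) -
        ex a x₀ * (Φx x₀ t - a x₀ * Φ x₀ t) := h3
    simp only [hK]
    rw [h4]
    ring
  -- the first integral
  set J : ℝ → ℝ := fun ξ => ex a ξ * ex c y₁ * (c y₁ * Φ ξ y₁ - Φy ξ y₁) with hJ
  have cJ : Continuous J := by
    have h1 : Continuous fun ξ : ℝ => Φ ξ y₁ := hΦ.comp (Continuous.prodMk_left y₁)
    have h2 : Continuous fun ξ : ℝ => Φy ξ y₁ := hΦy.comp (Continuous.prodMk_left y₁)
    exact (cA.mul continuous_const).mul ((continuous_const.mul h1).sub h2)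
  -- the integrands with weights
  have cBK : Continuous (uncurry fun x t => ex c t * K x t) := by
    have h1 : Continuous fun p : ℝ × ℝ => ex c p.2 * uncurry K p :=
      (cB.comp continuous_snd).mul cK
    exact h1
  have cBD : Continuous (uncurry fun x t => ex c t * D x t) := by
    have h1 : Continuous fun p : ℝ × ℝ => ex c p.2 * uncurry D p :=
      (cB.comp continuous_snd).mul cD
    exact h1
  refine ⟨fun x y => (∫ ξ in x₀..x, J ξ) + ∫ t in y₁..y, ex c t * K x t,
    fun x y => J x + ∫ t in y₁..y, ex c t * D x t, fun x y => ex c y * K x y, ?_, ?_, ?_, ?_, ?_⟩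
  · have h1 := par_cont2 cBD y₁
    have h2 : Continuous fun p : ℝ × ℝ => J p.1 + uncurry (fun x y => ∫ t in y₁..y, ex c t * D x t) p :=
      (cJ.comp continuous_fst).add h1
    exact h2
  · exact cBK
  · intro x y
    refine (prim_deriv cJ x₀ x).add ?_
    exact par_deriv cBK cBD (fun x t => (dK x t).const_mul (ex c t)) y₁ y x
  · intro x y
    exact (prim_deriv (h := fun t => ex c t * K x t) (cBK.comp (Continuous.prodMk_right x)) y₁ y).const_add _
  · intro x hx y hy
    refine ⟨?_, ?_, ?_⟩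
    · -- fundamental theorem in `y`
      have h1 : ∀ t ∈ uIcc y₁ y, HasDerivAt (fun t => ex a x * ex c t * (c t * Φ x t - Φy x t))
          (ex c t * D x t) t := by
        intro t ht
        have ht' : t ∈ Ioo (-5 : ℝ) 5 := (ordConnected_Ioo.uIcc_subset hy₁ hy) ht
        have h2 := ((ex_deriv hc t).const_mul (ex a x)).mul
          (((dc t ht').mul (hS.dy x t)).sub (hS.dyy x t))
        refine h2.congr_deriv ?_
        simp only [hD, Pi.sub_apply, Pi.mul_apply]
        have h3 := hS.pde x t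
        linear_combination (-(ex a x * ex c t)) * h3
      have h3 := intervalIntegral.integral_eq_sub_of_hasDerivAt h1
        ((cBD.comp (Continuous.prodMk_right x)).intervalIntegrable _ _)
      have h4 : ∫ t in y₁..y, ex c t * D x t = ex a x * ex c y * (c y * Φ x y - Φy x y) -
          ex a x * ex c y₁ * (c y₁ * Φ x y₁ - Φy x y₁) := h3
      show J x + ∫ t in y₁..y, ex c t * D x t = _
      rw [h4]
      simp only [hJ]
      ring
    · show ex c y * K x y = _
      rw [eK x hx y]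
      ring
    · show (∫ ξ in x₀..x, J ξ) + ∫ t in y₁..y, ex c t * K x t = _
      congr 1
      refine intervalIntegral.integral_congr fun t _ => ?_
      rw [eK x hx t]
      ring

end Pool.Agent.N273.LT
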