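import Pool.Agent.N273.LT.Wk2

/-!
# The complex function
-/

set_option autoImplicit false

open MeasureTheory Complex Function Metric Set
open scoped ComplexConjugate

namespace Pool.Agent.N273.LT

open Pool.Agent.R220.LV (contDiff_one_of)
open Pool.Agent.Y291.PA (Sol2)
open Pool.Agent.H761R2.SV (dbar)

/-- `P + i R` as a function on the complex plane. -/
noncomputable def cx (P R : ℝ → ℝ → ℝ) (z : ℂ) : ℂ := (P z.re z.im : ℂ) + (R z.re z.im : ℂ) * I

theorem cx_dbar {P Px Py R Rx Ry : ℝ → ℝ → ℝ} (cPx : Continuous (uncurry Px))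
    (cPy : Continuous (uncurry Py)) (dPx : ∀ x y, HasDerivAt (fun t => P t y) (Px x y) x)
    (dPy : ∀ x y, HasDerivAt (fun t => P x t) (Py x y) y) (cRx : Continuous (uncurry Rx))
    (cRy : Continuous (uncurry Ry)) (dRx : ∀ x y, HasDerivAt (fun t => R t y) (Rx x y) x)
    (dRy : ∀ x y, HasDerivAt (fun t => R x t) (Ry x y) y) :
    ContDiff ℝ 1 (cx P R) ∧ ∀ z : ℂ, dbar (cx P R) z =
      (((Px z.re z.im - Ry z.re z.im : ℝ) : ℂ) + ((Py z.re z.im + Rx z.re z.im : ℝ) : ℂ) * I) / 2 := by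
  obtain ⟨h1, h2⟩ := contDiff_one_of cPx cPy dPx dPy
  obtain ⟨h3, h4⟩ := contDiff_one_of cRx cRy dRx dRy
  have e1 : cx P R = fun z => ofRealCLM (uncurry P (equivRealProdCLM z)) +
      ofRealCLM (uncurry R (equivRealProdCLM z)) * I := by
    funext z
    rfl
  constructor
  · rw [e1]
    exact (ofRealCLM.contDiff.comp (h2.comp equivRealProdCLM.contDiff)).add
      ((ofRealCLM.contDiff.comp (h4.comp equivRealProdCLM.contDiff)).mul contDiff_const)
  · intro z
    have h5 := (h1 (equivRealProdCLM z)).comp z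
      (equivRealProdCLM : ℂ ≃L[ℝ] ℝ × ℝ).hasFDerivAt
    have h6 := (h3 (equivRealProdCLM z)).comp z
      (equivRealProdCLM : ℂ ≃L[ℝ] ℝ × ℝ).hasFDerivAt
    have h7 := ofRealCLM.hasFDerivAt.comp z h5
    have h8 := (ofRealCLM.hasFDerivAt.comp z h6).mul_const I
    have h9 := h7.add h8
    have e2 : (fun z => ofRealCLM (uncurry P (equivRealProdCLM z)) +
      ofRealCLM (uncurry R (equivRealProdCLM z)) * I) = (ofRealCLM ∘ uncurry P ∘
        (equivRealProdCLM : ℂ ≃L[ℝ] ℝ × ℝ)) + fun y => (ofRealCLM ∘ uncurry R ∘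
        (equivRealProdCLM : ℂ ≃L[ℝ] ℝ × ℝ)) y * I := rfl
    rw [e1]
    unfold dbar
    rw [e2, h9.fderiv]
    simp
    linear_combination (Ry z.re z.im : ℂ) * I_mul_I

end Pool.Agent.N273.LT
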