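import Pool.Agent.N273.LT.Wk3
import Pool.Agent.N273.LT.Fx2

/-!
# The bound of the complex function
-/

set_option autoImplicit false

open MeasureTheory Complex Function Metric Set
open scoped ComplexConjugate

namespace Pool.Agent.N273.LT

open Pool.Agent.R220.LV (contDiff_one_of par_cont int_add swap)
open Pool.Agent.Y291.PA (Sol2 cacc2)
open Pool.Agent.H761R2.SV (dbar)

theorem Sol2.swap' {q φ φx φxx φy φyy : ℝ → ℝ → ℝ} (h : Sol2 q φ φx φxx φy φyy) :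
    Sol2 (fun x y => q y x) (fun x y => φ y x) (fun x y => φy y x) (fun x y => φyy y x)
      (fun x y => φx y x) (fun x y => φxx y x) :=
  ⟨h.qc.comp continuous_swap, h.c.comp continuous_swap, h.cy.comp continuous_swap,
    h.cyy.comp continuous_swap, h.cx.comp continuous_swap, h.cxx.comp continuous_swap,
    fun x y => h.dy y x, fun x y => h.dyy y x, fun x y => h.dx y x, fun x y => h.dxx y x,
    fun x y => by rw [add_comm]; exact h.pde y x⟩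

/-- Cauchy–Schwarz for subintervals. -/
theorem cs_gen {w : ℝ → ℝ} (hw : Continuous w) {α β p q : ℝ} (hp : p ∈ Icc α β) (hq : q ∈ Icc α β) :
    (∫ t in p..q, w t) ^ 2 ≤ (β - α) * ∫ t in α..β, w t * w t := by
  have h0 : ∀ p q, p ∈ Icc α β → q ∈ Icc α β → p ≤ q →
      (∫ t in p..q, w t) ^ 2 ≤ (β - α) * ∫ t in α..β, w t * w t := by
    intro p q hp hq hpq
    have h1 := cs_int hw hpq
    have h2 : ∫ t in p..q, w t * w t ≤ ∫ t in α..β, w t * w t :=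
      intervalIntegral.integral_mono_interval hp.1 hpq hq.2
        (Filter.Eventually.of_forall fun t => mul_self_nonneg _)
        ((hw.mul hw).intervalIntegrable _ _)
    have h3 : 0 ≤ ∫ t in p..q, w t * w t :=
      intervalIntegral.integral_nonneg hpq fun t _ => mul_self_nonneg _
    exact h1.trans (mul_le_mul (by linarith [hp.1, hq.2]) h2 h3 (by linarith [hp.1, hq.2]))
  rcases le_total p q with h | h
  · exact h0 p q hp hq h
  · rw [intervalIntegral.integral_symm, neg_sq]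
    exact h0 q p hq hp h

/-- The bound of the stream function. -/
theorem stream_bound {F G : ℝ → ℝ} {Φ Φx Φxx Φy Φyy : ℝ → ℝ → ℝ}
    (hS : Sol2 (fun x y => F x + G y) Φ Φx Φxx Φy Φyy) {a c : ℝ → ℝ} (ha : Continuous a)
    (hc : Continuous c) (ba : ∀ x, |a x| ≤ 1 / 10) (bc : ∀ x, |c x| ≤ 1 / 10)
    {x₀ y₀ κ : ℝ} (hx₀ : |x₀| ≤ 1) (hy₀ : |y₀| ≤ 1)
    (hκ : ∀ x y, |x - x₀| ≤ 1 → |y - y₀| ≤ 1 → |Φ x y| ≤ κ)
    {y₁ x y : ℝ} (hy₁ : y₁ ∈ Icc (y₀ - 1 / 2) (y₀ + 1 / 2))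
    (hx : x ∈ Icc (x₀ - 1 / 2) (x₀ + 1 / 2)) (hy : y ∈ Icc (y₀ - 1 / 2) (y₀ + 1 / 2)) :
    ((∫ ξ in x₀..x, ex a ξ * ex c y₁ * (c y₁ * Φ ξ y₁ - Φy ξ y₁)) +
          ∫ t in y₁..y, ex a x * ex c t * (Φx x t - a x * Φ x t)) ^ 2 ≤
      4 * Real.exp 2 * (κ ^ 2 / 50 + (∫ ξ in (x₀ - 1 / 2)..(x₀ + 1 / 2), Φy ξ y₁ ^ 2) +
        ∫ t in (y₀ - 1 / 2)..(y₀ + 1 / 2), Φx x t ^ 2) := by
  rw [abs_le] at hx₀ hy₀
  have hΦ : Continuous fun p : ℝ × ℝ => Φ p.1 p.2 := hS.c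
  have hΦx : Continuous fun p : ℝ × ℝ => Φx p.1 p.2 := hS.cx
  have hΦy : Continuous fun p : ℝ × ℝ => Φy p.1 p.2 := hS.cy
  have cA := ex_cont ha
  have cB := ex_cont hc
  have hAB : ∀ ξ t, |ξ| ≤ 5 → |t| ≤ 5 → (ex a ξ * ex c t) ^ 2 ≤ Real.exp 2 := by
    intro ξ t h1 h2
    have h3 := (ex_bound ba h1).2
    have h4 := (ex_bound bc h2).2
    have h5 : ex a ξ * ex c t ≤ Real.exp 1 := by
      have : Real.exp 1 = Real.exp (1 / 2) * Real.exp (1 / 2) := by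
        rw [← Real.exp_add]; norm_num
      rw [this]
      exact mul_le_mul h3 h4 (ex_pos _ _).le (Real.exp_pos _).le
    have h6 : Real.exp 2 = Real.exp 1 ^ 2 := by
      rw [← Real.exp_nat_mul]; norm_num
    rw [h6]
    exact pow_le_pow_left₀ (mul_pos (ex_pos _ _) (ex_pos _ _)).le h5 2
  have hΦκ : ∀ ξ ∈ Icc (x₀ - 1 / 2) (x₀ + 1 / 2), ∀ t ∈ Icc (y₀ - 1 / 2) (y₀ + 1 / 2),
      Φ ξ t ^ 2 ≤ κ ^ 2 := by
    intro ξ hξ t ht
    have h1 := hκ ξ t (abs_le.2 ⟨by linarith [hξ.1], by linarith [hξ.2]⟩)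
      (abs_le.2 ⟨by linarith [ht.1], by linarith [ht.2]⟩)
    rw [← sq_abs]
    exact pow_le_pow_left₀ (abs_nonneg _) h1 2
  have h5x : ∀ ξ ∈ Icc (x₀ - 1 / 2) (x₀ + 1 / 2), |ξ| ≤ 5 := fun ξ hξ =>
    abs_le.2 ⟨by linarith [hξ.1], by linarith [hξ.2]⟩
  have h5y : ∀ ξ ∈ Icc (y₀ - 1 / 2) (y₀ + 1 / 2), |ξ| ≤ 5 := fun ξ hξ =>
    abs_le.2 ⟨by linarith [hξ.1], by linarith [hξ.2]⟩
  have key : ∀ e A f b : ℝ, |b| ≤ 1 / 10 → A ^ 2 ≤ Real.exp 2 → f ^ 2 ≤ κ ^ 2 →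
      (A * (b * f - e)) * (A * (b * f - e)) ≤ Real.exp 2 * (2 * (κ ^ 2 / 100) + 2 * e ^ 2) := by
    intro e A f b hb hA hf
    have h1 : b ^ 2 ≤ (1 / 10) ^ 2 := by
      rw [← sq_abs]
      exact pow_le_pow_left₀ (abs_nonneg _) hb 2
    have h2 : (b * f - e) ^ 2 ≤ 2 * (κ ^ 2 / 100) + 2 * e ^ 2 := by
      have h3 : (b * f - e) ^ 2 ≤ 2 * (b * f) ^ 2 + 2 * e ^ 2 := by
        nlinarith [sq_nonneg (b * f + e)]
      have h4 : (b * f) ^ 2 ≤ κ ^ 2 / 100 := by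
        rw [mul_pow]
        have h5 : b ^ 2 * f ^ 2 ≤ (1 / 10) ^ 2 * κ ^ 2 :=
          mul_le_mul h1 hf (sq_nonneg _) (by norm_num)
        linarith
      linarith
    calc (A * (b * f - e)) * (A * (b * f - e)) = A ^ 2 * (b * f - e) ^ 2 := by ring
      _ ≤ _ := mul_le_mul hA h2 (sq_nonneg _) (Real.exp_pos _).le
  -- first integral
  have c1 : Continuous fun ξ => Φ ξ y₁ := hΦ.comp (Continuous.prodMk_left y₁)
  have c2 : Continuous fun ξ => Φy ξ y₁ := hΦy.comp (Continuous.prodMk_left y₁)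
  have c3 : Continuous fun ξ => ex a ξ * ex c y₁ * (c y₁ * Φ ξ y₁ - Φy ξ y₁) :=
    (cA.mul continuous_const).mul ((continuous_const.mul c1).sub c2)
  have c4 : Continuous fun t => Φ x t := hΦ.comp (Continuous.prodMk_right x)
  have c5 : Continuous fun t => Φx x t := hΦx.comp (Continuous.prodMk_right x)
  have c6 : Continuous fun t => ex a x * ex c t * (Φx x t - a x * Φ x t) :=
    (continuous_const.mul cB).mul (c5.sub (continuous_const.mul c4))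
  have i1 := cs_gen c3 (α := x₀ - 1 / 2) (β := x₀ + 1 / 2) (p := x₀) (q := x)
    ⟨by linarith, by linarith⟩ hx
  have i2 := cs_gen c6 (α := y₀ - 1 / 2) (β := y₀ + 1 / 2) (p := y₁) (q := y) hy₁ hy
  have l1 : x₀ + 1 / 2 - (x₀ - 1 / 2) = 1 := by ring
  have l2 : y₀ + 1 / 2 - (y₀ - 1 / 2) = 1 := by ring
  rw [l1, one_mul] at i1
  rw [l2, one_mul] at i2
  have j1 : ∫ ξ in (x₀ - 1 / 2)..(x₀ + 1 / 2), (ex a ξ * ex c y₁ * (c y₁ * Φ ξ y₁ - Φy ξ y₁)) *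
      (ex a ξ * ex c y₁ * (c y₁ * Φ ξ y₁ - Φy ξ y₁)) ≤
      Real.exp 2 * (2 * (κ ^ 2 / 100) + 2 * ∫ ξ in (x₀ - 1 / 2)..(x₀ + 1 / 2), Φy ξ y₁ ^ 2) := by
    have h1 : ∫ ξ in (x₀ - 1 / 2)..(x₀ + 1 / 2),
        (ex a ξ * ex c y₁ * (c y₁ * Φ ξ y₁ - Φy ξ y₁)) *
        (ex a ξ * ex c y₁ * (c y₁ * Φ ξ y₁ - Φy ξ y₁)) ≤ ∫ ξ in (x₀ - 1 / 2)..(x₀ + 1 / 2),
        (Real.exp 2 * (2 * (κ ^ 2 / 100) + 2 * Φy ξ y₁ ^ 2)) := by
      refine intervalIntegral.integral_mono_on (by linarith) ((c3.mul c3).intervalIntegrable _ _)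
        (Continuous.intervalIntegrable (by fun_prop) _ _) fun ξ hξ => ?_
      exact key _ _ _ _ (bc y₁) (hAB ξ y₁ (h5x ξ hξ) (h5y y₁ hy₁)) (hΦκ ξ hξ y₁ hy₁)
    refine h1.trans (le_of_eq ?_)
    have c7 : Continuous fun ξ => 2 * Φy ξ y₁ ^ 2 := continuous_const.mul (c2.pow 2)
    have c8 : Continuous fun _ : ℝ => 2 * (κ ^ 2 / 100) := continuous_const
    rw [intervalIntegral.integral_const_mul, int_add c8 c7, intervalIntegral.integral_const, l1,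
      one_smul, intervalIntegral.integral_const_mul]
  have j2 : ∫ t in (y₀ - 1 / 2)..(y₀ + 1 / 2), (ex a x * ex c t * (Φx x t - a x * Φ x t)) *
      (ex a x * ex c t * (Φx x t - a x * Φ x t)) ≤
      Real.exp 2 * (2 * (κ ^ 2 / 100) + 2 * ∫ t in (y₀ - 1 / 2)..(y₀ + 1 / 2), Φx x t ^ 2) := by
    have h1 : ∫ t in (y₀ - 1 / 2)..(y₀ + 1 / 2),
        (ex a x * ex c t * (Φx x t - a x * Φ x t)) *
        (ex a x * ex c t * (Φx x t - a x * Φ x t)) ≤ ∫ t in (y₀ - 1 / 2)..(y₀ + 1 / 2),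
        (Real.exp 2 * (2 * (κ ^ 2 / 100) + 2 * Φx x t ^ 2)) := by
      refine intervalIntegral.integral_mono_on (by linarith) ((c6.mul c6).intervalIntegrable _ _)
        (Continuous.intervalIntegrable (by fun_prop) _ _) fun t ht => ?_
      have h2 := key (Φx x t) (ex a x * ex c t) (Φ x t) (a x) (ba x)
        (hAB x t (h5x x hx) (h5y t ht)) (hΦκ x hx t ht)
      calc (ex a x * ex c t * (Φx x t - a x * Φ x t)) * (ex a x * ex c t * (Φx x t - a x * Φ x t))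
          = (ex a x * ex c t * (a x * Φ x t - Φx x t)) *
            (ex a x * ex c t * (a x * Φ x t - Φx x t)) := by ring
        _ ≤ _ := h2
    refine h1.trans (le_of_eq ?_)
    have c7 : Continuous fun t => 2 * Φx x t ^ 2 := continuous_const.mul (c5.pow 2)
    have c8 : Continuous fun _ : ℝ => 2 * (κ ^ 2 / 100) := continuous_const
    rw [intervalIntegral.integral_const_mul, int_add c8 c7, intervalIntegral.integral_const, l2,
      one_smul, intervalIntegral.integral_const_mul]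
  set I₁ := ∫ ξ in x₀..x, ex a ξ * ex c y₁ * (c y₁ * Φ ξ y₁ - Φy ξ y₁)
  set I₂ := ∫ t in y₁..y, ex a x * ex c t * (Φx x t - a x * Φ x t)
  have h7 : (I₁ + I₂) ^ 2 ≤ 2 * I₁ ^ 2 + 2 * I₂ ^ 2 := by nlinarith [sq_nonneg (I₁ - I₂)]
  have h8 := i1.trans j1
  have h9 := i2.trans j2
  calc (I₁ + I₂) ^ 2 ≤ 2 * I₁ ^ 2 + 2 * I₂ ^ 2 := h7
    _ ≤ 2 * (Real.exp 2 * (2 * (κ ^ 2 / 100) +
          2 * ∫ ξ in (x₀ - 1 / 2)..(x₀ + 1 / 2), Φy ξ y₁ ^ 2)) +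
        2 * (Real.exp 2 * (2 * (κ ^ 2 / 100) +
          2 * ∫ t in (y₀ - 1 / 2)..(y₀ + 1 / 2), Φx x t ^ 2)) := by linarith
    _ = _ := by ring

end Pool.Agent.N273.LT
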