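import Pool.Agent.N273.LT.Defs

/-!
# Zeros of holomorphic functions on the disc of radius 3
-/

set_option autoImplicit false

open MeasureTheory Complex Metric Filter Topology

namespace Pool.Agent.N273.LT

theorem an_of_diff {H : ℂ → ℂ} (hH : DifferentiableOn ℂ H (ball 0 3)) :
    AnalyticOnNhd ℂ H (ball 0 3) := hH.analyticOnNhd isOpen_ball

/-- Finitely many zeros in compact sets. -/
theorem zeros_finite {H : ℂ → ℂ} (hH : DifferentiableOn ℂ H (ball 0 3))
    (hne : ∃ z ∈ ball (0 : ℂ) 3, H z ≠ 0) {K : Set ℂ} (hK : IsCompact K) (hKU : K ⊆ ball 0 3) :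
    {z | z ∈ K ∧ H z = 0}.Finite := by
  have h1 := (an_of_diff hH).eqOn_zero_or_eventually_ne_zero_of_preconnected
    (convex_ball (0 : ℂ) 3).isPreconnected
  rcases h1 with h1 | h1
  · obtain ⟨z, hz, hz'⟩ := hne
    exact absurd (h1 hz) hz'
  · have h2 : {z | H z ≠ 0} ∈ codiscreteWithin K := Filter.codiscreteWithin_mono hKU h1
    refine (hK.finite_sdiff_of_mem_codiscreteWithin h2).subset ?_
    rintro z ⟨hz, hz'⟩
    exact ⟨hz, fun h => h hz'⟩

/-- Almost all points are not zeros. -/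
theorem ae_ne {H : ℂ → ℂ} (hH : DifferentiableOn ℂ H (ball 0 3))
    (hne : ∃ z ∈ ball (0 : ℂ) 3, H z ≠ 0) {K : Set ℂ} (hK : IsCompact K) (hKU : K ⊆ ball 0 3) :
    ∀ᵐ z ∂(volume.restrict K), H z ≠ 0 := by
  rw [ae_restrict_iff' hK.measurableSet, ae_iff]
  have h1 := (zeros_finite hH hne hK hKU).measure_zero volume
  convert h1 using 2
  ext z
  simp

end Pool.Agent.N273.LT
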